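import Mathlib

/-! Points of plane curves over finite prime fields: definitions. -/

namespace LW

open MvPolynomial

/-- the derivation `g_y ∂/∂x - g_x ∂/∂y` of the polynomial ring in two variables; it kills `g` -/
noncomputable def dl {F : Type} [Field F] (g : MvPolynomial (Fin 2) F) :
    MvPolynomial (Fin 2) F →ₗ[F] MvPolynomial (Fin 2) F :=
  ((pderiv 1 g • pderiv 0 - pderiv 0 g • pderiv 1 :
    Derivation F (MvPolynomial (Fin 2) F) (MvPolynomial (Fin 2) F)) :
      MvPolynomial (Fin 2) F →ₗ[F] MvPolynomial (Fin 2) F)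

theorem dl_apply {F : Type} [Field F] (g f : MvPolynomial (Fin 2) F) :
    dl g f = pderiv 1 g * pderiv 0 f - pderiv 0 g * pderiv 1 f := rfl

/-- `f` vanishes to order `M` at `x` along the curve `g = 0` -/
def Vn {F : Type} [Field F] (g : MvPolynomial (Fin 2) F) (x : Fin 2 → F) (M : ℕ)
    (f : MvPolynomial (Fin 2) F) : Prop :=
  ∀ k < M, eval x ((dl g ^ k) f) = 0

/-- the polynomials of degree at most `n` which are divisible by `g` -/
noncomputable def Gd {F : Type} [Field F] (g : MvPolynomial (Fin 2) F) (n : ℕ) : Submodule F (MvPolynomial (Fin 2) F) :=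
  restrictTotalDegree (Fin 2) F n ⊓ (Ideal.span {g}).restrictScalars F

theorem mem_Gd {F : Type} [Field F] (g : MvPolynomial (Fin 2) F) (n : ℕ) (f : MvPolynomial (Fin 2) F) :
    f ∈ Gd g n ↔ f.totalDegree ≤ n ∧ g ∣ f := by
  rw [Gd, Submodule.mem_inf, mem_restrictTotalDegree, Submodule.restrictScalars_mem, Ideal.mem_span_singleton]

/-- the number of monomials of degree at most `n` -/
def mo (n : ℕ) : ℕ := (n + 1) * (n + 2) / 2

/-- the dimension of the polynomials of degree `≤ n` modulo the multiples of a polynomial of degree `D` -/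
def rr (D n : ℕ) : ℕ := mo n - mo (n - D)

end LW
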