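import Pool.Agent.Lib.LW.Cu0

/-! LEAF CuA.  Calculus of the derivation `dl g`. -/

namespace LW

open MvPolynomial Finset

variable {F : Type} [Field F]

/-- PROOF. `Derivation.leibniz` (or dl_apply and pderiv_mul, ring). -/
theorem dl_mul (g f h : MvPolynomial (Fin 2) F) : dl g (f * h) = f * dl g h + h * dl g f := by
  rw [dl_apply, dl_apply, dl_apply, pderiv_mul, pderiv_mul]
  ring

private theorem CuA_succ (g f : MvPolynomial (Fin 2) F) (k : ℕ) : (dl g ^ (k + 1)) f = dl g ((dl g ^ k) f) := by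
  rw [pow_succ', Module.End.mul_apply]

private theorem CuA_anti (g f h : MvPolynomial (Fin 2) F) (k : ℕ) :
    (dl g ^ k) (f * h) = ∑ ij ∈ antidiagonal k, k.choose ij.1 • ((dl g ^ ij.1) f * (dl g ^ ij.2) h) := by
  induction k with
  | zero => simp
  | succ k ih =>
    rw [CuA_succ, ih, map_sum,
      Finset.sum_antidiagonal_choose_succ_nsmul (fun i j => (dl g ^ i) f * (dl g ^ j) h) k,
      ← Finset.sum_add_distrib]
    refine Finset.sum_congr rfl fun ij hij => ?_
    rw [Finset.HasAntidiagonal.mem_antidiagonal] at hij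
    have h1 : k.choose ij.2 = k.choose ij.1 := by
      rw [← Nat.choose_symm_of_eq_add (n := k) (a := ij.1) (b := ij.2) hij.symm]
    rw [map_nsmul, dl_mul, h1, ← nsmul_add, CuA_succ, CuA_succ, mul_comm ((dl g ^ ij.2) h)]

private theorem CuA_self (g : MvPolynomial (Fin 2) F) : dl g g = 0 := by
  rw [dl_apply]; ring

/-- PROOF. Induction on `k` as for the binomial theorem (Finset.sum_range_succ, Nat.succ_eq.. or
`Finset.sum_antidiagonal`); `dl g` is linear, kills natural numbers. -/
theorem dl_pow_mul (g f h : MvPolynomial (Fin 2) F) (k : ℕ) :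
    (dl g ^ k) (f * h) = ∑ i ∈ range (k + 1),
      (k.choose i : MvPolynomial (Fin 2) F) * ((dl g ^ i) f * (dl g ^ (k - i)) h) := by
  rw [CuA_anti, Finset.Nat.sum_antidiagonal_eq_sum_range_succ
    (fun i j => k.choose i • ((dl g ^ i) f * (dl g ^ j) h)) k]
  refine Finset.sum_congr rfl fun i _ => ?_
  rw [nsmul_eq_mul]

/-- PROOF. `dl g g = g_y g_x - g_x g_y = 0`, so `dl g (g h) = g dl g h`; induction. -/
theorem dl_pow_self_mul (g h : MvPolynomial (Fin 2) F) (k : ℕ) : (dl g ^ k) (g * h) = g * (dl g ^ k) h := by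
  induction k with
  | zero => rfl
  | succ k ih => rw [CuA_succ, ih, dl_mul, CuA_self, mul_zero, add_zero, CuA_succ]

/-- PROOF. `dl g (b ^ p) = p b ^ (p - 1) dl g b = 0` in characteristic `p`, so `dl g (a b ^ p) = dl g a b ^ p`; induction. -/
theorem dl_pow_mul_pow (p : ℕ) [CharP F p] (g a b : MvPolynomial (Fin 2) F) (k : ℕ) :
    (dl g ^ k) (a * b ^ p) = (dl g ^ k) a * b ^ p := by
  have hp : ((p : ℕ) : MvPolynomial (Fin 2) F) = 0 := by
    rw [← map_natCast (C : F →+* MvPolynomial (Fin 2) F), CharP.cast_eq_zero, map_zero]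
  have hb : dl g (b ^ p) = 0 := by
    rw [dl_apply, pderiv_pow, pderiv_pow, hp]; ring
  induction k with
  | zero => rfl
  | succ k ih => rw [CuA_succ, ih, dl_mul, hb, mul_zero, zero_add, CuA_succ, mul_comm]

/-- PROOF. dl_pow_mul: every term has `(dl g ^ i) f` with `i ≤ k < M`. -/
theorem Vn.mul {g : MvPolynomial (Fin 2) F} {x : Fin 2 → F} {M : ℕ} {f : MvPolynomial (Fin 2) F}
    (hf : Vn g x M f) (h : MvPolynomial (Fin 2) F) : Vn g x M (f * h) := by
  intro k hk
  rw [dl_pow_mul, map_sum]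
  refine Finset.sum_eq_zero fun i hi => ?_
  rw [mem_range] at hi
  rw [map_mul, map_mul, hf i (by omega), zero_mul, mul_zero]

/-- PROOF. dl_pow_mul: for `k < a + b` and `i ≤ k` either `i < a` or `k - i < b`. -/
theorem Vn.mul_add {g : MvPolynomial (Fin 2) F} {x : Fin 2 → F} {a b : ℕ} {f h : MvPolynomial (Fin 2) F}
    (hf : Vn g x a f) (hh : Vn g x b h) : Vn g x (a + b) (f * h) := by
  intro k hk
  rw [dl_pow_mul, map_sum]
  refine Finset.sum_eq_zero fun i hi => ?_
  rw [mem_range] at hi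
  rw [map_mul, map_mul]
  rcases lt_or_ge i a with h1 | h1
  · rw [hf i h1, zero_mul, mul_zero]
  · rw [hh (k - i) (by omega), mul_zero, mul_zero]

/-- PROOF. Induction on `M` with Vn.mul_add. -/
theorem Vn.pow {g : MvPolynomial (Fin 2) F} {x : Fin 2 → F} {l : MvPolynomial (Fin 2) F}
    (hl : eval x l = 0) (M : ℕ) : Vn g x M (l ^ M) := by
  induction M with
  | zero => intro k hk; exact absurd hk (Nat.not_lt_zero k)
  | succ M ih =>
    rw [pow_succ]
    refine Vn.mul_add ih ?_
    intro k hk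
    rw [Nat.lt_one_iff.mp hk]
    exact hl

/-- PROOF. Induction on `k`: `l ^ (k+1) e = l (l ^ k e)`; in dl_pow_mul for `k + 1` with `f = l`, `h = l ^ k e` the terms
`i = 0` (as `l(x) = 0`) and `i ≥ 2` (as `l ^ k e` vanishes to order `k`) are zero at `x`, the term `i = 1` is
`(k + 1) (dl g l)(x) ((dl g ^ k) (l ^ k e))(x)`. -/
theorem eval_top {g : MvPolynomial (Fin 2) F} {x : Fin 2 → F} {l : MvPolynomial (Fin 2) F}
    (hl : eval x l = 0) (e : MvPolynomial (Fin 2) F) (k : ℕ) :
    eval x ((dl g ^ k) (l ^ k * e)) = (k.factorial : F) * eval x (dl g l) ^ k * eval x e := by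
  induction k with
  | zero => simp
  | succ k ih =>
    have h0 : l ^ (k + 1) * e = l * (l ^ k * e) := by rw [pow_succ]; ring
    have hv : Vn g x k (l ^ k * e) := Vn.mul (Vn.pow hl k) e
    rw [h0, dl_pow_mul, map_sum, Finset.sum_eq_single 1]
    · rw [map_mul, map_mul, Nat.add_sub_cancel, ih, Nat.choose_one_right, map_natCast, pow_one,
        Nat.factorial_succ, Nat.cast_mul, pow_succ]
      ring
    · intro i hi hi1
      rw [mem_range] at hi
      rw [map_mul, map_mul]
      rcases Nat.eq_zero_or_pos i with h1 | h1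
      · subst h1
        rw [pow_zero, Module.End.one_apply, hl, zero_mul, mul_zero]
      · rw [hv (k + 1 - i) (by omega), mul_zero, mul_zero]
    · intro h1
      rw [mem_range] at h1
      omega

end LW
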