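import Pool.Agent.Lib.LW.Cu0

/-! LEAF CuB.  Degrees. -/

namespace LW

open MvPolynomial Finset

variable {F : Type} [Field F]

/-- PROOF. `pderiv i` of a monomial `s` is zero or a multiple of the monomial `s - single i 1` with `s i ≥ 1`, of degree one less
(pderiv_monomial, totalDegree of a sum: `f = ∑ monomials`, totalDegree_finset_sum, or coefficients). -/
theorem totalDegree_pderiv (i : Fin 2) (f : MvPolynomial (Fin 2) F) :
    (pderiv i f).totalDegree ≤ f.totalDegree - 1 := by
  refine Finset.sup_le fun m hm => ?_
  have h1 : coeff (m + Finsupp.single i 1) f ≠ 0 := by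
    intro h
    rw [mem_support_iff, coeff_pderiv, h, zero_mul] at hm
    exact hm rfl
  have h2 := le_totalDegree (mem_support_iff.2 h1)
  rw [Finsupp.sum_add_index' (fun _ => rfl) (fun _ _ _ => rfl), Finsupp.sum_single_index rfl] at h2
  exact Nat.le_sub_of_add_le h2

/-- PROOF. dl_apply, totalDegree_sub, totalDegree_mul: one step adds at most `D - 1`; induction (pow_succ'). -/
theorem dl_pow_deg (g f : MvPolynomial (Fin 2) F) {D m : ℕ} (hg : g.totalDegree ≤ D)
    (hf : f.totalDegree ≤ m) (k : ℕ) : ((dl g ^ k) f).totalDegree ≤ m + k * (D - 1) := by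
  have hstep : ∀ (f : MvPolynomial (Fin 2) F) (n : ℕ), f.totalDegree ≤ n → (dl g f).totalDegree ≤ n + (D - 1) := by
    intro f n hf
    rw [dl_apply]
    refine (totalDegree_sub _ _).trans (max_le ?_ ?_)
    · have h1 := totalDegree_pderiv 1 g
      have h2 := totalDegree_pderiv 0 f
      have h3 := totalDegree_mul (pderiv 1 g) (pderiv 0 f)
      omega
    · have h1 := totalDegree_pderiv 0 g
      have h2 := totalDegree_pderiv 1 f
      have h3 := totalDegree_mul (pderiv 0 g) (pderiv 1 f)
      omega
  induction k with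
  | zero =>
    rw [pow_zero, zero_mul, add_zero]
    exact hf
  | succ k ih =>
    rw [pow_succ', Module.End.mul_apply]
    refine (hstep _ _ ih).trans (le_of_eq ?_)
    ring

/-- PROOF. `g` is not constant (irreducible), so some monomial `s` with `s i ≥ 1` occurs, `s i ≤ deg g < p`, and the coefficient of
`s - single i 1` in `pderiv i g` is `s i` times a non-zero number, not zero in characteristic `p`; so `pderiv i g ≠ 0`; its degree is
smaller than that of `g`, so `g` does not divide it (totalDegree_mul_of_isDomain). -/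
theorem exists_pderiv (p : ℕ) [CharP F p] (g : MvPolynomial (Fin 2) F) (hg : Irreducible g)
    (hp : g.totalDegree < p) : ∃ i, ¬ g ∣ pderiv i g := by
  have h0 : g.totalDegree ≠ 0 := by
    intro h
    rw [totalDegree_eq_zero_iff_eq_C] at h
    have hc : coeff 0 g ≠ 0 := by
      intro hc
      rw [hc, map_zero] at h
      exact hg.ne_zero h
    apply hg.not_isUnit
    rw [h]
    exact (isUnit_iff_ne_zero.2 hc).map C
  obtain ⟨s, hs, i, hi⟩ : ∃ s ∈ g.support, ∃ i, s i ≠ 0 := by
    by_contra hcon
    push Not at hcon
    apply h0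
    rw [← Nat.le_zero]
    refine Finset.sup_le fun s hs => ?_
    have h1 : s = 0 := Finsupp.ext fun i => hcon s hs i
    rw [h1, Finsupp.sum_zero_index]
  refine ⟨i, fun hdvd => ?_⟩
  have hsi : s i ≤ g.totalDegree := by
    refine le_trans ?_ (le_totalDegree hs)
    exact Finset.single_le_sum (f := fun j => s j) (fun j _ => Nat.zero_le _) (Finsupp.mem_support_iff.2 hi)
  have hne : pderiv i g ≠ 0 := by
    intro hz
    have h1 : coeff (s - Finsupp.single i 1) (pderiv i g) = 0 := by
      rw [hz, coeff_zero]
    rw [coeff_pderiv] at h1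
    have h2 : s - Finsupp.single i 1 + Finsupp.single i 1 = s := by
      refine tsub_add_cancel_of_le ?_
      rw [Finsupp.single_le_iff]
      exact Nat.one_le_iff_ne_zero.2 hi
    rw [h2] at h1
    rcases mul_eq_zero.1 h1 with h3 | h3
    · exact (mem_support_iff.1 hs) h3
    · have h4 : ((s i : ℕ) : F) = 0 := by
        have h5 : (s - Finsupp.single i 1 : Fin 2 →₀ ℕ) i + 1 = s i := by
          rw [Finsupp.tsub_apply, Finsupp.single_eq_same]
          omega
        rw [← h5]
        push_cast
        exact h3
      rw [CharP.cast_eq_zero_iff F p] at h4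
      have h5 := Nat.le_of_dvd (Nat.pos_of_ne_zero hi) h4
      omega
  obtain ⟨h, hh⟩ := hdvd
  have hh0 : h ≠ 0 := fun h1 => hne (by rw [hh, h1, mul_zero])
  have h1 := totalDegree_mul_of_isDomain hg.ne_zero hh0
  have h2 := totalDegree_pderiv i g
  rw [hh, h1] at h2
  omega

end LW
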