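import Pool.Agent.Lib.LW.Cu0

/-! LEAF CuC.  Dimensions. -/

namespace LW

open MvPolynomial Finset

variable {F : Type} [Field F]

private noncomputable def CuC_f (p : ℕ × ℕ) : Fin 2 →₀ ℕ := Finsupp.equivFunOnFinite.symm ![p.1, p.2]

private theorem CuC_f0 (p : ℕ × ℕ) : CuC_f p 0 = p.1 := rfl

private theorem CuC_f1 (p : ℕ × ℕ) : CuC_f p 1 = p.2 := rfl

private def CuC_T (n : ℕ) : Finset (ℕ × ℕ) := (range (n + 1)).biUnion fun k => antidiagonal k

private theorem CuC_mem (n : ℕ) (p : ℕ × ℕ) : p ∈ CuC_T n ↔ p.1 + p.2 ≤ n := by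
  unfold CuC_T
  rw [mem_biUnion]
  constructor
  · rintro ⟨k, hk, hp⟩
    rw [Finset.HasAntidiagonal.mem_antidiagonal] at hp
    rw [mem_range] at hk
    omega
  · intro h
    exact ⟨p.1 + p.2, mem_range.2 (by omega), Finset.HasAntidiagonal.mem_antidiagonal.2 rfl⟩

private theorem CuC_card (n : ℕ) : (CuC_T n).card = mo n := by
  unfold CuC_T mo
  rw [card_biUnion]
  · have h1 : ∀ k ∈ range (n + 1), (antidiagonal k).card = k + 1 := fun k _ => Nat.card_antidiagonal k
    rw [sum_congr rfl h1]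
    have h2 : (∑ k ∈ range (n + 1), (k + 1)) * 2 = (n + 1) * (n + 2) := by
      clear h1
      induction n with
      | zero => rfl
      | succ m ih =>
        rw [sum_range_succ, add_mul, ih]
        ring
    omega
  · intro i _ j _ hij
    rw [Function.onFun, disjoint_left]
    intro p hp hp'
    rw [Finset.HasAntidiagonal.mem_antidiagonal] at hp hp'
    exact hij (hp.symm.trans hp')

private theorem CuC_set (n : ℕ) :
    {s : Fin 2 →₀ ℕ | (s.sum fun _ e => e) ≤ n} = CuC_f '' ((CuC_T n : Finset (ℕ × ℕ)) : Set (ℕ × ℕ)) := by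
  have h1 : ∀ s : Fin 2 →₀ ℕ, (s.sum fun _ e => e) = s 0 + s 1 := by
    intro s
    rw [Finsupp.sum_fintype _ _ (fun _ => rfl), Fin.sum_univ_two]
  ext s
  rw [Set.mem_ofPred_eq, h1, Set.mem_image]
  constructor
  · intro h
    refine ⟨(s 0, s 1), ?_, ?_⟩
    · rw [mem_coe, CuC_mem]
      exact h
    · ext i
      fin_cases i
      · exact CuC_f0 _
      · exact CuC_f1 _
  · rintro ⟨p, hp, rfl⟩
    rw [mem_coe, CuC_mem] at hp
    rw [CuC_f0, CuC_f1]
    exact hp

private theorem CuC_two (n : ℕ) : 2 * mo n = (n + 1) * (n + 2) := by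
  unfold mo
  have h : Even ((n + 1) * (n + 2)) := Nat.even_mul_succ_self (n + 1)
  obtain ⟨k, hk⟩ := h
  omega

/-- PROOF. The monomials `s` with `s 0 + s 1 ≤ n` are a basis (restrictSupport, Finsupp.supported, basisRestrictSupport or similar); their
number is `∑ i ∈ range (n + 1), (n + 1 - i) = (n + 1)(n + 2) / 2` (or: linear equivalence with functions on the finite set of
pairs `(i, j)`, `i + j ≤ n`). -/
theorem finrank_restrict (n : ℕ) : Module.finrank F (restrictTotalDegree (Fin 2) F n) = mo n := by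
  refine (Module.finrank_eq_nat_card_basis
    (basisRestrictSupport F {s : Fin 2 →₀ ℕ | (s.sum fun _ e => e) ≤ n})).trans ?_
  rw [Nat.card_coe_set_eq, CuC_set, Set.ncard_image_of_injective, Set.ncard_coe_finset, CuC_card]
  intro p q h
  have h0 : CuC_f p 0 = CuC_f q 0 := by rw [h]
  have h1 : CuC_f p 1 = CuC_f q 1 := by rw [h]
  rw [CuC_f0, CuC_f0] at h0
  rw [CuC_f1, CuC_f1] at h1
  exact Prod.ext h0 h1

/-- PROOF. Multiplication by `g` is a linear isomorphism from the polynomials of degree `≤ n - D` onto `Gd g n`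
(injective; `totalDegree (g h) = D + totalDegree h` for `h ≠ 0`: totalDegree_mul_of_isDomain). -/
theorem finrank_Gd (g : MvPolynomial (Fin 2) F) (hg : g ≠ 0) (n : ℕ) (hn : g.totalDegree ≤ n) :
    Module.finrank F (Gd g n) = mo (n - g.totalDegree) := by
  have hinj : Function.Injective (LinearMap.mulLeft F g) := by
    intro a b h
    exact mul_left_cancel₀ hg h
  have h1 : Gd g n = (restrictTotalDegree (Fin 2) F (n - g.totalDegree)).map
      (LinearMap.mulLeft F g) := by
    ext f
    rw [mem_Gd, Submodule.mem_map]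
    constructor
    · rintro ⟨hf, h, rfl⟩
      refine ⟨h, ?_, rfl⟩
      rw [mem_restrictTotalDegree]
      by_cases h0 : h = 0
      · rw [h0, totalDegree_zero]
        exact Nat.zero_le _
      · rw [totalDegree_mul_of_isDomain hg h0] at hf
        omega
    · rintro ⟨h, hh, rfl⟩
      rw [mem_restrictTotalDegree] at hh
      refine ⟨?_, h, rfl⟩
      have h2 := totalDegree_mul g h
      have h3 : LinearMap.mulLeft F g h = g * h := rfl
      rw [h3]
      omega
  rw [h1, ← (Submodule.equivMapOfInjective _ hinj _).finrank_eq, finrank_restrict]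

/-- PROOF. `mo n` is increasing; `mo n = n (n + 3) / 2 + 1`; for `D ≤ n`: `rr D n = D n - D (D - 3) / 2` (write `n = D + t`; `2 mo n = (n+1)(n+2)`
exactly as the product is even). -/
theorem rr_le (D n : ℕ) (hD : 1 ≤ D) (hn : D ≤ n) : rr D n ≤ D * (n + 1) := by
  obtain ⟨t, rfl⟩ := Nat.exists_eq_add_of_le hn
  unfold rr
  have h1 := CuC_two (D + t)
  have h2 := CuC_two (D + t - D)
  rw [Nat.add_sub_cancel_left] at h2 ⊢
  have h3 : mo (D + t) ≤ D * (D + t + 1) + mo t := by nlinarith
  omega

theorem rr_ge (D n : ℕ) (hD : 1 ≤ D) (hn : D ≤ n) : D * n ≤ rr D n + D ^ 2 := by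
  obtain ⟨t, rfl⟩ := Nat.exists_eq_add_of_le hn
  unfold rr
  have h1 := CuC_two (D + t)
  have h2 := CuC_two (D + t - D)
  rw [Nat.add_sub_cancel_left] at h2 ⊢
  have h3 : D * (D + t) + mo t ≤ mo (D + t) + D ^ 2 := by nlinarith
  omega

/-- PROOF. Second difference: both sides with `n = D + E + t`; `2 mo n = (n + 1)(n + 2)`. -/
theorem mo_second (D E n : ℕ) (hn : D + E ≤ n) :
    mo n + mo (n - D - E) = mo (n - D) + mo (n - E) + D * E := by
  obtain ⟨t, rfl⟩ := Nat.exists_eq_add_of_le hn
  have e1 : D + E + t - D - E = t := by omega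
  have e2 : D + E + t - D = E + t := by omega
  have e3 : D + E + t - E = D + t := by omega
  rw [e1, e2, e3]
  have h1 := CuC_two (D + E + t)
  have h2 := CuC_two t
  have h3 := CuC_two (E + t)
  have h4 := CuC_two (D + t)
  nlinarith

end LW
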