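import Pool.Agent.Lib.LW.CuA

/-! LEAF CuE2.  Jets at different points are independent. -/

namespace LW

open MvPolynomial Finset

variable {F : Type} [Field F]

/-- PROOF. Suppose not all `c x k` are zero; take `x0 ∈ S` with some `c x0 k ≠ 0` and `k0 < M` the LARGEST `k < M` with `c x0 k ≠ 0`. For `x ∈ S`, `x ≠ x0`, there is
a linear form `l x` (`X 0 - C (x 0)` or `X 1 - C (x 1)`) with `l x (x) = 0`, `l x (x0) ≠ 0`. `e = ∏_{x ∈ S \ x0} (l x) ^ M`, not zero at
`x0`, vanishing to order `M` at the other points of `S` (Vn.pow, Vn.mul). Let `l = X 0 - C (x0 0)` or `X 1 - C (x0 1)` with `(dl g l)(x0) ≠ 0`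
(`dl g (X 0 - c) = g_y`, `dl g (X 1 - c) = - g_x`; if `M ≤ 1` then `k0 = 0` and nothing is needed). `f = l ^ k0 e` of degree `≤ k0 + M |S| ≤ M (|S| + 1)`: the sum is
`c x0 k0 k0! (dl g l)(x0) ^ k0 e(x0) ≠ 0` (eval_top; for `k < k0` the value is zero by Vn.pow and Vn.mul, for `k > k0` the coefficient is zero). -/
theorem jets_indep (g : MvPolynomial (Fin 2) F) (S : Finset (Fin 2 → F)) (M : ℕ)
    (hM : ∀ k < M, ((k.factorial : ℕ) : F) ≠ 0)
    (hS : ∀ x ∈ S, M ≤ 1 ∨ eval x (pderiv 0 g) ≠ 0 ∨ eval x (pderiv 1 g) ≠ 0)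
    (c : (Fin 2 → F) → ℕ → F)
    (h : ∀ f : MvPolynomial (Fin 2) F, f.totalDegree ≤ M * (S.card + 1) →
      ∑ x ∈ S, ∑ k ∈ range M, c x k * eval x ((dl g ^ k) f) = 0) :
    ∀ x ∈ S, ∀ k < M, c x k = 0 := by
  classical
  by_contra hne
  push Not at hne
  obtain ⟨x0, hx0, k1, hk1, hc1⟩ := hne
  obtain ⟨k0, hk0M, hk0c, hk0max⟩ : ∃ k0 < M, c x0 k0 ≠ 0 ∧ ∀ k < M, k0 < k → c x0 k = 0 := by
    have hne : ((range M).filter fun k => c x0 k ≠ 0).Nonempty := ⟨k1, by
      rw [mem_filter, mem_range]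
      exact ⟨hk1, hc1⟩⟩
    obtain ⟨k0, hk0, hmax⟩ := Finset.exists_max_image _ id hne
    rw [mem_filter, mem_range] at hk0
    refine ⟨k0, hk0.1, hk0.2, fun k hk hlt => ?_⟩
    by_contra hck
    have := hmax k (by
      rw [mem_filter, mem_range]
      exact ⟨hk, hck⟩)
    simp only [id] at this
    omega
  have hlin : ∀ x : Fin 2 → F, ∃ l : MvPolynomial (Fin 2) F, l.totalDegree ≤ 1 ∧ eval x l = 0 ∧
      (x ≠ x0 → eval x0 l ≠ 0) := by
    intro x
    by_cases hx : x = x0
    · exact ⟨0, by simp, by simp, fun h => absurd hx h⟩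
    · obtain ⟨i, hi⟩ := Function.ne_iff.1 hx
      refine ⟨X i - C (x i), ?_, by simp, fun _ => ?_⟩
      · refine (totalDegree_sub _ _).trans (max_le ?_ ?_)
        · exact (totalDegree_X (R := F) i).le
        · rw [totalDegree_C]; omega
      · rw [map_sub, eval_X, eval_C]
        intro h0
        exact hi (sub_eq_zero.1 h0).symm
  choose l hl1 hl0 hlne using hlin
  obtain ⟨l0, h01, h00, h0d⟩ : ∃ l0 : MvPolynomial (Fin 2) F, l0.totalDegree ≤ 1 ∧ eval x0 l0 = 0 ∧
      (k0 = 0 ∨ eval x0 (dl g l0) ≠ 0) := by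
    have hX : ∀ i : Fin 2, (X i - C (x0 i) : MvPolynomial (Fin 2) F).totalDegree ≤ 1 := by
      intro i
      refine (totalDegree_sub _ _).trans (max_le ?_ ?_)
      · exact (totalDegree_X (R := F) i).le
      · rw [totalDegree_C]; omega
    rcases hS x0 hx0 with h1 | h1 | h1
    · exact ⟨X 0 - C (x0 0), hX 0, by simp, Or.inl (by omega)⟩
    · refine ⟨X 1 - C (x0 1), hX 1, by simp, Or.inr ?_⟩
      have h2 : dl g (X 1 - C (x0 1)) = - pderiv 0 g := by
        rw [dl_apply, map_sub, map_sub, pderiv_C, pderiv_C, pderiv_X_self, pderiv_X_of_ne (by decide)]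
        ring
      rw [h2, map_neg]
      exact neg_ne_zero.2 h1
    · refine ⟨X 0 - C (x0 0), hX 0, by simp, Or.inr ?_⟩
      have h2 : dl g (X 0 - C (x0 0)) = pderiv 1 g := by
        rw [dl_apply, map_sub, map_sub, pderiv_C, pderiv_C, pderiv_X_self, pderiv_X_of_ne (by decide)]
        ring
      rw [h2]
      exact h1
  set e : MvPolynomial (Fin 2) F := ∏ x ∈ S.erase x0, l x ^ M with he
  have hedeg : e.totalDegree ≤ M * (S.card - 1) := by
    rw [he]
    refine (totalDegree_finsetProd _ _).trans ?_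
    refine (Finset.sum_le_card_nsmul _ _ M fun x _ => ?_).trans ?_
    · refine (totalDegree_pow _ _).trans ?_
      calc M * (l x).totalDegree ≤ M * 1 := Nat.mul_le_mul_left _ (hl1 x)
        _ = M := Nat.mul_one _
    · rw [Finset.card_erase_of_mem hx0, smul_eq_mul, Nat.mul_comm]
  have hene : eval x0 e ≠ 0 := by
    rw [he, map_prod]
    refine Finset.prod_ne_zero_iff.2 fun x hx => ?_
    rw [map_pow]
    exact pow_ne_zero _ (hlne x (Finset.ne_of_mem_erase hx))
  have hfdeg : (l0 ^ k0 * e).totalDegree ≤ M * (S.card + 1) := by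
    refine (totalDegree_mul _ _).trans ?_
    have h1 : (l0 ^ k0).totalDegree ≤ k0 := by
      refine (totalDegree_pow _ _).trans ?_
      calc k0 * l0.totalDegree ≤ k0 * 1 := Nat.mul_le_mul_left _ h01
        _ = k0 := Nat.mul_one _
    have h2 : M * (S.card - 1) ≤ M * S.card := Nat.mul_le_mul_left _ (Nat.sub_le _ _)
    have h3 : M * (S.card + 1) = M * S.card + M := by ring
    omega
  have hsum := h (l0 ^ k0 * e) hfdeg
  rw [Finset.sum_eq_single_of_mem x0 hx0] at hsum
  · rw [Finset.sum_eq_single_of_mem k0 (mem_range.2 hk0M)] at hsum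
    · rw [eval_top h00] at hsum
      have h1 : eval x0 (dl g l0) ^ k0 ≠ 0 := by
        rcases h0d with h2 | h2
        · rw [h2, pow_zero]; exact one_ne_zero
        · exact pow_ne_zero _ h2
      exact mul_ne_zero hk0c (mul_ne_zero (mul_ne_zero (hM k0 hk0M) h1) hene) hsum
    · intro k hk hkne
      rw [mem_range] at hk
      rcases lt_or_gt_of_ne hkne with h1 | h1
      · have h2 : Vn g x0 k0 (l0 ^ k0 * e) := (Vn.pow h00 k0).mul e
        rw [h2 k h1, mul_zero]
      · rw [hk0max k hk h1, zero_mul]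
  · intro x hx hxne
    have hxe : x ∈ S.erase x0 := Finset.mem_erase.2 ⟨hxne, hx⟩
    have h1 : l0 ^ k0 * e = l x ^ M * (l0 ^ k0 * ∏ y ∈ (S.erase x0).erase x, l y ^ M) := by
      rw [he, ← Finset.mul_prod_erase _ _ hxe]
      ring
    have h2 : Vn g x M (l0 ^ k0 * e) := by
      rw [h1]
      exact (Vn.pow (hl0 x) M).mul _
    refine Finset.sum_eq_zero fun k hk => ?_
    rw [h2 k (mem_range.1 hk), mul_zero]

end LW
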