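import Pool.Agent.Lib.LW.CuE1
import Pool.Agent.Lib.LW.CuE2

/-! LEAF CuE.  The zero estimate. -/

namespace LW

open MvPolynomial Finset

variable {F : Type} [Field F]

/-- the jets at the points of `S` -/
private noncomputable def CuE_jet (g : MvPolynomial (Fin 2) F) (S : Finset (Fin 2 → F)) (M n : ℕ) :
    (restrictTotalDegree (Fin 2) F n) →ₗ[F] ((↥S × Fin M) → F) :=
  LinearMap.pi fun i => ((aeval (R := F) (i.1 : Fin 2 → F)).toLinearMap ∘ₗ (dl g ^ (i.2 : ℕ))) ∘ₗ
    (restrictTotalDegree (Fin 2) F n).subtype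

private theorem CuE_jet_apply (g : MvPolynomial (Fin 2) F) (S : Finset (Fin 2 → F)) (M n : ℕ)
    (u : restrictTotalDegree (Fin 2) F n) (i : ↥S × Fin M) :
    CuE_jet g S M n u i = eval (i.1 : Fin 2 → F) ((dl g ^ (i.2 : ℕ)) (u : MvPolynomial (Fin 2) F)) := by
  simp only [CuE_jet, LinearMap.pi_apply, LinearMap.comp_apply, Submodule.subtype_apply,
    AlgHom.toLinearMap_apply]
  exact RingHom.congr_fun (MvPolynomial.coe_aeval_eq_eval (i.1 : Fin 2 → F)) _

/-- PROOF. `n = D + E + M (|S| + 1)`, `V = restrictTotalDegree n`, `Λ : V → (S → range M → F)`, `Λ f x k = eval x ((dl g ^ k) f)`. `Λ` is surjective: otherwise a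
non-zero linear functional `c` on the target kills the range, contradiction to jets_indep (all `f` of degree `≤ M(|S|+1) ≤ n`). So
`|S| M = dim V - dim ker Λ`. `ker Λ` contains `Gd g n ⊔ Gd f n` (as subspaces of `V`): for `g h`: dl_pow_self_mul and `g(x) = 0`; for `f h`: Vn.mul. So
`|S| M ≤ mo n - finrank (Gd g n ⊔ Gd f n) ≤ D E` (finrank_restrict, finrank_sup). -/
theorem zero_est (g f : MvPolynomial (Fin 2) F) (hg : Irreducible g) (hf : ¬ g ∣ f)
    (S : Finset (Fin 2 → F)) (M : ℕ) (hM : ∀ k < M, ((k.factorial : ℕ) : F) ≠ 0)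
    (hS : ∀ x ∈ S, eval x g = 0 ∧ Vn g x M f ∧
      (M ≤ 1 ∨ eval x (pderiv 0 g) ≠ 0 ∨ eval x (pderiv 1 g) ≠ 0)) :
    S.card * M ≤ g.totalDegree * f.totalDegree := by
  classical
  obtain ⟨n, hn⟩ : ∃ n, n = g.totalDegree + f.totalDegree + M * (S.card + 1) := ⟨_, rfl⟩
  have hfin : Module.finrank F (restrictTotalDegree (Fin 2) F n) = mo n := finrank_restrict n
  have hpos : 0 < Module.finrank F (restrictTotalDegree (Fin 2) F n) := by
    rw [hfin, mo]
    apply Nat.div_pos _ (by norm_num)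
    nlinarith
  have : Module.Finite F (restrictTotalDegree (Fin 2) F n) := Module.finite_of_finrank_pos hpos
  -- surjectivity
  have hsurj : LinearMap.range (CuE_jet g S M n) = ⊤ := by
    by_contra hne
    obtain ⟨φ, hφ0, hφ⟩ := Submodule.exists_le_ker_of_lt_top _ (lt_top_iff_ne_top.2 hne)
    apply hφ0
    let c : (Fin 2 → F) → ℕ → F := fun x k => if h : x ∈ S ∧ k < M then
      φ (fun j => if ((⟨x, h.1⟩, ⟨k, h.2⟩) : ↥S × Fin M) = j then 1 else 0) else 0
    have hc : ∀ i : ↥S × Fin M, c i.1 i.2 = φ (fun j => if i = j then 1 else 0) := by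
      intro i
      have h : ((i.1 : Fin 2 → F) ∈ S ∧ (i.2 : ℕ) < M) := ⟨i.1.2, i.2.2⟩
      simp only [c, dif_pos h]
    have key := jets_indep g S M hM (fun x hx => (hS x hx).2.2) c (fun u hu => by
      have hmem : u ∈ restrictTotalDegree (Fin 2) F n := by
        rw [mem_restrictTotalDegree]; omega
      have h0 : φ (CuE_jet g S M n ⟨u, hmem⟩) = 0 := by
        have := hφ (LinearMap.mem_range_self (CuE_jet g S M n) ⟨u, hmem⟩)
        exact this
      rw [LinearMap.pi_apply_eq_sum_univ, Fintype.sum_prod_type] at h0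
      rw [← h0, ← Finset.sum_coe_sort S]
      refine Finset.sum_congr rfl fun x _ => ?_
      rw [← Fin.sum_univ_eq_sum_range (fun k => c x k * eval (x : Fin 2 → F) ((dl g ^ k) u)) M]
      refine Finset.sum_congr rfl fun k _ => ?_
      have := hc (x, k)
      rw [CuE_jet_apply, ← this, smul_eq_mul, mul_comm])
    apply LinearMap.ext
    intro v
    rw [LinearMap.pi_apply_eq_sum_univ]
    rw [LinearMap.zero_apply]
    apply Finset.sum_eq_zero
    intro i _
    rw [← hc i, key i.1 i.1.2 i.2 i.2.2, smul_zero]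
  have hrn := LinearMap.finrank_range_add_finrank_ker (CuE_jet g S M n)
  have hrange : Module.finrank F (LinearMap.range (CuE_jet g S M n)) = S.card * M := by
    rw [hsurj, finrank_top, Module.finrank_fintype_fun_eq_card, Fintype.card_prod, Fintype.card_coe,
      Fintype.card_fin]
  have hsub : Gd g n ⊔ Gd f n ≤
      Submodule.map (restrictTotalDegree (Fin 2) F n).subtype (LinearMap.ker (CuE_jet g S M n)) := by
    refine sup_le ?_ ?_
    · intro u hu
      rw [mem_Gd] at hu
      obtain ⟨hu1, v, rfl⟩ := hu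
      refine ⟨⟨g * v, (mem_restrictTotalDegree _ _ _).2 hu1⟩, ?_, rfl⟩
      rw [SetLike.mem_coe, LinearMap.mem_ker]
      funext i
      rw [CuE_jet_apply, dl_pow_self_mul, map_mul, (hS i.1 i.1.2).1, zero_mul]
      rfl
    · intro u hu
      rw [mem_Gd] at hu
      obtain ⟨hu1, v, rfl⟩ := hu
      refine ⟨⟨f * v, (mem_restrictTotalDegree _ _ _).2 hu1⟩, ?_, rfl⟩
      rw [SetLike.mem_coe, LinearMap.mem_ker]
      funext i
      rw [CuE_jet_apply]
      exact (hS i.1 i.1.2).2.1.mul v i.2 i.2.2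
  have hle : Module.finrank F (Gd g n ⊔ Gd f n : Submodule F (MvPolynomial (Fin 2) F)) ≤
      Module.finrank F (LinearMap.ker (CuE_jet g S M n)) := by
    rw [← LinearEquiv.finrank_eq (Submodule.equivMapOfInjective
      (restrictTotalDegree (Fin 2) F n).subtype (Submodule.subtype_injective _)
      (LinearMap.ker (CuE_jet g S M n))).symm]
    exact Submodule.finrank_mono hsub
  have hsup := finrank_sup g f hg hf n (by omega)
  rw [hrange, hfin] at hrn
  omega

end LW
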