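import Pool.Agent.Lib.LW.CuC

/-! LEAF CuE1.  The dimension of the multiples of `g` or `f`. -/

namespace LW

open MvPolynomial Finset

variable {F : Type} [Field F]

/-- PROOF. `D = deg g`, `E = deg f`, `D + E ≤ n`. `dim (Gd g n ⊔ Gd f n) = dim Gd g n + dim Gd f n - dim (Gd g n ⊓ Gd f n)`
(Submodule.finrank_sup_add_finrank_inf_eq; the spaces are finite-dimensional, contained in restrictTotalDegree). As `g` is prime and does not
divide `f`, `Gd g n ⊓ Gd f n = Gd (g f) n` (if `u = f b` and `g ∣ u` then `g ∣ b`). finrank_Gd three times, `deg (g f) = D + E`, mo_second. -/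
theorem finrank_sup (g f : MvPolynomial (Fin 2) F) (hg : Irreducible g) (hf : ¬ g ∣ f) (n : ℕ)
    (hn : g.totalDegree + f.totalDegree ≤ n) :
    mo n ≤ Module.finrank F (Gd g n ⊔ Gd f n : Submodule F (MvPolynomial (Fin 2) F)) +
      g.totalDegree * f.totalDegree := by
  have hg0 : g ≠ 0 := hg.ne_zero
  have hf0 : f ≠ 0 := by
    rintro rfl
    exact hf (dvd_zero g)
  have hfin : FiniteDimensional F (restrictTotalDegree (Fin 2) F n) := by
    refine Module.finite_of_finrank_pos ?_
    rw [finrank_restrict]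
    unfold mo
    have h1 : 2 ≤ (n + 1) * (n + 2) := by nlinarith
    omega
  have h1 : FiniteDimensional F (Gd g n) := Submodule.finiteDimensional_of_le inf_le_left
  have h2 : FiniteDimensional F (Gd f n) := Submodule.finiteDimensional_of_le inf_le_left
  have h3 : Gd g n ⊓ Gd f n = Gd (g * f) n := by
    ext u
    rw [Submodule.mem_inf, mem_Gd, mem_Gd, mem_Gd]
    constructor
    · rintro ⟨⟨hu, hgu⟩, -, b, rfl⟩
      refine ⟨hu, ?_⟩
      obtain ⟨c, rfl⟩ := (hg.prime.dvd_or_dvd hgu).resolve_left hf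
      exact ⟨c, by ring⟩
    · rintro ⟨hu, hd⟩
      exact ⟨⟨hu, (dvd_mul_right g f).trans hd⟩, hu, (dvd_mul_left f g).trans hd⟩
  have h4 := Submodule.finrank_sup_add_finrank_inf_eq (Gd g n) (Gd f n)
  have h5 : (g * f).totalDegree = g.totalDegree + f.totalDegree := totalDegree_mul_of_isDomain hg0 hf0
  rw [h3, finrank_Gd g hg0 n (by omega), finrank_Gd f hf0 n (by omega),
    finrank_Gd (g * f) (mul_ne_zero hg0 hf0) n (by omega), h5, ← Nat.sub_sub] at h4
  have h6 := mo_second g.totalDegree f.totalDegree n hn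
  omega

end LW
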