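import Pool.Agent.Lib.LW.Cu0

/-! LEAF CuF.  The Nullstellensatz for an irreducible polynomial. -/

namespace LW

open MvPolynomial Finset

variable {F : Type} [Field F]

/-- PROOF. `MvPolynomial.vanishingIdeal_zeroLocus_eq_radical` (Nullstellensatz) for the ideal `span {g}`, which is prime, so radical
(Ideal.IsPrime.radical, Irreducible.prime). -/
theorem null [IsAlgClosed F] (g f : MvPolynomial (Fin 2) F) (hg : Irreducible g)
    (h : ∀ x : Fin 2 → F, eval x g = 0 → eval x f = 0) : g ∣ f := by
  have hp : (Ideal.span {g}).IsPrime := (Ideal.span_singleton_prime hg.ne_zero).2 hg.prime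
  have h1 : vanishingIdeal F (zeroLocus F (Ideal.span {g})) = Ideal.span {g} := by
    rw [vanishingIdeal_zeroLocus_eq_radical, hp.radical]
  rw [← Ideal.mem_span_singleton, ← h1, mem_vanishingIdeal_iff]
  intro x hx
  have h2 : aeval x g = 0 := hx g (Ideal.mem_span_singleton_self g)
  rw [aeval_eq_eval] at h2 ⊢
  exact h x h2

end LW
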