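import Pool.Agent.Lib.LW.CuE
import Pool.Agent.Lib.LW.CuB
import Pool.Agent.Lib.LW.CuF

/-! LEAF CuG.  Independence of `p`-th powers over polynomials of small degree. -/

namespace LW

open MvPolynomial Finset

variable {F : Type} [Field F]

private theorem CuG_fac (p : ℕ) [Fact p.Prime] [CharP F p] {k : ℕ} (hk : k < p) : ((k.factorial : ℕ) : F) ≠ 0 := by
  intro h
  rw [CharP.cast_eq_zero_iff F p, (Fact.out : p.Prime).dvd_factorial] at h
  omega

private theorem CuG_good (p : ℕ) [Fact p.Prime] [CharP F p] (g : MvPolynomial (Fin 2) F)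
    (hg : Irreducible g) (m : ℕ) (hm : g.totalDegree * m < p) {r : ℕ}
    (a b : Fin r → MvPolynomial (Fin 2) F) (ha : ∀ j, (a j).totalDegree ≤ m)
    (h : g ∣ ∑ j, a j * b j ^ p) (x : Fin 2 → F) (hx : eval x g = 0)
    (hx' : eval x (pderiv 0 g) ≠ 0 ∨ eval x (pderiv 1 g) ≠ 0) :
    g ∣ ∑ j, C (eval x (b j) ^ p) * a j := by
  classical
  by_contra hn
  have hdeg : (∑ j, C (eval x (b j) ^ p) * a j).totalDegree ≤ m := by
    refine totalDegree_finsetSum_le fun j _ => ?_
    refine (totalDegree_mul _ _).trans ?_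
    rw [totalDegree_C, zero_add]
    exact ha j
  have hV : Vn g x (g.totalDegree * m + 1) (∑ j, C (eval x (b j) ^ p) * a j) := by
    intro k _
    obtain ⟨q, hq⟩ := h
    have h1 : (dl g ^ k) (∑ j, a j * b j ^ p) = ∑ j, (dl g ^ k) (a j) * b j ^ p := by
      rw [map_sum]
      exact Finset.sum_congr rfl fun j _ => dl_pow_mul_pow p g (a j) (b j) k
    have h2 : eval x ((dl g ^ k) (∑ j, a j * b j ^ p)) = 0 := by
      rw [hq, dl_pow_self_mul, map_mul, hx, zero_mul]
    have h3 : (dl g ^ k) (∑ j, C (eval x (b j) ^ p) * a j) = ∑ j, C (eval x (b j) ^ p) * (dl g ^ k) (a j) := by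
      rw [map_sum]
      refine Finset.sum_congr rfl fun j _ => ?_
      rw [← smul_eq_C_mul, ← smul_eq_C_mul, map_smul]
    rw [h3, map_sum]
    rw [h1, map_sum] at h2
    rw [← h2]
    refine Finset.sum_congr rfl fun j _ => ?_
    rw [map_mul, map_mul, eval_C, map_pow, mul_comm]
  have hz := zero_est g _ hg hn {x} (g.totalDegree * m + 1) (fun k hk => CuG_fac p (by omega))
    (fun y hy => by
      rw [Finset.mem_singleton] at hy
      subst hy
      exact ⟨hx, hV, Or.inr hx'⟩)
  rw [Finset.card_singleton, one_mul] at hz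
  have h4 := Nat.mul_le_mul_left g.totalDegree hdeg
  omega

/-- PROOF. `D = deg g`. Let `x` be a point with `g(x) = 0` and `g_x(x) ≠ 0` or `g_y(x) ≠ 0`, and `ax = ∑ j, C (b j (x) ^ p) * a j`. Applying `dl g ^ k` to the
multiple `∑ a j b j ^ p` of `g` and evaluating at `x` gives `∑ (dl g ^ k)(a j)(x) b j (x) ^ p = 0` for all `k` (dl_pow_mul_pow, dl_pow_self_mul, `g(x) = 0`), so `ax` vanishes
to order `D m + 1 ≤ p` at `x`; if `g ∤ ax`, zero_est with `S = {x}`, `M = D m + 1` gives `D m + 1 ≤ D deg ax ≤ D m`, false. So `g ∣ ax` for all these `x`.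
Suppose `¬ g ∣ a j0`. There is a linear functional `φ` on the polynomials with `φ = 0` on the multiples of `g` and `φ (a j0) ≠ 0`
(Submodule.exists_le_ker_of_notMem or exists_dual_forall_apply_eq_zero..). So `∑ j, b j (x) ^ p φ (a j) = 0`. Choose `α j` with `α j ^ p = φ (a j)` (algebraically closed); then
`(∑ α j b j (x)) ^ p = 0` (frobenius / sum_pow_char), so `β = ∑ C (α j) b j` vanishes at all these `x`. For both `i`, `β * pderiv i g` vanishes at all zeros of `g`
(at the others `pderiv i g` does), so `g ∣ β * pderiv i g` (null), and for the `i` of exists_pderiv `g ∣ β` (prime). So all `α j = 0` (hypothesis), `φ (a j0) = 0`: contradiction. -/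
theorem indep_pow [IsAlgClosed F] (p : ℕ) [Fact p.Prime] [CharP F p] (g : MvPolynomial (Fin 2) F)
    (hg : Irreducible g) (m : ℕ) (hm : g.totalDegree * m < p) (hgp : g.totalDegree < p) {r : ℕ}
    (a b : Fin r → MvPolynomial (Fin 2) F) (ha : ∀ j, (a j).totalDegree ≤ m)
    (hb : ∀ c : Fin r → F, g ∣ ∑ j, C (c j) * b j → c = 0) (h : g ∣ ∑ j, a j * b j ^ p) :
    ∀ j, g ∣ a j := by
  classical
  by_contra hc
  rw [not_forall] at hc
  obtain ⟨j0, hj0⟩ := hc
  have hmem : a j0 ∉ (Ideal.span {g}).restrictScalars F := by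
    rw [Submodule.restrictScalars_mem, Ideal.mem_span_singleton]
    exact hj0
  obtain ⟨φ, hφ, hker⟩ := Submodule.exists_le_ker_of_notMem hmem
  have hp0 : 0 < p := (Fact.out : p.Prime).pos
  choose α hα using fun j => IsAlgClosed.exists_pow_nat_eq (φ (a j)) hp0
  have hβ : ∀ x : Fin 2 → F, eval x g = 0 → (eval x (pderiv 0 g) ≠ 0 ∨ eval x (pderiv 1 g) ≠ 0) →
      eval x (∑ j, C (α j) * b j) = 0 := by
    intro x hx hx'
    have h1 := CuG_good p g hg m hm a b ha h x hx hx'
    have h2 : (∑ j, C (eval x (b j) ^ p) * a j) ∈ (Ideal.span {g}).restrictScalars F := by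
      rw [Submodule.restrictScalars_mem, Ideal.mem_span_singleton]
      exact h1
    have h3 : φ (∑ j, C (eval x (b j) ^ p) * a j) = 0 := LinearMap.mem_ker.1 (hker h2)
    rw [map_sum] at h3
    have h4 : (∑ j, α j * eval x (b j)) ^ p = 0 := by
      rw [sum_pow_char, ← h3]
      refine Finset.sum_congr rfl fun j _ => ?_
      rw [← smul_eq_C_mul, map_smul, smul_eq_mul, mul_pow, hα, mul_comm]
    rw [map_sum]
    have h5 := pow_eq_zero_iff hp0.ne' |>.1 h4
    rw [← h5]
    refine Finset.sum_congr rfl fun j _ => ?_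
    rw [map_mul, eval_C]
  obtain ⟨i, hi⟩ := exists_pderiv p g hg hgp
  have h6 : g ∣ (∑ j, C (α j) * b j) * pderiv i g := by
    refine null g _ hg fun x hx => ?_
    rw [map_mul]
    by_cases h7 : eval x (pderiv i g) = 0
    · rw [h7, mul_zero]
    · rw [hβ x hx, zero_mul]
      fin_cases i
      · exact Or.inl h7
      · exact Or.inr h7
  have h8 : g ∣ ∑ j, C (α j) * b j := (hg.prime.dvd_or_dvd h6).resolve_right hi
  have h9 := hb α h8
  apply hφ
  rw [← hα j0, h9]
  exact zero_pow hp0.ne'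

end LW
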