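import Pool.Agent.Lib.LW.CuC

/-! LEAF CuH.  A basis of monomials modulo `g`. -/

namespace LW

open MvPolynomial Finset

variable {F : Type} [Field F]

/-- PROOF. `V = restrictTotalDegree n`, `Q = V / (multiples of g in V)` of dimension `mo n - mo (n - D) = rr D n` (finrank_restrict, finrank_Gd; `Gd g n` as a subspace of
`V`: Submodule.comap subtype, finrank_comap / submoduleOf). The classes of the monomials of degree `≤ n` span `Q`, so some of them form a basis
(Module.Basis.ofSpan / exists_linearIndependent..), indexed by `Fin (rr D n)`. Independence in `Q` is the last clause. -/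
theorem exists_basis (g : MvPolynomial (Fin 2) F) (hg : g ≠ 0) (n : ℕ) (hn : g.totalDegree ≤ n) :
    ∃ b : Fin (rr g.totalDegree n) → MvPolynomial (Fin 2) F, (∀ j, (b j).totalDegree ≤ n) ∧
      (∀ j, ∃ s, b j = monomial s 1) ∧ ∀ c : Fin (rr g.totalDegree n) → F, g ∣ ∑ j, C (c j) * b j → c = 0 := by
  classical
  set I : Submodule F (MvPolynomial (Fin 2) F) := (Ideal.span {g}).restrictScalars F with hI
  set V : Submodule F (MvPolynomial (Fin 2) F) := restrictTotalDegree (Fin 2) F n with hV
  have hmo : 0 < mo n := by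
    unfold mo
    exact Nat.div_pos (by nlinarith) (by norm_num)
  have hfin : Module.Finite F V := Module.finite_of_finrank_pos (by rw [hV, finrank_restrict]; exact hmo)
  have hk : Module.finrank F (LinearMap.ker (I.mkQ.domRestrict V)) = mo (n - g.totalDegree) := by
    have h1 : LinearMap.ker (I.mkQ.domRestrict V) = I.comap V.subtype := by
      ext x
      rw [LinearMap.mem_ker, LinearMap.domRestrict_apply, Submodule.mkQ_apply, Submodule.Quotient.mk_eq_zero,
        Submodule.mem_comap, Submodule.subtype_apply]
    rw [h1, (Submodule.equivSubtypeMap V (I.comap V.subtype)).finrank_eq, Submodule.map_comap_subtype]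
    exact finrank_Gd g hg n hn
  have hr : Module.finrank F (LinearMap.range (I.mkQ.domRestrict V)) = rr g.totalDegree n := by
    have h1 := LinearMap.finrank_range_add_finrank_ker (I.mkQ.domRestrict V)
    have h2 : Module.finrank F V = mo n := finrank_restrict n
    rw [hk, h2] at h1
    unfold rr
    omega
  have hW : LinearMap.range (I.mkQ.domRestrict V) =
      Submodule.span F ((fun s => I.mkQ (monomial s 1)) '' {s : Fin 2 →₀ ℕ | (s.sum fun _ e => e) ≤ n}) := by
    rw [LinearMap.range_domRestrict, hV, restrictTotalDegree, restrictSupport_eq_span, Submodule.map_span,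
      Set.image_image]
  obtain ⟨b, hb, hbs, hli⟩ := exists_linearIndependent F
    ((fun s => I.mkQ (monomial s 1)) '' {s : Fin 2 →₀ ℕ | (s.sum fun _ e => e) ≤ n})
  have hcard : Cardinal.mk b = (rr g.totalDegree n : Cardinal) := by
    rw [← rank_span_set hli, hbs, ← hW, ← hr]
    exact (Module.finrank_eq_rank F _).symm
  obtain ⟨e⟩ := Cardinal.eq.1 ((Cardinal.mk_fin (rr g.totalDegree n)).trans hcard.symm)
  have hs : ∀ j : Fin (rr g.totalDegree n), ∃ s : Fin 2 →₀ ℕ, (s.sum fun _ e => e) ≤ n ∧
      I.mkQ (monomial s 1) = (e j : MvPolynomial (Fin 2) F ⧸ I) := by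
    intro j
    obtain ⟨s, hs1, hs2⟩ := hb (e j).2
    exact ⟨s, hs1, hs2⟩
  choose s hs1 hs2 using hs
  refine ⟨fun j => monomial (s j) 1, fun j => ?_, fun j => ⟨s j, rfl⟩, fun c hc => ?_⟩
  · rw [totalDegree_monomial (s j) one_ne_zero]
    exact hs1 j
  · have h1 : LinearIndependent F (fun j => (e j : MvPolynomial (Fin 2) F ⧸ I)) := hli.comp e e.injective
    have h2 : ∑ j, c j • (e j : MvPolynomial (Fin 2) F ⧸ I) = 0 := by
      have h3 : I.mkQ (∑ j, C (c j) * monomial (s j) (1 : F)) = 0 := by
        rw [Submodule.mkQ_apply, Submodule.Quotient.mk_eq_zero, hI, Submodule.restrictScalars_mem,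
          Ideal.mem_span_singleton]
        exact hc
      rw [map_sum] at h3
      rw [← h3]
      refine Finset.sum_congr rfl fun j _ => ?_
      rw [← hs2 j, ← smul_eq_C_mul, map_smul]
    funext j
    exact Fintype.linearIndependent_iff.1 h1 c h2 j

end LW
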