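import Pool.Agent.Lib.LW.CuB
import Pool.Agent.Lib.LW.CuC

/-! LEAF CuI.  The linear system. -/

namespace LW

open MvPolynomial Finset

variable {F : Type} [Field F]

private theorem CuI_mo_pos (n : ℕ) : 0 < mo n := by
  unfold mo
  have : 2 ≤ (n + 1) * (n + 2) := by nlinarith
  omega

private instance CuI_fin (n : ℕ) : Module.Finite F (restrictTotalDegree (Fin 2) F n) :=
  Module.finite_of_finrank_pos (by rw [finrank_restrict]; exact CuI_mo_pos n)

private theorem CuI_le (g : MvPolynomial (Fin 2) F) (n : ℕ) : Gd g n ≤ restrictTotalDegree (Fin 2) F n :=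
  inf_le_left

private instance CuI_finG (g : MvPolynomial (Fin 2) F) (n : ℕ) : Module.Finite F (Gd g n) :=
  Submodule.finiteDimensional_of_le (CuI_le g n)

private theorem CuI_quot (g : MvPolynomial (Fin 2) F) (hg : g ≠ 0) (n : ℕ) (hn : g.totalDegree ≤ n) :
    Module.finrank F ((restrictTotalDegree (Fin 2) F n) ⧸
      (Gd g n).submoduleOf (restrictTotalDegree (Fin 2) F n)) = rr g.totalDegree n := by
  have h1 := Submodule.finrank_quotient_add_finrank
    ((Gd g n).submoduleOf (restrictTotalDegree (Fin 2) F n))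
  have h2 : Module.finrank F ((Gd g n).submoduleOf (restrictTotalDegree (Fin 2) F n)) =
      Module.finrank F (Gd g n) := (Submodule.submoduleOfEquivOfLe (CuI_le g n)).finrank_eq
  rw [h2, finrank_Gd g hg n hn, finrank_restrict] at h1
  unfold rr
  omega

/-- the map to the polynomials of degree `N` -/
private noncomputable def CuI_map (g : MvPolynomial (Fin 2) F) (m n k N : ℕ)
    (hN : m + n + k * (g.totalDegree - 1) ≤ N) {r : ℕ}
    (b : Fin r → MvPolynomial (Fin 2) F) (hb : ∀ j, (b j).totalDegree ≤ n) :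
    (Fin r → restrictTotalDegree (Fin 2) F m) →ₗ[F] restrictTotalDegree (Fin 2) F N :=
  LinearMap.codRestrict (restrictTotalDegree (Fin 2) F N)
    (∑ j, (LinearMap.mulLeft F (b j)) ∘ₗ (dl g ^ k) ∘ₗ (restrictTotalDegree (Fin 2) F m).subtype ∘ₗ
      LinearMap.proj j) (by
    intro a
    rw [mem_restrictTotalDegree]
    rw [LinearMap.sum_apply]
    refine totalDegree_finsetSum_le fun j _ => ?_
    have h1 : ((a j : MvPolynomial (Fin 2) F)).totalDegree ≤ m := by
      have := (a j).2
      rwa [mem_restrictTotalDegree] at this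
    have h2 := dl_pow_deg g (a j : MvPolynomial (Fin 2) F) le_rfl h1 k
    have h3 := totalDegree_mul (b j) ((dl g ^ k) (a j : MvPolynomial (Fin 2) F))
    have h4 := hb j
    change (b j * (dl g ^ k) (a j : MvPolynomial (Fin 2) F)).totalDegree ≤ N
    omega)

private theorem CuI_map_apply (g : MvPolynomial (Fin 2) F) (m n k N : ℕ)
    (hN : m + n + k * (g.totalDegree - 1) ≤ N) {r : ℕ}
    (b : Fin r → MvPolynomial (Fin 2) F) (hb : ∀ j, (b j).totalDegree ≤ n)
    (a : Fin r → restrictTotalDegree (Fin 2) F m) :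
    ((CuI_map g m n k N hN b hb a : restrictTotalDegree (Fin 2) F N) : MvPolynomial (Fin 2) F) =
      ∑ j, b j * (dl g ^ k) (a j : MvPolynomial (Fin 2) F) := by
  unfold CuI_map
  rw [LinearMap.codRestrict_apply, LinearMap.sum_apply]
  rfl

private theorem CuI_gen {V : Type} [AddCommGroup V] [Module F V] [Module.Finite F V] {M : ℕ}
    (Q : Fin M → Type) [∀ k, AddCommGroup (Q k)] [∀ k, Module F (Q k)] [∀ k, Module.Finite F (Q k)]
    (θ : ∀ k, V →ₗ[F] Q k) :
    Module.finrank F V ≤ ∑ k, Module.finrank F (Q k) +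
      Module.finrank F (⨅ k, LinearMap.ker (θ k) : Submodule F V) := by
  have h3 := LinearMap.finrank_range_add_finrank_ker (LinearMap.pi θ)
  have h4 : Module.finrank F (LinearMap.range (LinearMap.pi θ)) ≤ Module.finrank F (∀ k, Q k) :=
    Submodule.finrank_le _
  rw [Module.finrank_pi_fintype] at h4
  rw [LinearMap.ker_pi] at h3
  omega

/-- PROOF. `V = (restrictTotalDegree m)^r`, `D = deg g`, `N k = m + n + k (D - 1)`. The linear map `Θ : V → ∏_{k < M} (restrictTotalDegree (N k)) / (multiples of g)`,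
`(a j) ↦ class of ∑ j, b j (dl g ^ k)(a j)` (dl_pow_deg), has target of dimension `∑_{k<M} rr D (N k)` (finrank_restrict, finrank_Gd), so `dim ker Θ ≥ r mo m - ∑ rr D (N k)
> r mo (m - D)` by `h` (`rr D m = mo m - mo (m - D)`). The subspace of `V` of the families with all `a j` divisible by `g` has dimension `r mo (m - D)` (finrank_Gd), so it does not contain `ker Θ`. -/
theorem system (g : MvPolynomial (Fin 2) F) (hg : g ≠ 0) (m n M : ℕ) (hm : g.totalDegree ≤ m) {r : ℕ}
    (b : Fin r → MvPolynomial (Fin 2) F) (hb : ∀ j, (b j).totalDegree ≤ n)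
    (h : ∑ k ∈ range M, rr g.totalDegree (m + n + k * (g.totalDegree - 1)) < r * rr g.totalDegree m) :
    ∃ a : Fin r → MvPolynomial (Fin 2) F, (∀ j, (a j).totalDegree ≤ m) ∧ (∃ j, ¬ g ∣ a j) ∧
      ∀ k < M, g ∣ ∑ j, b j * (dl g ^ k) (a j) := by
  classical
  set N : ℕ → ℕ := fun k => m + n + k * (g.totalDegree - 1) with hN
  let θ : ∀ k : Fin M, (Fin r → restrictTotalDegree (Fin 2) F m) →ₗ[F]
      ((restrictTotalDegree (Fin 2) F (N k)) ⧸
        (Gd g (N k)).submoduleOf (restrictTotalDegree (Fin 2) F (N k))) := fun k =>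
    ((Gd g (N k)).submoduleOf (restrictTotalDegree (Fin 2) F (N k))).mkQ ∘ₗ
      CuI_map g m n k (N k) le_rfl b hb
  let Ψ : (Fin r → Gd g m) →ₗ[F] (Fin r → restrictTotalDegree (Fin 2) F m) :=
    LinearMap.pi fun j => (Submodule.inclusion (CuI_le g m)) ∘ₗ LinearMap.proj j
  have hV : Module.finrank F (Fin r → restrictTotalDegree (Fin 2) F m) = r * mo m := by
    rw [Module.finrank_pi_fintype]
    simp only [finrank_restrict, sum_const, card_univ, Fintype.card_fin, smul_eq_mul]
  have hG : Module.finrank F (Fin r → Gd g m) = r * mo (m - g.totalDegree) := by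
    rw [Module.finrank_pi_fintype]
    simp only [finrank_Gd g hg m hm, sum_const, card_univ, Fintype.card_fin, smul_eq_mul]
  have hker : ¬ ((⨅ k, LinearMap.ker (θ k) : Submodule F (Fin r → restrictTotalDegree (Fin 2) F m)) ≤
      LinearMap.range Ψ) := by
    intro hle
    have h1 := Submodule.finrank_mono hle
    have h2 := LinearMap.finrank_range_le Ψ
    have h3 := CuI_gen (fun k : Fin M => (restrictTotalDegree (Fin 2) F (N k)) ⧸
        (Gd g (N k)).submoduleOf (restrictTotalDegree (Fin 2) F (N k))) θ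
    have h4 : ∑ k : Fin M, Module.finrank F ((restrictTotalDegree (Fin 2) F (N k)) ⧸
        (Gd g (N k)).submoduleOf (restrictTotalDegree (Fin 2) F (N k))) =
        ∑ k ∈ range M, rr g.totalDegree (N k) := by
      rw [← Fin.sum_univ_eq_sum_range]
      refine Finset.sum_congr rfl fun k _ => ?_
      exact CuI_quot g hg (N k) (by simp only [hN]; omega)
    rw [h4, hV] at h3
    rw [hG] at h2
    have h5 : r * mo m = r * rr g.totalDegree m + r * mo (m - g.totalDegree) := by
      rw [← Nat.mul_add]
      congr 1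
      unfold rr
      have : mo (m - g.totalDegree) ≤ mo m := by
        have h6 := Submodule.finrank_mono (CuI_le g m)
        rwa [finrank_Gd g hg m hm, finrank_restrict] at h6
      omega
    change ∑ k ∈ range M, rr g.totalDegree (N k) < r * rr g.totalDegree m at h
    omega
  rw [SetLike.not_le_iff_exists] at hker
  obtain ⟨a, ha, hna⟩ := hker
  refine ⟨fun j => (a j : MvPolynomial (Fin 2) F), fun j => ?_, ?_, fun k hk => ?_⟩
  · have := (a j).2
    rwa [mem_restrictTotalDegree] at this
  · by_contra hcon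
    push Not at hcon
    apply hna
    refine ⟨fun j => ⟨(a j : MvPolynomial (Fin 2) F), (mem_Gd _ _ _).2 ⟨?_, hcon j⟩⟩, ?_⟩
    · have := (a j).2
      rwa [mem_restrictTotalDegree] at this
    · funext j
      apply Subtype.ext
      rfl
  · rw [Submodule.mem_iInf] at ha
    have h1 := ha ⟨k, hk⟩
    rw [LinearMap.mem_ker] at h1
    have h2 : ((Gd g (N k)).submoduleOf (restrictTotalDegree (Fin 2) F (N k))).mkQ
      (CuI_map g m n k (N k) le_rfl b hb a) = 0 := h1
    rw [Submodule.mkQ_apply, Submodule.Quotient.mk_eq_zero] at h2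
    have h3 : ((CuI_map g m n k (N k) le_rfl b hb a : restrictTotalDegree (Fin 2) F (N k)) :
      MvPolynomial (Fin 2) F) ∈ Gd g (N k) := h2
    rw [CuI_map_apply, mem_Gd] at h3
    exact h3.2

end LW
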