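import Pool.Agent.Lib.LW.CuG
import Pool.Agent.Lib.LW.CuH
import Pool.Agent.Lib.LW.CuI

/-! LEAF CuJ.  The count of the rational points. -/

namespace LW

open MvPolynomial Finset

variable {F : Type} [Field F]

/-- PROOF. `b` from exists_basis, `a` from system (`r = rr D n`). `Φ = ∑ a j b j ^ p` has degree `≤ m + p n` and is not divisible by `g` (indep_pow). For `x ∈ S` and `k < M`:
`(dl g ^ k) Φ = ∑ (dl g ^ k)(a j) b j ^ p` (dl_pow_mul_pow); at `x` we have `b j (x) ^ p = b j (x)` (a monomial with coefficient one, `x i ^ p = x i`), so the value is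
that of `∑ b j (dl g ^ k)(a j)` at `x`, a multiple of `g`: zero. So `Vn g x M Φ`; zero_est (`k! ≠ 0` in `F` for `k < M ≤ p`) gives the claim. -/
theorem count_smooth [IsAlgClosed F] (p : ℕ) [Fact p.Prime] [CharP F p] (g : MvPolynomial (Fin 2) F)
    (hg : Irreducible g) (m n M : ℕ) (hmp : g.totalDegree * m < p) (hMp : M ≤ p) (hgp : g.totalDegree < p)
    (hm : g.totalDegree ≤ m) (hn : g.totalDegree ≤ n)
    (h : ∑ k ∈ range M, rr g.totalDegree (m + n + k * (g.totalDegree - 1)) <
      rr g.totalDegree n * rr g.totalDegree m)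
    (S : Finset (Fin 2 → F)) (hS : ∀ x ∈ S, (∀ i, x i ^ p = x i) ∧ eval x g = 0 ∧
      (eval x (pderiv 0 g) ≠ 0 ∨ eval x (pderiv 1 g) ≠ 0)) :
    S.card * M ≤ g.totalDegree * (m + p * n) := by
  have hp : p.Prime := Fact.out
  obtain ⟨b, hbdeg, hbmon, hbind⟩ := exists_basis g hg.ne_zero n hn
  obtain ⟨a, hadeg, ⟨j0, hj0⟩, hdiv⟩ := system g hg.ne_zero m n M hm b hbdeg h
  have hndvd : ¬ g ∣ ∑ j, a j * b j ^ p := fun hd =>
    hj0 (indep_pow p g hg m hmp hgp a b hadeg hbind hd j0)
  have hdeg : (∑ j, a j * b j ^ p).totalDegree ≤ m + p * n := by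
    refine totalDegree_finsetSum_le ?_
    intro j _
    refine (totalDegree_mul _ _).trans ?_
    refine Nat.add_le_add (hadeg j) ?_
    refine (totalDegree_pow _ _).trans ?_
    exact Nat.mul_le_mul_left _ (hbdeg j)
  have hfac : ∀ k < M, ((k.factorial : ℕ) : F) ≠ 0 := by
    intro k hk h0
    rw [CharP.cast_eq_zero_iff F p] at h0
    have := (hp.dvd_factorial).1 h0
    omega
  have hmain := zero_est g (∑ j, a j * b j ^ p) hg hndvd S M hfac (by
    intro x hx
    obtain ⟨hxp, hgx, hsm⟩ := hS x hx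
    refine ⟨hgx, ?_, Or.inr hsm⟩
    intro k hk
    have hbx : ∀ j, eval x (b j) ^ p = eval x (b j) := by
      intro j
      obtain ⟨s, hs⟩ := hbmon j
      rw [hs, eval_monomial, one_mul, Finsupp.prod, ← Finset.prod_pow]
      refine Finset.prod_congr rfl ?_
      intro i _
      rw [← pow_mul, mul_comm (s i) p, pow_mul, hxp i]
    have hz : eval x (∑ j, b j * (dl g ^ k) (a j)) = 0 := by
      obtain ⟨q, hq⟩ := hdiv k hk
      rw [hq, map_mul, hgx, zero_mul]
    rw [map_sum, map_sum]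
    rw [map_sum] at hz
    rw [← hz]
    refine Finset.sum_congr rfl ?_
    intro j _
    rw [dl_pow_mul_pow, map_mul, map_mul, map_pow, hbx j, mul_comm])
  exact hmain.trans (Nat.mul_le_mul_left _ hdeg)

/-- PROOF. The `i` of exists_pderiv: zero_est with `f = pderiv i g`, `M = 1` (`dl g ^ 0 = id`), degree `≤ D - 1`. -/
theorem count_sing (p : ℕ) [CharP F p] (g : MvPolynomial (Fin 2) F)
    (hg : Irreducible g) (hgp : g.totalDegree < p)
    (S : Finset (Fin 2 → F)) (hS : ∀ x ∈ S, eval x g = 0 ∧ ∀ i, eval x (pderiv i g) = 0) :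
    S.card ≤ g.totalDegree ^ 2 := by
  obtain ⟨i, hi⟩ := exists_pderiv p g hg hgp
  have hmain := zero_est g (pderiv i g) hg hi S 1 (by
    intro k hk h0
    have hk0 : k = 0 := by omega
    rw [hk0, Nat.factorial_zero, Nat.cast_one] at h0
    exact one_ne_zero h0) (by
    intro x hx
    obtain ⟨hgx, hd⟩ := hS x hx
    refine ⟨hgx, ?_, Or.inl le_rfl⟩
    intro k hk
    have hk0 : k = 0 := by omega
    rw [hk0, pow_zero]
    exact hd i)
  rw [mul_one] at hmain
  refine hmain.trans ?_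
  rw [sq]
  refine Nat.mul_le_mul_left _ ?_
  exact (totalDegree_pderiv i g).trans (Nat.sub_le _ _)

end LW
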