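import Pool.Agent.Lib.LW.CuC

/-! LEAF CuK1.  The inequality for the parameters. -/

namespace LW

open Finset

/-- PROOF. `rr D (N k) ≤ D (N k + 1)` with `N k = m + n + k (D - 1) ≤ m + n + M (D - 1)` (rr_le; `D ≤ m + n`), so the left side is `≤ M D (m + n + M (D - 1) + 1)`; by rr_ge the right side is
`≥ (D n - D²)(D m - D²)`. Put `u = D n`, `w = D m`, `M = u - E`, `E = 8 D⁴`, `p - D ≤ w < p` (`m = (p - 1) / D`), `u ≤ D √p`, `u² ≤ D² p`. Left `≤ (u - E)(w + (D² - D + 1) u + D) ≤ u w - E w + (D² - D + 1) u² + D u`,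
right `≥ u w - D² u - D² w`. It suffices that `E w > D² w + D² u + (D² - D + 1) u² + D u`: the right side is `≤ D² w + p (1 + D⁴ - D³ + D² + 1)` because `D² u ≤ D³ √p ≤ p`, `D u ≤ p`, and
`(8 D⁴ - D²) w ≥ 7 D⁴ (p - D) > 4 D⁴ p` as `p ≥ 300 D⁶`. All numbers natural; use real numbers or careful `nlinarith`. -/
theorem params (D p : ℕ) (hD : 1 ≤ D) (hp : 300 * D ^ 6 ≤ p) :
    ∑ k ∈ range (D * Nat.sqrt p - 8 * D ^ 4),
        rr D ((p - 1) / D + Nat.sqrt p + k * (D - 1)) < rr D (Nat.sqrt p) * rr D ((p - 1) / D) := by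
  set n := Nat.sqrt p with hn
  set m := (p - 1) / D with hm
  set M := D * n - 8 * D ^ 4 with hM
  have hD1 : 1 ≤ D ^ 3 := Nat.one_le_pow _ _ hD
  have hn2 : n * n ≤ p := Nat.sqrt_le p
  have hn17 : 17 * D ^ 3 ≤ n := by
    by_contra hcon
    have h1 : n + 1 ≤ 17 * D ^ 3 := by omega
    have h2 : p < (n + 1) * (n + 1) := Nat.lt_succ_sqrt p
    have h3 : (n + 1) * (n + 1) ≤ 17 * D ^ 3 * (17 * D ^ 3) := Nat.mul_le_mul h1 h1
    have h4 : 17 * D ^ 3 * (17 * D ^ 3) ≤ 300 * D ^ 6 := by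
      have h5 : 17 * D ^ 3 * (17 * D ^ 3) = 289 * D ^ 6 := by ring
      rw [h5]
      exact Nat.mul_le_mul_right _ (by norm_num)
    omega
  have hDD3 : D ≤ D ^ 3 := Nat.le_self_pow (by norm_num) D
  have hDn : D ≤ n := by omega
  have hE : 8 * D ^ 4 ≤ D * n := by
    calc 8 * D ^ 4 = D * (8 * D ^ 3) := by ring
      _ ≤ D * n := Nat.mul_le_mul_left _ (by omega)
  have hD2 : D * D ≤ D ^ 6 := by
    calc D * D = D ^ 2 := by ring
      _ ≤ D ^ 6 := Nat.pow_le_pow_right hD (by norm_num)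
  have hD6 : 1 ≤ D ^ 6 := Nat.one_le_pow _ _ hD
  have hp1 : 1 ≤ p := by omega
  have hDm : D ≤ m := by
    rw [hm, Nat.le_div_iff_mul_le hD]
    omega
  -- the number `w`
  have hw : p ≤ D * m + D := by
    have h1 := Nat.div_add_mod (p - 1) D
    have h2 := Nat.mod_lt (p - 1) hD
    rw [← hm] at h1
    omega
  have hw' : D * m ≤ p := by
    have h1 := Nat.mul_div_le (p - 1) D
    rw [← hm] at h1
    omega
  -- the left side
  have hL : ∑ k ∈ range M, rr D (m + n + k * (D - 1)) ≤ M * (D * (m + n + M * (D - 1) + 1)) := by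
    refine (sum_le_card_nsmul _ _ (D * (m + n + M * (D - 1) + 1)) fun k hk => ?_).trans ?_
    · have hk' : k ≤ M := (mem_range.1 hk).le
      have h1 : k * (D - 1) ≤ M * (D - 1) := Nat.mul_le_mul_right _ hk'
      refine (rr_le D (m + n + k * (D - 1)) hD (by omega)).trans (Nat.mul_le_mul_left _ ?_)
      omega
    · rw [card_range, smul_eq_mul]
  have hR1 := rr_ge D n hD hDn
  have hR2 := rr_ge D m hD hDm
  -- real numbers
  have hDr : (1 : ℝ) ≤ D := by exact_mod_cast hD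
  have hMr : (M : ℝ) = D * n - 8 * D ^ 4 := by
    rw [hM, Nat.cast_sub hE]
    push_cast
    ring
  have hD1r : ((D - 1 : ℕ) : ℝ) = D - 1 := by
    rw [Nat.cast_sub hD, Nat.cast_one]
  have hn2r : (n : ℝ) * n ≤ p := by exact_mod_cast hn2
  have hpr : 300 * (D : ℝ) ^ 6 ≤ p := by exact_mod_cast hp
  have hwr : (p : ℝ) ≤ D * m + D := by exact_mod_cast hw
  have hER : 8 * (D : ℝ) ^ 4 ≤ D * n := by exact_mod_cast hE
  have hR1r : (D : ℝ) * n - D ^ 2 ≤ (rr D n : ℝ) := by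
    have : (D : ℝ) * n ≤ (rr D n : ℝ) + D ^ 2 := by exact_mod_cast hR1
    linarith
  have hR2r : (D : ℝ) * m - D ^ 2 ≤ (rr D m : ℝ) := by
    have : (D : ℝ) * m ≤ (rr D m : ℝ) + D ^ 2 := by exact_mod_cast hR2
    linarith
  have hLr : ((∑ k ∈ range M, rr D (m + n + k * (D - 1)) : ℕ) : ℝ) ≤
      M * (D * (m + n + M * (D - 1) + 1)) := by
    have h1 : ((∑ k ∈ range M, rr D (m + n + k * (D - 1)) : ℕ) : ℝ) ≤
        ((M * (D * (m + n + M * (D - 1) + 1)) : ℕ) : ℝ) := by exact_mod_cast hL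
    refine h1.trans (le_of_eq ?_)
    push_cast
    rw [hD1r]
  have hnr : (0 : ℝ) ≤ n := Nat.cast_nonneg n
  have hmr : (0 : ℝ) ≤ m := Nat.cast_nonneg m
  have hnD : (D : ℝ) ≤ n := by exact_mod_cast hDn
  have hmD : (D : ℝ) ≤ m := by exact_mod_cast hDm
  have hD0 : (0 : ℝ) < D := by linarith
  have hD4 : (1 : ℝ) ≤ (D : ℝ) ^ 4 := one_le_pow₀ hDr
  have hD6r : (D : ℝ) ≤ (D : ℝ) ^ 6 := le_self_pow₀ hDr (by norm_num)
  -- the main inequality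
  have key1 : ((D : ℝ) ^ 2 - D + 1) * (D * n) ^ 2 ≤ (D : ℝ) ^ 4 * p := by
    have h1 : (D : ℝ) ^ 2 - D + 1 ≤ (D : ℝ) ^ 2 := by linarith
    calc ((D : ℝ) ^ 2 - D + 1) * (D * n) ^ 2 ≤ (D : ℝ) ^ 2 * (D * n) ^ 2 :=
          mul_le_mul_of_nonneg_right h1 (by positivity)
      _ = (D : ℝ) ^ 4 * (n * n) := by ring
      _ ≤ (D : ℝ) ^ 4 * p := mul_le_mul_of_nonneg_left hn2r (by positivity)
  have key2 : ((D : ℝ) + D ^ 2) * (D * n) ≤ 2 * p := by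
    have h1 : ((D : ℝ) + D ^ 2) * (D * n) ≤ 2 * (D : ℝ) ^ 3 * n := by
      have h2 : (D : ℝ) + D ^ 2 ≤ 2 * (D : ℝ) ^ 2 := by nlinarith
      calc ((D : ℝ) + D ^ 2) * (D * n) ≤ 2 * (D : ℝ) ^ 2 * (D * n) :=
            mul_le_mul_of_nonneg_right h2 (by positivity)
        _ = 2 * (D : ℝ) ^ 3 * n := by ring
    have h3 : 2 * (D : ℝ) ^ 3 * n ≤ (D : ℝ) ^ 6 + n * n := by
      nlinarith [sq_nonneg ((D : ℝ) ^ 3 - n)]
    have h4 : (0 : ℝ) ≤ (D : ℝ) ^ 6 := by positivity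
    linarith
  have key3 : 3 * (D : ℝ) ^ 4 * p < (8 * (D : ℝ) ^ 4 - D ^ 2) * (D * m) := by
    have h1 : 7 * (D : ℝ) ^ 4 ≤ 8 * (D : ℝ) ^ 4 - D ^ 2 := by
      have h2 : (D : ℝ) ^ 2 ≤ (D : ℝ) ^ 4 := pow_le_pow_right₀ hDr (by norm_num)
      linarith
    have h3 : 7 * (D : ℝ) ^ 4 * (p - D) ≤ (8 * (D : ℝ) ^ 4 - D ^ 2) * (D * m) := by
      have h5 : (p : ℝ) - D ≤ D * m := by linarith
      have h6 : (0 : ℝ) ≤ (p : ℝ) - D := by
        have : (D : ℝ) ≤ 300 * (D : ℝ) ^ 6 := by linarith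
        linarith
      exact mul_le_mul h1 h5 h6 (by nlinarith)
    refine lt_of_lt_of_le ?_ h3
    have h7 : 3 * (p : ℝ) < 7 * (p - D) := by linarith
    calc 3 * (D : ℝ) ^ 4 * p = (D : ℝ) ^ 4 * (3 * p) := by ring
      _ < (D : ℝ) ^ 4 * (7 * (p - D)) := mul_lt_mul_of_pos_left h7 (by positivity)
      _ = 7 * (D : ℝ) ^ 4 * (p - D) := by ring
  have key4 : ((D : ℝ) ^ 2 - D + 1) * (D * n) ^ 2 + ((D : ℝ) + D ^ 2) * (D * n) <
      (8 * (D : ℝ) ^ 4 - D ^ 2) * (D * m) := by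
    refine lt_of_le_of_lt ?_ key3
    have h1 : (p : ℝ) ≤ (D : ℝ) ^ 4 * p := le_mul_of_one_le_left (Nat.cast_nonneg p) hD4
    linarith
  have hfin : (M : ℝ) * (D * (m + n + M * (D - 1) + 1)) <
      ((D : ℝ) * n - D ^ 2) * (D * m - D ^ 2) := by
    rw [hMr]
    have hu0 : (0 : ℝ) ≤ D * n - 8 * (D : ℝ) ^ 4 := by linarith
    have h1 : (D : ℝ) * (m + n + (D * n - 8 * (D : ℝ) ^ 4) * (D - 1) + 1) ≤
        D * m + ((D : ℝ) ^ 2 - D + 1) * (D * n) + D := by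
      have h2 : (0 : ℝ) ≤ D * (8 * (D : ℝ) ^ 4 * (D - 1)) := by
        have : (0 : ℝ) ≤ (D : ℝ) - 1 := by linarith
        positivity
      nlinarith
    have h3 : (D * n - 8 * (D : ℝ) ^ 4) * (D * (m + n + (D * n - 8 * (D : ℝ) ^ 4) * (D - 1) + 1)) ≤
        (D * n - 8 * (D : ℝ) ^ 4) * (D * m + ((D : ℝ) ^ 2 - D + 1) * (D * n) + D) :=
      mul_le_mul_of_nonneg_left h1 hu0
    refine lt_of_le_of_lt h3 ?_
    have h4 : (0 : ℝ) ≤ 8 * (D : ℝ) ^ 4 * (((D : ℝ) ^ 2 - D + 1) * (D * n) + D) := by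
      have : (0 : ℝ) ≤ (D : ℝ) ^ 2 - D + 1 := by nlinarith
      positivity
    have h5 : (D * n - 8 * (D : ℝ) ^ 4) * (D * m + ((D : ℝ) ^ 2 - D + 1) * (D * n) + D) =
        D * n * (D * m) + (((D : ℝ) ^ 2 - D + 1) * (D * n) ^ 2 + D * (D * n)) - 8 * (D : ℝ) ^ 4 * (D * m) -
          8 * (D : ℝ) ^ 4 * (((D : ℝ) ^ 2 - D + 1) * (D * n) + D) := by ring
    have h6 : ((D : ℝ) * n - D ^ 2) * (D * m - D ^ 2) =
        D * n * (D * m) - D ^ 2 * (D * n) - D ^ 2 * (D * m) + (D : ℝ) ^ 4 := by ring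
    rw [h5, h6]
    linarith
  have hfin2 : ((D : ℝ) * n - D ^ 2) * (D * m - D ^ 2) ≤ (rr D n : ℝ) * rr D m := by
    have h1 : (0 : ℝ) ≤ (D : ℝ) * n - D ^ 2 := by nlinarith
    have h2 : (0 : ℝ) ≤ (D : ℝ) * m - D ^ 2 := by nlinarith
    exact mul_le_mul hR1r hR2r h2 (h1.trans hR1r)
  have hfin3 : ((∑ k ∈ range M, rr D (m + n + k * (D - 1)) : ℕ) : ℝ) < ((rr D n * rr D m : ℕ) : ℝ) := by
    rw [Nat.cast_mul]
    exact lt_of_le_of_lt hLr (hfin.trans_le hfin2)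
  exact_mod_cast hfin3

end LW
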