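import Mathlib

/-! LEAF CuK2.  The final numerical step. -/

namespace LW

/-- PROOF. `u = D n`, `n = ⌊√p⌋`, `M = u - E`, `E = 8 D⁴`; `D m ≤ p` (`m = (p-1)/D`). `N M ≤ D m + p D n ≤ p (u + 1)`, so `N ≤ p (u + 1) / (u - E) = p + p (E + 1) / (u - E)`. As `n ≥ 17 D³` (from `p ≥ 300 D⁶`, `17² = 289`, so `n ≥ √p - 1 ≥ 17.3 D³ - 1`, hence
`n ≥ 16 D³`), `u ≥ 16 D⁴ = 2 E`, `u - E ≥ u / 2`, and `N ≤ p + 2 p (E + 1) / u ≤ p + 18 D³ p / n`, `p / n ≤ 2 √p` (`n ≥ √p / 2`): `N ≤ p + 36 D³ √p`. -/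
theorem numeric (D p N : ℕ) (hD : 1 ≤ D) (hp : 300 * D ^ 6 ≤ p)
    (h : N * (D * Nat.sqrt p - 8 * D ^ 4) ≤ D * ((p - 1) / D + p * Nat.sqrt p)) :
    (N : ℝ) ≤ p + 36 * (D : ℝ) ^ 3 * Real.sqrt p := by
  set n := Nat.sqrt p with hn
  have hD3 : 1 ≤ D ^ 3 := Nat.one_le_pow _ _ hD
  have hn1 : 16 * D ^ 3 + 1 ≤ n := by
    rw [hn, Nat.le_sqrt']
    have h1 : D ^ 6 = D ^ 3 * D ^ 3 := by ring
    rw [h1] at hp
    nlinarith
  have hp1 : 1 ≤ p := by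
    have h1 : 1 ≤ D ^ 6 := Nat.one_le_pow _ _ hD
    omega
  have hE : 8 * D ^ 4 ≤ D * n := by
    have h1 : D ^ 4 = D * D ^ 3 := by ring
    rw [h1]
    nlinarith
  have hm : D * ((p - 1) / D) ≤ p - 1 := Nat.mul_div_le _ _
  have h2 : N * (D * n - 8 * D ^ 4) ≤ p + D * (p * n) := by
    rw [Nat.mul_add] at h
    omega
  have h3 : (N : ℝ) * ((D : ℝ) * n - 8 * (D : ℝ) ^ 4) ≤ p + (D : ℝ) * (p * n) := by
    have h4 : ((N * (D * n - 8 * D ^ 4) : ℕ) : ℝ) ≤ ((p + D * (p * n) : ℕ) : ℝ) := by exact_mod_cast h2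
    rw [Nat.cast_mul, Nat.cast_sub hE] at h4
    push_cast at h4
    exact h4
  have hn1R : 16 * (D : ℝ) ^ 3 + 1 ≤ (n : ℝ) := by exact_mod_cast hn1
  have hDR : (1 : ℝ) ≤ D := by exact_mod_cast hD
  have hD3R : (1 : ℝ) ≤ (D : ℝ) ^ 3 := one_le_pow₀ hDR
  have hr2 : Real.sqrt p * Real.sqrt p = p := Real.mul_self_sqrt (Nat.cast_nonneg p)
  have hr0 : 0 ≤ Real.sqrt p := Real.sqrt_nonneg _
  have hnr : (n : ℝ) ≤ Real.sqrt p := by
    apply Real.le_sqrt_of_sq_le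
    have h5 := Nat.sqrt_le' p
    exact_mod_cast h5
  have hrn : Real.sqrt p ≤ n + 1 := by
    rw [Real.sqrt_le_left (by positivity)]
    have h5 := Nat.lt_succ_sqrt' p
    have h6 : (p : ℝ) < ((Nat.sqrt p + 1 : ℕ) : ℝ) ^ 2 := by exact_mod_cast h5
    push_cast at h6
    exact h6.le
  set r := Real.sqrt p with hr
  set d := (D : ℝ) with hd
  have h6 : (16 : ℝ) / 17 * r ≤ n := by linarith
  have h7 : (16 : ℝ) / 17 * p ≤ r * n := by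
    have h8 := mul_le_mul_of_nonneg_left h6 hr0
    nlinarith
  have hd4 : d ^ 4 = d * d ^ 3 := by ring
  have hu : 0 < d * n - 8 * d ^ 4 := by
    have h9 : d * (16 * d ^ 3 + 1) ≤ d * n := mul_le_mul_of_nonneg_left hn1R (by linarith)
    have h10 : 0 < d ^ 4 := by positivity
    nlinarith
  have hp0 : (0 : ℝ) ≤ p := Nat.cast_nonneg p
  have h11 : (p : ℝ) + d * (p * n) ≤ (p + 36 * d ^ 3 * r) * (d * n - 8 * d ^ 4) := by
    have h12 : d * n / 2 ≤ d * n - 8 * d ^ 4 := by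
      have h9 : d * (16 * d ^ 3 + 1) ≤ d * n := mul_le_mul_of_nonneg_left hn1R (by linarith)
      nlinarith
    have h13 : 36 * d ^ 3 * r * (d * n / 2) ≤ 36 * d ^ 3 * r * (d * n - 8 * d ^ 4) :=
      mul_le_mul_of_nonneg_left h12 (by positivity)
    have h14 : 36 * d ^ 3 * r * (d * n / 2) = 18 * d ^ 4 * (r * n) := by ring
    have h15 : 18 * d ^ 4 * ((16 : ℝ) / 17 * p) ≤ 18 * d ^ 4 * (r * n) :=
      mul_le_mul_of_nonneg_left h7 (by positivity)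
    have h16 : (1 : ℝ) ≤ d ^ 4 := one_le_pow₀ hDR
    have h17 : (p : ℝ) ≤ d ^ 4 * p := le_mul_of_one_le_left hp0 h16
    have h18 : (p + 36 * d ^ 3 * r) * (d * n - 8 * d ^ 4) =
        d * (p * n) - 8 * (d ^ 4 * p) + 36 * d ^ 3 * r * (d * n - 8 * d ^ 4) := by ring
    rw [h18]
    have h19 : 18 * d ^ 4 * ((16 : ℝ) / 17 * p) = 288 / 17 * (d ^ 4 * p) := by ring
    rw [h19] at h15
    rw [h14] at h13
    linarith
  exact le_of_mul_le_mul_right (h3.trans h11) hu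

end LW
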