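import Pool.Agent.Lib.LW.CuJ
import Pool.Agent.Lib.LW.CuK1
import Pool.Agent.Lib.LW.CuK2

/-! The upper bound for plane curves. -/

namespace LW

open MvPolynomial Finset

/-- Upper bound for the number of rational points of an irreducible plane curve of degree `D` over the algebraic closure
of a field with `p` elements. -/
theorem curve_points (p : ℕ) [Fact p.Prime] {F : Type} [Field F] [IsAlgClosed F] [CharP F p]
    (g : MvPolynomial (Fin 2) F) (hg : Irreducible g) (hp : 300 * g.totalDegree ^ 6 ≤ p)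
    (hD : 1 ≤ g.totalDegree) (S : Finset (Fin 2 → F)) (hS : ∀ x ∈ S, (∀ i, x i ^ p = x i) ∧ eval x g = 0) :
    (S.card : ℝ) ≤ p + 40 * (g.totalDegree : ℝ) ^ 3 * Real.sqrt p := by
  classical
  set D := g.totalDegree with hDdef
  have h6 : D ^ 2 ≤ D ^ 6 := Nat.pow_le_pow_right hD (by norm_num)
  have h1 : D ≤ D ^ 2 := by nlinarith
  have hpD : 300 * D ^ 2 ≤ p := le_trans (Nat.mul_le_mul_left _ h6) hp
  have hDp : D < p := by nlinarith
  have hm : D ≤ (p - 1) / D := by
    rw [Nat.le_div_iff_mul_le hD]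
    have : D * D + 1 ≤ p := by nlinarith
    omega
  have hn : D ≤ Nat.sqrt p := by
    rw [Nat.le_sqrt]
    nlinarith
  have hmp : D * ((p - 1) / D) < p := by
    have := Nat.mul_div_le (p - 1) D
    omega
  have hMp : D * Nat.sqrt p - 8 * D ^ 4 ≤ p := by
    have h2 : D * Nat.sqrt p ≤ p := le_trans (Nat.mul_le_mul_right _ hn) (Nat.sqrt_le p)
    omega
  let S1 := S.filter fun x => eval x (pderiv 0 g) ≠ 0 ∨ eval x (pderiv 1 g) ≠ 0
  let S2 := S.filter fun x => ¬ (eval x (pderiv 0 g) ≠ 0 ∨ eval x (pderiv 1 g) ≠ 0)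
  have hcard : S1.card + S2.card = S.card := Finset.card_filter_add_card_filter_not _
  have k1 := count_smooth p g hg ((p - 1) / D) (Nat.sqrt p) (D * Nat.sqrt p - 8 * D ^ 4) hmp hMp hDp hm hn
    (params D p hD hp) S1 (fun x hx => by
      rw [Finset.mem_filter] at hx
      exact ⟨(hS x hx.1).1, (hS x hx.1).2, hx.2⟩)
  have k2 := count_sing p g hg hDp S2 (fun x hx => by
      rw [Finset.mem_filter, not_or, not_not, not_not] at hx
      refine ⟨(hS x hx.1).2, fun i => ?_⟩
      fin_cases i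
      · exact hx.2.1
      · exact hx.2.2)
  have k3 := numeric D p S1.card hD hp k1
  have hs1 : (1 : ℝ) ≤ Real.sqrt p := by
    rw [Real.one_le_sqrt]
    have : 1 ≤ p := by omega
    exact_mod_cast this
  have hDr : (1 : ℝ) ≤ D := by exact_mod_cast hD
  have k2r : (S2.card : ℝ) ≤ (D : ℝ) ^ 2 := by exact_mod_cast k2
  have k4 : (D : ℝ) ^ 2 ≤ 4 * (D : ℝ) ^ 3 * Real.sqrt p := by
    have h3 : (D : ℝ) ^ 2 ≤ (D : ℝ) ^ 3 := by
      have : (0 : ℝ) ≤ (D : ℝ) ^ 2 := by positivity
      nlinarith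
    have h4 : (0 : ℝ) ≤ (D : ℝ) ^ 3 := by positivity
    nlinarith
  have k5 : (S.card : ℝ) = S1.card + S2.card := by exact_mod_cast hcard.symm
  rw [k5]
  linarith

end LW
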