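import Mathlib

/-! LEAF CuL.  From polynomials in `Y` over polynomials in `x` to polynomials in two variables. -/

namespace LW

open Polynomial

/-- The map to polynomials in two variables. -/
private noncomputable def CuL_phi (L : Type) [Field L] : L[X][X] →+* MvPolynomial (Fin 2) L :=
  Polynomial.eval₂RingHom (Polynomial.eval₂RingHom MvPolynomial.C (MvPolynomial.X 0)) (MvPolynomial.X 1)

/-- The inverse map. -/
private noncomputable def CuL_psi (L : Type) [Field L] : MvPolynomial (Fin 2) L →+* L[X][X] :=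
  MvPolynomial.eval₂Hom ((Polynomial.C : L[X] →+* L[X][X]).comp Polynomial.C) ![Polynomial.C Polynomial.X, Polynomial.X]

private theorem CuL_phi_CC (L : Type) [Field L] (a : L) : CuL_phi L (C (C a)) = MvPolynomial.C a := by
  simp [CuL_phi]

private theorem CuL_phi_CX (L : Type) [Field L] : CuL_phi L (C X) = MvPolynomial.X 0 := by
  simp [CuL_phi]

private theorem CuL_phi_X (L : Type) [Field L] : CuL_phi L X = MvPolynomial.X 1 := by
  simp [CuL_phi]

private theorem CuL_psi_C (L : Type) [Field L] (a : L) : CuL_psi L (MvPolynomial.C a) = C (C a) := by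
  simp [CuL_psi]

private theorem CuL_psi_X0 (L : Type) [Field L] : CuL_psi L (MvPolynomial.X 0) = C X := by
  simp [CuL_psi]

private theorem CuL_psi_X1 (L : Type) [Field L] : CuL_psi L (MvPolynomial.X 1) = X := by
  simp [CuL_psi]

private theorem CuL_psi_phi (L : Type) [Field L] : (CuL_psi L).comp (CuL_phi L) = RingHom.id _ := by
  refine Polynomial.ringHom_ext' (Polynomial.ringHom_ext' (RingHom.ext fun a => ?_) ?_) ?_
  · simp only [RingHom.comp_apply, RingHom.id_apply, CuL_phi_CC, CuL_psi_C]
  · simp only [RingHom.comp_apply, RingHom.id_apply, CuL_phi_CX, CuL_psi_X0]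
  · simp only [RingHom.comp_apply, RingHom.id_apply, CuL_phi_X, CuL_psi_X1]

private theorem CuL_phi_psi (L : Type) [Field L] : (CuL_phi L).comp (CuL_psi L) = RingHom.id _ := by
  refine MvPolynomial.ringHom_ext (fun a => ?_) fun i => ?_
  · simp only [RingHom.comp_apply, RingHom.id_apply, CuL_phi_CC, CuL_psi_C]
  · fin_cases i
    · simp only [RingHom.comp_apply, RingHom.id_apply, Fin.zero_eta, CuL_psi_X0, CuL_phi_CX]
    · simp only [RingHom.comp_apply, RingHom.id_apply, Fin.mk_one, CuL_psi_X1, CuL_phi_X]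

private noncomputable def CuL_equiv (L : Type) [Field L] : L[X][X] ≃+* MvPolynomial (Fin 2) L :=
  RingEquiv.ofRingHom (CuL_phi L) (CuL_psi L) (CuL_phi_psi L) (CuL_psi_phi L)

private theorem CuL_deg_in (L : Type) [Field L] (c : L[X]) : (CuL_phi L (C c)).totalDegree ≤ c.natDegree := by
  have h : CuL_phi L (C c) = Polynomial.eval₂ MvPolynomial.C (MvPolynomial.X 0) c := by
    simp [CuL_phi]
  rw [h, Polynomial.eval₂_eq_sum_range]
  refine (MvPolynomial.totalDegree_finsetSum _ _).trans (Finset.sup_le fun j hj => ?_)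
  refine (MvPolynomial.totalDegree_mul _ _).trans ?_
  rw [MvPolynomial.totalDegree_C, MvPolynomial.totalDegree_X_pow, zero_add]
  have := Finset.mem_range.1 hj
  omega

private theorem CuL_deg (L : Type) [Field L] (n : ℕ) (f : L[X][X])
    (hf : ∀ i, f.coeff i ≠ 0 → (f.coeff i).natDegree + i ≤ n) : (CuL_phi L f).totalDegree ≤ n := by
  have h : CuL_phi L f = ∑ i ∈ Finset.range (f.natDegree + 1), CuL_phi L (C (f.coeff i)) * MvPolynomial.X 1 ^ i := by
    conv_lhs => rw [f.as_sum_range_C_mul_X_pow]
    rw [map_sum]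
    refine Finset.sum_congr rfl fun i _ => ?_
    rw [map_mul, map_pow, CuL_phi_X]
  rw [h]
  refine (MvPolynomial.totalDegree_finsetSum _ _).trans (Finset.sup_le fun i _ => ?_)
  by_cases h0 : f.coeff i = 0
  · rw [h0, map_zero, map_zero, zero_mul, MvPolynomial.totalDegree_zero]
    exact Nat.zero_le _
  · refine (MvPolynomial.totalDegree_mul _ _).trans ?_
    rw [MvPolynomial.totalDegree_X_pow]
    exact (Nat.add_le_add_right (CuL_deg_in L _) i).trans (hf i h0)

private theorem CuL_eval {K L : Type} [Field K] [Field L] [Algebra K L] (x y : K) :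
    (MvPolynomial.eval ![algebraMap K L x, algebraMap K L y]).comp
      ((CuL_phi L).comp (mapRingHom (mapRingHom (algebraMap K L)))) =
      (algebraMap K L).comp (evalEvalRingHom x y) := by
  refine Polynomial.ringHom_ext' (Polynomial.ringHom_ext' (RingHom.ext fun a => ?_) ?_) ?_
  · simp [CuL_phi_CC]
  · simp [CuL_phi_CX]
  · simp [CuL_phi_X]

/-- PROOF. `Ψ : L[X][X] ≃ₐ[L] MvPolynomial (Fin 2) L`, inner variable to `X 0`, outer variable to `X 1` (MvPolynomial.finSuccEquiv and a swap, or directly: `Ψ = eval₂Hom (aeval (X 0)) (X 1)`, with inverse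
`MvPolynomial.aeval ![C X, X]`; check on generators). `g = Ψ (f.map ..)` is irreducible (MulEquiv.irreducible_iff). `Ψ f = ∑_i Ψ (C (f.coeff i)) X 1 ^ i`, and `Ψ (C c)` has degree `≤ natDegree c`, so
`totalDegree g ≤ n`. The evaluation: both sides are ring homomorphisms in `f` (eval₂ / evalEval, agreement on `C (C a)`, `C X`, `X`). -/
theorem conv {K L : Type} [Field K] [Field L] [Algebra K L] (n : ℕ) (f : K[X][X])
    (hf : ∀ i, f.coeff i ≠ 0 → (f.coeff i).natDegree + i ≤ n)
    (hirr : Irreducible (f.map (mapRingHom (algebraMap K L)))) :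
    ∃ g : MvPolynomial (Fin 2) L, Irreducible g ∧ g.totalDegree ≤ n ∧
      ∀ x y : K, MvPolynomial.eval ![algebraMap K L x, algebraMap K L y] g =
        algebraMap K L (f.evalEval x y) := by
  refine ⟨CuL_phi L (f.map (mapRingHom (algebraMap K L))), ?_, ?_, fun x y => ?_⟩
  · exact (MulEquiv.irreducible_iff (CuL_equiv L)).2 hirr
  · refine CuL_deg L n _ fun i hi => ?_
    rw [Polynomial.coeff_map] at hi ⊢
    have h1 : f.coeff i ≠ 0 := by
      intro h0
      rw [h0, map_zero] at hi
      exact hi rfl
    rw [coe_mapRingHom]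
    exact (Nat.add_le_add_right Polynomial.natDegree_map_le i).trans (hf i h1)
  · have h := RingHom.congr_fun (CuL_eval (L := L) x y) f
    simpa using h

end LW
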