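import Pool.Agent.Lib.LW.Defs
import Pool.Agent.Lib.LW.CuK
import Pool.Agent.Lib.LW.CuL

/-! BLOCK (a).  Points of absolutely irreducible plane curves over large prime fields, upper bound. -/

namespace LW

open Polynomial Finset

open Classical in
theorem curve_le' (k : ℕ) (hk : 1 ≤ k) : ∃ C c : ℕ, ∀ (p n : ℕ) [Fact p.Prime], 1 ≤ n → C * n ^ c ≤ p →
    ∀ F : (ZMod p)[X][X], (∀ i, F.coeff i ≠ 0 → (F.coeff i).natDegree + i ≤ n) →
      Irreducible (F.map (mapRingHom (algebraMap (ZMod p) (AlgebraicClosure (ZMod p))))) →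
        k * (univ.filter fun q : ZMod p × ZMod p => F.evalEval q.1 q.2 = 0).card ≤ (k + 1) * p := by
  refine ⟨1600 * k ^ 2, 6, fun p n _ hn hp F hF hirr => ?_⟩
  set L := AlgebraicClosure (ZMod p) with hL
  obtain ⟨g, hg, hgn, hev⟩ := conv (L := L) n F hF hirr
  have hD : 1 ≤ g.totalDegree := by
    rcases Nat.eq_zero_or_pos g.totalDegree with h0 | h0
    · exfalso
      rw [MvPolynomial.totalDegree_eq_zero_iff_eq_C] at h0
      have h1 : g.coeff 0 ≠ 0 := by
        intro h2
        rw [h2, map_zero] at h0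
        exact hg.ne_zero h0
      apply hg.not_isUnit
      rw [h0]
      exact (IsUnit.mk0 _ h1).map MvPolynomial.C
    · exact h0
  have hDn : g.totalDegree ^ 6 ≤ n ^ 6 := Nat.pow_le_pow_left hgn 6
  have hp1 : 1600 * k ^ 2 * g.totalDegree ^ 6 ≤ p := le_trans (Nat.mul_le_mul_left _ hDn) hp
  have hk2 : 1 ≤ k ^ 2 := Nat.one_le_pow _ _ hk
  have hp2 : 300 * g.totalDegree ^ 6 ≤ p :=
    le_trans (Nat.mul_le_mul_right _ (by omega)) hp1
  let e : ZMod p × ZMod p → Fin 2 → L := fun q => ![algebraMap (ZMod p) L q.1, algebraMap (ZMod p) L q.2]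
  have he : Function.Injective e := by
    intro q q' h
    have h0 := congrFun h 0
    have h1 := congrFun h 1
    exact Prod.ext ((algebraMap (ZMod p) L).injective h0) ((algebraMap (ZMod p) L).injective h1)
  have key := curve_points p g hg hp2 hD
    ((univ.filter fun q : ZMod p × ZMod p => F.evalEval q.1 q.2 = 0).image e) (fun x hx => by
      rw [Finset.mem_image] at hx
      obtain ⟨q, hq, rfl⟩ := hx
      rw [Finset.mem_filter] at hq
      refine ⟨fun i => ?_, ?_⟩
      · fin_cases i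
        · show algebraMap (ZMod p) L q.1 ^ p = algebraMap (ZMod p) L q.1
          rw [← map_pow, ZMod.pow_card]
        · show algebraMap (ZMod p) L q.2 ^ p = algebraMap (ZMod p) L q.2
          rw [← map_pow, ZMod.pow_card]
      · show MvPolynomial.eval ![algebraMap (ZMod p) L q.1, algebraMap (ZMod p) L q.2] g = 0
        rw [hev, hq.2, map_zero])
  rw [Finset.card_image_of_injective _ he] at key
  have hkr : (1 : ℝ) ≤ k := by exact_mod_cast hk
  have hs : 40 * (k : ℝ) * (g.totalDegree : ℝ) ^ 3 ≤ Real.sqrt p := by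
    apply Real.le_sqrt_of_sq_le
    have h1 : ((1600 * k ^ 2 * g.totalDegree ^ 6 : ℕ) : ℝ) ≤ p := by exact_mod_cast hp1
    push_cast at h1
    calc (40 * (k : ℝ) * (g.totalDegree : ℝ) ^ 3) ^ 2 = 1600 * (k : ℝ) ^ 2 * (g.totalDegree : ℝ) ^ 6 := by ring
      _ ≤ (p : ℝ) := h1
  have hs0 : 0 ≤ Real.sqrt p := Real.sqrt_nonneg _
  have hsp : Real.sqrt p * Real.sqrt p = p := Real.mul_self_sqrt (Nat.cast_nonneg _)
  have h2 : (k : ℝ) * (40 * (g.totalDegree : ℝ) ^ 3 * Real.sqrt p) ≤ (p : ℝ) := by nlinarith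
  have h3 : (k : ℝ) * ((univ.filter fun q : ZMod p × ZMod p => F.evalEval q.1 q.2 = 0).card : ℝ) ≤
      (k + 1) * p := by
    have h4 := mul_le_mul_of_nonneg_left key (by linarith : (0 : ℝ) ≤ k)
    linarith
  exact_mod_cast h3

open Classical in
theorem curve_le : ∃ C c : ℕ, ∀ (p n : ℕ) [Fact p.Prime], 1 ≤ n → C * n ^ c ≤ p → ∀ F : (ZMod p)[X][X],
    (∀ i, F.coeff i ≠ 0 → (F.coeff i).natDegree + i ≤ n) →
      Irreducible (F.map (mapRingHom (algebraMap (ZMod p) (AlgebraicClosure (ZMod p))))) →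
        100 * (univ.filter fun q : ZMod p × ZMod p => F.evalEval q.1 q.2 = 0).card ≤ 105 * p := by
  obtain ⟨C, c, h⟩ := curve_le' 20 (by norm_num)
  refine ⟨C, c, fun p n _ hn hp F hF hirr => ?_⟩
  have h1 := h p n hn hp F hF hirr
  omega

end LW
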