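import Mathlib

/-! The Lang-Weil upper bound: definitions. -/

namespace LW

open Polynomial

/-- substitution of `c_i T` for the variables `x_i` and of `φ a` for the constants -/
noncomputable def spc {A L : Type} [CommRing A] [Field L] {r : ℕ} (φ : A →+* L) (c : Fin r → L) :
    MvPolynomial (Fin r) A →+* L[X] :=
  MvPolynomial.eval₂Hom (Polynomial.C.comp φ) fun i => Polynomial.C (c i) * Polynomial.X

end LW
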