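import Mathlib

/-! The value of a polynomial in `x_1, .., x_r` and `Y`. -/

namespace LW

open Polynomial

/-- the value at `x = t`, `Y = y` of a polynomial with coefficients in `R`, for a ring homomorphism `φ : R → S` -/
noncomputable def ev {R S : Type} [CommRing R] [CommRing S] {r : ℕ} (φ : R →+* S) (t : Fin r → S) (y : S) :
    (MvPolynomial (Fin r) R)[X] →+* S :=
  Polynomial.eval₂RingHom (MvPolynomial.eval₂Hom φ t) y

/-- a `K`-linear functional applied to all coefficients -/
noncomputable def cw {K E : Type} [Field K] [Field E] [Algebra K E] {n : ℕ} (l : E →ₗ[K] K)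
    (q : MvPolynomial (Fin n) E) : MvPolynomial (Fin n) K :=
  ∑ m ∈ q.support, MvPolynomial.monomial m (l (q.coeff m))

/-- the same for polynomials in `x_1, .., x_r` and `Y` -/
noncomputable def cw2 {K E : Type} [Field K] [Field E] [Algebra K E] {r : ℕ} (l : E →ₗ[K] K)
    (q : (MvPolynomial (Fin r) E)[X]) : (MvPolynomial (Fin r) K)[X] :=
  ∑ i ∈ q.support, Polynomial.monomial i (cw l (q.coeff i))

end LW
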