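import Mathlib

/-! LEAF H1 (Mathlib only).  Bezout identity with the derivative. -/

namespace LW

open Polynomial

/-- PROOF.  `K = FractionRing S`.  `F.map` is irreducible over `K` (`Polynomial.Monic.irreducible_iff_irreducible_map_fraction_map`; `S` is a UFD, so integrally closed, instance), `K` has
characteristic zero (`IsFractionRing.charZero` or from injectivity of `algebraMap`), so `F.map` is separable (`Irreducible.separable`): `a * F.map + b * derivative F.map = 1` over `K`.
Clear denominators: `IsLocalization.integerNormalization`, or `IsLocalization.exist_integer_multiples_of_finset` for the coefficients of `a` and `b`; or as in block (b): `Polynomial.exists_mul_add_mul_eq_C_resultant`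
with `R = resultant F F.derivative`, which is not zero since its image over `K` is a resultant of coprime polynomials (`Polynomial.resultant_ne_zero`, `Polynomial.resultant_map_map`).  Whatever is shorter. -/
theorem bez {S : Type} [CommRing S] [IsDomain S] [UniqueFactorizationMonoid S] [CharZero S] (F : S[X])
    (hF : F.Monic) (hirr : Irreducible F) :
    ∃ (u v : S[X]) (R : S), R ≠ 0 ∧ F * u + derivative F * v = C R := by
  classical
  have hinj : Function.Injective (algebraMap S (FractionRing S)) :=
    IsFractionRing.injective S (FractionRing S)
  haveI : CharZero (FractionRing S) := charZero_of_injective_algebraMap hinj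
  have hKirr : Irreducible (F.map (algebraMap S (FractionRing S))) :=
    (hF.irreducible_iff_irreducible_map_fraction_map (K := FractionRing S)).1 hirr
  obtain ⟨a, b, hab⟩ := hKirr.separable
  rw [derivative_map] at hab
  obtain ⟨c1, hc1, h1⟩ := IsLocalization.integerNormalization_spec (nonZeroDivisors S) a
  obtain ⟨c2, hc2, h2⟩ := IsLocalization.integerNormalization_spec (nonZeroDivisors S) b
  refine ⟨C c2 * IsLocalization.integerNormalization (nonZeroDivisors S) a,
    C c1 * IsLocalization.integerNormalization (nonZeroDivisors S) b, c1 * c2,
    mul_ne_zero (nonZeroDivisors.ne_zero hc1) (nonZeroDivisors.ne_zero hc2), ?_⟩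
  apply Polynomial.map_injective _ hinj
  rw [Algebra.smul_def, Polynomial.algebraMap_apply] at h1 h2
  rw [Polynomial.map_add, Polynomial.map_mul, Polynomial.map_mul, Polynomial.map_mul,
    Polynomial.map_mul, map_C, map_C, map_C, h1, h2, map_mul, C_mul]
  linear_combination (C (algebraMap S (FractionRing S) c1) *
    C (algebraMap S (FractionRing S) c2)) * hab

end LW
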