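import Pool.Agent.Lib.LW.HDefs

/-! LEAF H10.  Translations. -/

namespace LW

open Polynomial

private theorem H10_comp {R F : Type} [CommRing R] [CommRing F] {r : ℕ} (φ : R →+* F) (a : Fin r → R) (x : Fin r → F) :
    (MvPolynomial.eval₂Hom φ x).comp (tr a) = MvPolynomial.eval₂Hom φ fun i => x i + φ (a i) := by
  apply MvPolynomial.ringHom_ext
  · intro c
    simp [tr]
  · intro i
    simp [tr]

private theorem H10_map {R E : Type} [CommRing R] [CommRing E] {r : ℕ} (ι : R →+* E) (a : Fin r → R) :
    (MvPolynomial.map ι).comp (tr a) = (tr fun i => ι (a i)).comp (MvPolynomial.map ι) := by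
  apply MvPolynomial.ringHom_ext
  · intro c
    simp [tr]
  · intro i
    simp [tr]

private theorem H10_inv {R : Type} [CommRing R] {r : ℕ} (a : Fin r → R) :
    (tr a).comp (tr fun i => - a i) = RingHom.id _ := by
  apply MvPolynomial.ringHom_ext
  · intro c
    simp [tr]
  · intro i
    simp [tr]

private theorem H10_inv' {R : Type} [CommRing R] {r : ℕ} (a : Fin r → R) :
    (tr fun i => - a i).comp (tr a) = RingHom.id _ := by
  apply MvPolynomial.ringHom_ext
  · intro c
    simp [tr]
  · intro i
    simp [tr]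

private noncomputable def H10_equiv {R : Type} [CommRing R] {r : ℕ} (a : Fin r → R) :
    MvPolynomial (Fin r) R ≃+* MvPolynomial (Fin r) R :=
  RingEquiv.ofRingHom (tr a) (tr fun i => - a i) (H10_inv a) (H10_inv' a)

/-- PROOF.  `MvPolynomial.ringHom_ext`. -/
theorem tr_const {R : Type} [CommRing R] {r : ℕ} (a : Fin r → R) :
    MvPolynomial.constantCoeff.comp (tr a) = MvPolynomial.eval a := by
  apply MvPolynomial.ringHom_ext
  · intro c
    simp [tr]
  · intro i
    simp [tr]

/-- PROOF.  `Polynomial.map_map` and `MvPolynomial.ringHom_ext`: `(eval₂Hom φ x).comp (tr a) = eval₂Hom φ (fun i => x i + φ (a i))`. -/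
theorem tr_eval {R F : Type} [CommRing R] [Field F] {r : ℕ} (φ : R →+* F) (a : Fin r → R) (x : Fin r → F)
    (g : (MvPolynomial (Fin r) R)[X]) (y : F) :
    ((g.map (tr a)).map (MvPolynomial.eval₂Hom φ x)).eval y =
      (g.map (MvPolynomial.eval₂Hom φ fun i => x i + φ (a i))).eval y := by
  rw [Polynomial.map_map, H10_comp]

/-- PROOF.  `(map ι).comp (tr a) = (tr (ι ∘ a)).comp (map ι)` (`MvPolynomial.ringHom_ext`), so the polynomial is the image of the irreducible `f.map (map ι)` under `mapRingHom (tr (ι ∘ a))`, which is the forward map of a ring automorphism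
with inverse `mapRingHom (tr (- ι ∘ a))` (`Polynomial.mapEquiv`, `RingEquiv.ofRingHom`); `MulEquiv.irreducible_iff`. -/
theorem tr_irr {R E : Type} [CommRing R] [Field E] (ι : R →+* E) {r : ℕ} (a : Fin r → R)
    (f : (MvPolynomial (Fin r) R)[X]) (h : Irreducible (f.map (MvPolynomial.map ι))) :
    Irreducible ((f.map (tr a)).map (MvPolynomial.map ι)) := by
  have h1 : (f.map (tr a)).map (MvPolynomial.map ι) =
      Polynomial.mapEquiv (H10_equiv fun i => ι (a i)) (f.map (MvPolynomial.map ι)) := by
    rw [Polynomial.mapEquiv_apply, Polynomial.map_map, Polynomial.map_map, H10_map]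
    rfl
  rw [h1]
  exact (MulEquiv.irreducible_iff (Polynomial.mapEquiv (H10_equiv fun i => ι (a i)))).2 h

end LW
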