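import Mathlib

/-! The final count, with a parameter `k`. -/

namespace LW

theorem total' (k : ℕ) (hk : 1 ≤ k) (p r d D S : ℕ) (hp : 4 * k * (d * D + 2) ≤ p) {ι : Type} [Fintype ι]
    (hι : Fintype.card ι = p ^ r) (N : ι → ℕ) (B : ι → Prop) (hB : Nat.card {c // B c} * p ≤ D * p ^ r)
    (h1 : ∀ c, N c ≤ d * p) (h2 : ∀ c, ¬ B c → 4 * k * N c ≤ (4 * k + 1) * p) (hS : (p - 1) * S ≤ ∑ c, N c) :
    k * S ≤ (k + 1) * p ^ r := by
  classical
  have hB' : Nat.card {c // B c} = (Finset.univ.filter B).card := by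
    rw [Nat.card_eq_fintype_card, Fintype.card_subtype]
  have e1 : ∑ c ∈ Finset.univ.filter B, 4 * k * N c ≤ (Finset.univ.filter B).card * (4 * k * (d * p)) := by
    refine (Finset.sum_le_card_nsmul _ _ (4 * k * (d * p)) fun c _ => Nat.mul_le_mul_left (4 * k) (h1 c)).trans ?_
    rw [smul_eq_mul]
  have e2 : ∑ c ∈ Finset.univ.filter (fun c => ¬ B c), 4 * k * N c ≤ p ^ r * ((4 * k + 1) * p) := by
    refine (Finset.sum_le_card_nsmul _ _ ((4 * k + 1) * p) fun c hc => h2 c (Finset.mem_filter.1 hc).2).trans ?_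
    rw [smul_eq_mul]
    refine Nat.mul_le_mul_right _ ?_
    rw [← hι]
    exact Finset.card_le_univ _
  have e3 : ∑ c, 4 * k * N c = ∑ c ∈ Finset.univ.filter B, 4 * k * N c +
      ∑ c ∈ Finset.univ.filter (fun c => ¬ B c), 4 * k * N c :=
    (Finset.sum_filter_add_sum_filter_not Finset.univ B _).symm
  have e4 : 4 * k * ∑ c, N c = ∑ c, 4 * k * N c := Finset.mul_sum _ _ _
  have e5 : (Finset.univ.filter B).card * (4 * k * (d * p)) ≤ 4 * k * d * (D * p ^ r) := by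
    rw [hB'] at hB
    calc (Finset.univ.filter B).card * (4 * k * (d * p)) = 4 * k * d * ((Finset.univ.filter B).card * p) := by ring
      _ ≤ 4 * k * d * (D * p ^ r) := Nat.mul_le_mul_left _ hB
  obtain ⟨q, rfl⟩ : ∃ q, p = q + 1 := ⟨p - 1, by
    have : 1 ≤ 4 * k * (d * D + 2) := Nat.one_le_iff_ne_zero.2 (by positivity)
    omega⟩
  rw [Nat.add_sub_cancel] at hS
  have hq0 : 0 < q := by
    have : 4 * 1 * 2 ≤ 4 * k * (d * D + 2) := Nat.mul_le_mul (Nat.mul_le_mul_left _ hk) (by omega)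
    omega
  have hq2 : 4 * k * (d * D) + (4 * k + 1) * (q + 1) ≤ 4 * (k + 1) * q := by
    have h3 : 4 * k * (d * D) + 8 * k ≤ q + 1 := by
      calc 4 * k * (d * D) + 8 * k = 4 * k * (d * D + 2) := by ring
        _ ≤ q + 1 := hp
    have h4 : 0 ≤ 4 * k * (d * D) := Nat.zero_le _
    nlinarith
  have e6 : 4 * q * (k * S) ≤ 4 * q * ((k + 1) * (q + 1) ^ r) := by
    calc 4 * q * (k * S) = 4 * k * (q * S) := by ring
      _ ≤ 4 * k * ∑ c, N c := Nat.mul_le_mul_left _ hS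
      _ = ∑ c ∈ Finset.univ.filter B, 4 * k * N c + ∑ c ∈ Finset.univ.filter (fun c => ¬ B c), 4 * k * N c := by
        rw [e4, e3]
      _ ≤ 4 * k * d * (D * (q + 1) ^ r) + (q + 1) ^ r * ((4 * k + 1) * (q + 1)) := Nat.add_le_add (e1.trans e5) e2
      _ = (4 * k * (d * D) + (4 * k + 1) * (q + 1)) * (q + 1) ^ r := by ring
      _ ≤ 4 * (k + 1) * q * (q + 1) ^ r := Nat.mul_le_mul_right _ hq2
      _ = 4 * q * ((k + 1) * (q + 1) ^ r) := by ring
  exact Nat.le_of_mul_le_mul_left e6 (by omega)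

end LW
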