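import Mathlib

/-! LEAF H4 (Mathlib only).  Extension of a ring homomorphism to an integral extension. -/

namespace LW

/-- PROOF.  `P = RingHom.ker ψ` is prime; lying over (`Ideal.exists_ideal_over_prime_of_isIntegral` with `I = ⊥`, or `Ideal.exists_ideal_comap_eq..`; `comap ⊥ = ⊥` by injectivity) gives a prime `Q` of `A` with `Q.comap (algebraMap R A) = P`.
`A ⧸ Q` is a domain, integral over `R ⧸ P` (`Ideal.Quotient.algebraQuotientOfLEComap`, `Ideal.Quotient.algebra_isIntegral_of_liesOver`), which injects into it and (by `Ideal.Quotient.lift P ψ`, `RingHom.lift_injective_of_ker_le_ideal` /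
`RingHom.kerLift_injective`) into `L`.  Let `k = FractionRing (R ⧸ P)`, `k' = FractionRing (A ⧸ Q)`: `k'` is algebraic over `k` (or over `R ⧸ P`: `IsFractionRing.isAlgebraic_iff`, `Algebra.IsAlgebraic.of_finite`-like lemmas) and
`IsAlgClosed.lift` extends `k → L` to `k' → L`.  There may be a direct lemma for algebras over a domain: `IsAlgClosed.lift : M →ₐ[R] K` wants `[Algebra.IsAlgebraic R M]`, `R` a domain, `NoZeroSMulDivisors R K`: use it with
`R := R ⧸ P` and `M := A ⧸ Q`, `K := L` (with the algebra structure given by the lift of `ψ`). -/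
theorem ext_hom {R A L : Type} [CommRing R] [CommRing A] [Algebra R A] [Algebra.IsIntegral R A]
    (hinj : Function.Injective (algebraMap R A)) [Field L] [IsAlgClosed L] (ψ : R →+* L) :
    ∃ φ : A →+* L, φ.comp (algebraMap R A) = ψ := by
  have hP : (RingHom.ker ψ).IsPrime := RingHom.ker_isPrime ψ
  obtain ⟨P, hPdef⟩ : ∃ P : Ideal R, P = RingHom.ker ψ := ⟨_, rfl⟩
  rw [← hPdef] at hP
  obtain ⟨Q, -, hQ, hQP⟩ := Ideal.exists_ideal_over_prime_of_isIntegral P (⊥ : Ideal A) (by
    rw [← RingHom.ker_eq_comap_bot, (RingHom.injective_iff_ker_eq_bot _).1 hinj]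
    exact bot_le)
  have : Q.LiesOver P := ⟨hQP.symm⟩
  obtain ⟨ψ', hψ'⟩ : ∃ ψ' : (R ⧸ P) →+* L, ∀ r, ψ' (Ideal.Quotient.mk P r) = ψ r :=
    ⟨Ideal.Quotient.lift P ψ (fun a ha => by rw [hPdef] at ha; exact ha), fun r => rfl⟩
  have hψi : Function.Injective ψ' := by
    rw [injective_iff_map_eq_zero]
    intro a ha
    obtain ⟨r, rfl⟩ := Ideal.Quotient.mk_surjective a
    rw [hψ'] at ha
    rw [Ideal.Quotient.eq_zero_iff_mem, hPdef]
    exact ha
  let _ : Algebra (R ⧸ P) L := ψ'.toAlgebra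
  have : FaithfulSMul (R ⧸ P) L := (faithfulSMul_iff_algebraMap_injective _ _).2 hψi
  have hAQ : Function.Injective (algebraMap (R ⧸ P) (A ⧸ Q)) := by
    rw [injective_iff_map_eq_zero]
    intro a ha
    obtain ⟨r, rfl⟩ := Ideal.Quotient.mk_surjective a
    have h3 : Ideal.Quotient.mk Q (algebraMap R A r) = 0 := ha
    rw [Ideal.Quotient.eq_zero_iff_mem] at h3 ⊢
    rw [← hQP]
    exact h3
  have : IsDomain (A ⧸ Q) := Ideal.Quotient.isDomain Q
  have : IsDomain (R ⧸ P) := Ideal.Quotient.isDomain P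
  have : Module.IsTorsionFree (R ⧸ P) L := Module.isTorsionFree_iff_algebraMap_injective.2 hψi
  have : Module.IsTorsionFree (R ⧸ P) (A ⧸ Q) := Module.isTorsionFree_iff_algebraMap_injective.2 hAQ
  let f : (A ⧸ Q) →ₐ[R ⧸ P] L := IsAlgClosed.lift
  refine ⟨f.toRingHom.comp (Ideal.Quotient.mk Q), RingHom.ext fun r => ?_⟩
  have h1 : f (algebraMap (R ⧸ P) (A ⧸ Q) (Ideal.Quotient.mk P r)) = algebraMap (R ⧸ P) L (Ideal.Quotient.mk P r) :=
    f.commutes _
  have h2 : algebraMap (R ⧸ P) (A ⧸ Q) (Ideal.Quotient.mk P r) = Ideal.Quotient.mk Q (algebraMap R A r) := rfl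
  rw [h2] at h1
  exact h1.trans (hψ' r)

end LW
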