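import Mathlib

/-! LEAF H5 (Mathlib only).  A nonzero algebraic integer is nonzero modulo large primes. -/

namespace LW

/-- PROOF.  `m = minpoly ℤ a`, `m(a) = 0` and `m(0) ≠ 0` (`minpoly.coeff_zero_ne_zero`; if its hypotheses are awkward, divide a monic polynomial which kills `a` by the highest power of `X`: `a ≠ 0` in a domain), so `a * q + m(0) = 0`
in `A` (`Polynomial.divX_mul_X_add`, `aeval`).  `M = |m(0)|`.  For a prime `p > M`, `(m(0) : L) ≠ 0` (`CharP.intCast_eq_zero_iff`, `Int.le_of_dvd` on the absolute value), so `φ a = 0` is impossible.  -/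
theorem nzA {A : Type} [CommRing A] [IsDomain A] [CharZero A] (a : A) (ha : a ≠ 0) (hint : IsIntegral ℤ a) :
    ∃ M : ℕ, ∀ p : ℕ, p.Prime → M < p → ∀ (L : Type) [Field L] [CharP L p] (φ : A →+* L), φ a ≠ 0 := by
  have h0 : (minpoly ℤ a).coeff 0 ≠ 0 := by
    intro hc
    obtain ⟨q, hq⟩ := Polynomial.X_dvd_iff.2 hc
    have hm := minpoly.monic hint
    have hqm : q.Monic := by
      rw [hq] at hm
      exact Polynomial.Monic.of_mul_monic_left Polynomial.monic_X hm
    have h2 : Polynomial.aeval a (minpoly ℤ a) = 0 := minpoly.aeval ℤ a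
    rw [hq, map_mul, Polynomial.aeval_X] at h2
    have h3 : Polynomial.aeval a q = 0 := (mul_eq_zero.1 h2).resolve_left ha
    have h4 := minpoly.min ℤ a hqm h3
    rw [hq, Polynomial.degree_mul, Polynomial.degree_X, Polynomial.degree_eq_natDegree hqm.ne_zero] at h4
    have h5 : ((1 + q.natDegree : ℕ) : WithBot ℕ) ≤ (q.natDegree : WithBot ℕ) := by
      rw [Nat.cast_add, Nat.cast_one]
      exact h4
    have h6 : 1 + q.natDegree ≤ q.natDegree := by exact_mod_cast h5
    omega
  refine ⟨((minpoly ℤ a).coeff 0).natAbs, fun p hp hlt L _ _ φ h => ?_⟩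
  have h1 : Polynomial.aeval (φ a) (minpoly ℤ a) = 0 := by
    have h2 : Polynomial.aeval a (minpoly ℤ a) = 0 := minpoly.aeval ℤ a
    have h3 := congrArg φ h2
    rw [map_zero, Polynomial.aeval_def, Polynomial.hom_eval₂] at h3
    rw [Polynomial.aeval_def]
    have h4 : φ.comp (algebraMap ℤ A) = algebraMap ℤ L := RingHom.ext_int _ _
    rwa [h4] at h3
  rw [h, ← Polynomial.coeff_zero_eq_aeval_zero', eq_intCast, CharP.intCast_eq_zero_iff L p] at h1
  have h5 := Int.natAbs_dvd_natAbs.2 h1
  rw [Int.natAbs_natCast] at h5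
  have h6 := Nat.le_of_dvd (Int.natAbs_pos.2 h0) h5
  omega

end LW
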