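import Pool.Agent.Lib.LW.Defs

/-! LEAF H6.  Restriction to the line through `0` and `c`. -/

namespace LW

open Polynomial

/-- PROOF.  `spc φ c q` is the sum over the support of `q` of `C (φ (coeff)) * ∏ (C (c i) * X) ^ (m i)` (`MvPolynomial.eval₂_eq'` or `eval₂_eq`), each of degree at most `∑ m i ≤ totalDegree q` (`MvPolynomial.le_totalDegree`);
`Polynomial.natDegree_sum_le_of_forall_le`, `natDegree_mul_le`, `natDegree_prod_le`, `natDegree_pow_le`, `natDegree_C_mul_X_le`. -/
theorem spc_deg {R F : Type} [CommRing R] [Field F] {r : ℕ} (φ : R →+* F) (c : Fin r → F)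
    (q : MvPolynomial (Fin r) R) : (spc φ c q).natDegree ≤ q.totalDegree := by
  classical
  rw [spc, MvPolynomial.coe_eval₂Hom, MvPolynomial.eval₂_eq']
  refine Polynomial.natDegree_sum_le_of_forall_le _ _ fun d hd => ?_
  have h1 : (∏ i : Fin r, (Polynomial.C (c i) * Polynomial.X) ^ d i).natDegree ≤ ∑ i : Fin r, d i := by
    refine (Polynomial.natDegree_prod_le _ _).trans (Finset.sum_le_sum fun i _ => ?_)
    refine (Polynomial.natDegree_pow_le).trans ?_
    calc d i * (Polynomial.C (c i) * Polynomial.X).natDegree ≤ d i * 1 :=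
          Nat.mul_le_mul_left _ ((Polynomial.natDegree_C_mul_le _ _).trans Polynomial.natDegree_X_le)
      _ = d i := mul_one _
  have h2 : (∑ i : Fin r, d i) ≤ q.totalDegree := by
    have h3 := MvPolynomial.le_totalDegree hd
    rwa [Finsupp.sum_fintype _ _ (fun _ => rfl)] at h3
  refine (Polynomial.natDegree_mul_le).trans ?_
  rw [RingHom.comp_apply, Polynomial.natDegree_C, zero_add]
  exact h1.trans h2

/-- PROOF.  Both sides are values at `g` of ring homomorphisms `(MvPolynomial (Fin r) R)[X] →+* F` (`Polynomial.evalEval`, `evalEvalRingHom`, `Polynomial.coe_mapRingHom`, `evalRingHom`), which agree on `C (C a)`, `C (X i)` and `X`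
(`Polynomial.ringHom_ext'`, `MvPolynomial.ringHom_ext`).  Or: `evalEval t y P = eval y (P.map (evalRingHom t))` (`Polynomial.eval_C_..`, `Polynomial.map_evalRingHom_eval`), `Polynomial.map_map`, and
`(evalRingHom t).comp (spc φ c) = eval₂Hom φ (fun i => t * c i)`. -/
theorem spc_ev {R F : Type} [CommRing R] [Field F] {r : ℕ} (φ : R →+* F) (c : Fin r → F)
    (g : (MvPolynomial (Fin r) R)[X]) (t y : F) :
    (g.map (spc φ c)).evalEval t y = (g.map (MvPolynomial.eval₂Hom φ fun i => t * c i)).eval y := by
  have h : (Polynomial.evalEvalRingHom t y).comp (Polynomial.mapRingHom (spc φ c)) =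
      (Polynomial.evalRingHom y).comp (Polynomial.mapRingHom (MvPolynomial.eval₂Hom φ fun i => t * c i)) := by
    apply Polynomial.ringHom_ext'
    · apply MvPolynomial.ringHom_ext
      · intro a
        simp [spc]
      · intro i
        simp [spc]
        exact mul_comm _ _
    · simp
  exact RingHom.congr_fun h g

/-- PROOF.  `Polynomial.map_map` on both sides, and `(spc φ' (j ∘ c)).comp (MvPolynomial.map α) = (mapRingHom j).comp (spc φ c)` by `MvPolynomial.ringHom_ext` (constants: `h`; variables: `C (j (c i)) * X`). -/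
theorem spc_map {R A F L : Type} [CommRing R] [CommRing A] [Field F] [Field L] {r : ℕ} (α : R →+* A) (φ : R →+* F)
    (j : F →+* L) (φ' : A →+* L) (h : φ'.comp α = j.comp φ) (c : Fin r → F) (g : (MvPolynomial (Fin r) R)[X]) :
    (g.map (MvPolynomial.map α)).map (spc φ' fun i => j (c i)) = (g.map (spc φ c)).map (mapRingHom j) := by
  rw [Polynomial.map_map, Polynomial.map_map]
  congr 1
  apply MvPolynomial.ringHom_ext
  · intro a
    have h1 : φ' (α a) = j (φ a) := RingHom.congr_fun h a
    simp [spc, h1]
  · intro i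
    simp [spc]

end LW
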