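import Mathlib

/-! LEAF H7 (Mathlib only).  A simple root among the algebraic integers. -/

namespace LW

open Polynomial

/-- PROOF.  `Q = q.map (algebraMap R E)` has degree `natDegree q ≠ 0` (`Monic.natDegree_map`), so it has a root `z` in `E` (`IsAlgClosed.exists_root`); `z` is integral over `R` (`⟨q, hq, _⟩`, `eval₂_eq_eval_map`), `y = ⟨z, _⟩`.
The two claims after applying the injective map `integralClosure R E → E` (`Subtype.val`, `(integralClosure R E).subtype`, `Polynomial.hom_eval₂` / `eval_map`, `IsScalarTower.algebraMap_eq`, `derivative_map`): the first is `Q(z) = 0`, the second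
`Q'(z) ≠ 0` (`Polynomial.Separable.eval₂_derivative_ne_zero` or from `a * Q + b * Q' = 1`). -/
theorem root {R E : Type} [CommRing R] [Field E] [IsAlgClosed E] [Algebra R E] (q : R[X]) (hq : q.Monic)
    (hd : q.natDegree ≠ 0) (hs : (q.map (algebraMap R E)).Separable) :
    ∃ y : integralClosure R E, (q.map (algebraMap R (integralClosure R E))).eval y = 0 ∧
      (q.map (algebraMap R (integralClosure R E))).derivative.eval y ≠ 0 := by
  have hQd : (q.map (algebraMap R E)).degree ≠ 0 := by
    intro h0
    apply hd
    rw [← hq.natDegree_map (algebraMap R E)]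
    exact natDegree_eq_of_degree_eq_some h0
  obtain ⟨z, hz⟩ := IsAlgClosed.exists_root (q.map (algebraMap R E)) hQd
  have hint : IsIntegral R z := ⟨q, hq, by rw [eval₂_eq_eval_map]; exact hz⟩
  have key : ∀ p : (integralClosure R E)[X],
      ((p.eval (⟨z, hint⟩ : integralClosure R E) : integralClosure R E) : E) =
        (p.map (algebraMap (integralClosure R E) E)).eval z := by
    intro p
    rw [eval_map]
    exact Polynomial.hom_eval₂ p (RingHom.id _) (algebraMap (integralClosure R E) E) ⟨z, hint⟩
  have hmap : (q.map (algebraMap R (integralClosure R E))).map (algebraMap (integralClosure R E) E) =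
      q.map (algebraMap R E) := by
    rw [Polynomial.map_map, ← IsScalarTower.algebraMap_eq]
  refine ⟨⟨z, hint⟩, ?_, ?_⟩
  · apply Subtype.ext
    rw [key, hmap]
    exact hz
  · intro h
    have h1 : (((q.map (algebraMap R (integralClosure R E))).derivative.eval
        (⟨z, hint⟩ : integralClosure R E) : integralClosure R E) : E) = 0 := by
      rw [h]; rfl
    rw [key, ← derivative_map, hmap] at h1
    have h2 := hs.eval₂_derivative_ne_zero (RingHom.id E) (x := z) (by
      rw [eval₂_id]; exact hz)
    rw [eval₂_id] at h2
    exact h2 h1

end LW
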