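import Pool.Agent.Lib.LW.H6

/-! LEAF H8.  Trivial bound for the points on one line. -/

namespace LW

open Polynomial

/-- PROOF.  For given `t` the `y` are the roots of the monic polynomial `g.map (eval₂Hom φ (t c))` (`spc_ev`) of degree `g.natDegree` (`Monic.natDegree_map`): at most `g.natDegree` of them (`Polynomial.card_roots'`, the set of `y` is contained in
`roots.toFinset`).  Sum over `t`: `Nat.card_sigma`, or the subtype of `F × F` is in bijection with `Σ t, {y // ..}` (`Equiv.subtypeProdEquivSigmaSubtype`), or `Finset.card_eq_sum_card_fiberwise`. -/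
theorem fib {R F : Type} [CommRing R] [Field F] [Finite F] {r : ℕ} (φ : R →+* F) (g : (MvPolynomial (Fin r) R)[X])
    (hg : g.Monic) (c : Fin r → F) :
    Nat.card {q : F × F // (g.map (spc φ c)).evalEval q.1 q.2 = 0} ≤ g.natDegree * Nat.card F := by
  classical
  have hF := Fintype.ofFinite F
  have key : ∀ t : F, Nat.card {y : F // (g.map (spc φ c)).evalEval t y = 0} ≤ g.natDegree := by
    intro t
    have hm : (g.map (MvPolynomial.eval₂Hom φ fun i => t * c i)).Monic := hg.map _
    have hd : (g.map (MvPolynomial.eval₂Hom φ fun i => t * c i)).natDegree = g.natDegree := hg.natDegree_map _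
    have hsub : {y : F | (g.map (spc φ c)).evalEval t y = 0} ⊆
        ((g.map (MvPolynomial.eval₂Hom φ fun i => t * c i)).roots.toFinset : Set F) := by
      intro y hy
      have hy' : (g.map (spc φ c)).evalEval t y = 0 := hy
      rw [spc_ev] at hy'
      rw [Finset.mem_coe, Multiset.mem_toFinset, Polynomial.mem_roots hm.ne_zero]
      exact hy'
    calc Nat.card {y : F // (g.map (spc φ c)).evalEval t y = 0}
        = Set.ncard {y : F | (g.map (spc φ c)).evalEval t y = 0} := rfl
      _ ≤ Set.ncard ((g.map (MvPolynomial.eval₂Hom φ fun i => t * c i)).roots.toFinset : Set F) :=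
          Set.ncard_le_ncard hsub (Finset.finite_toSet _)
      _ = (g.map (MvPolynomial.eval₂Hom φ fun i => t * c i)).roots.toFinset.card := Set.ncard_coe_finset _
      _ ≤ Multiset.card (g.map (MvPolynomial.eval₂Hom φ fun i => t * c i)).roots := Multiset.toFinset_card_le _
      _ ≤ (g.map (MvPolynomial.eval₂Hom φ fun i => t * c i)).natDegree := Polynomial.card_roots' _
      _ = g.natDegree := hd
  let e : {q : F × F // (g.map (spc φ c)).evalEval q.1 q.2 = 0} →
      (Σ t : F, {y : F // (g.map (spc φ c)).evalEval t y = 0}) := fun q => ⟨q.1.1, q.1.2, q.2⟩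
  have he : Function.Injective e := by
    rintro ⟨⟨a, b⟩, h⟩ ⟨⟨a', b'⟩, h'⟩ hh
    simp only [e, Sigma.mk.injEq] at hh
    obtain ⟨h1, h2⟩ := hh
    subst h1
    have h3 := eq_of_heq h2
    simp only [Subtype.mk.injEq] at h3
    subst h3
    rfl
  calc Nat.card {q : F × F // (g.map (spc φ c)).evalEval q.1 q.2 = 0}
      ≤ Nat.card (Σ t : F, {y : F // (g.map (spc φ c)).evalEval t y = 0}) := Nat.card_le_card_of_injective e he
    _ = ∑ t : F, Nat.card {y : F // (g.map (spc φ c)).evalEval t y = 0} := Nat.card_sigma
    _ ≤ ∑ _t : F, g.natDegree := Finset.sum_le_sum fun t _ => key t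
    _ = g.natDegree * Nat.card F := by
        rw [Finset.sum_const, smul_eq_mul, Finset.card_univ, Nat.card_eq_fintype_card, mul_comm]

end LW
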