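import Pool.Agent.Lib.LW.H6

/-! LEAF H9.  Sum over the lines through the origin. -/

namespace LW

open Polynomial

/-- PROOF.  The map `(t, (x, y)) ↦ (t⁻¹ x, (t, y))` from `Fˣ × {z // g(z) = 0}` to `Σ c, {q : F × F // g_c(q) = 0}` is well defined by `spc_ev` (`t * (t⁻¹ * x i) = x i`) and injective.  Cardinalities: `Nat.card_prod`, `Nat.card_sigma` (or
`Fintype.card_sigma` after `Nat.card_eq_fintype_card`), `Fintype.card_units` (`card Fˣ = card F - 1`), `Nat.card_le_card_of_injective`. -/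
theorem lines {R F : Type} [CommRing R] [Field F] [Fintype F] {r : ℕ} (φ : R →+* F)
    (g : (MvPolynomial (Fin r) R)[X]) :
    (Fintype.card F - 1) *
        Nat.card {z : (Fin r → F) × F // (g.map (MvPolynomial.eval₂Hom φ z.1)).eval z.2 = 0} ≤
      ∑ c : Fin r → F, Nat.card {q : F × F // (g.map (spc φ c)).evalEval q.1 q.2 = 0} := by
  classical
  have hu : Nat.card Fˣ = Fintype.card F - 1 := by
    rw [Nat.card_eq_fintype_card, Fintype.card_units]
  rw [← hu, ← Nat.card_prod, ← Nat.card_sigma]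
  have hkey : ∀ (t : Fˣ) (x : Fin r → F) (y : F),
      (g.map (MvPolynomial.eval₂Hom φ x)).eval y = 0 →
      (g.map (spc φ fun i => (t : F)⁻¹ * x i)).evalEval (t : F) y = 0 := by
    intro t x y h
    rw [spc_ev]
    have h1 : (fun i => (t : F) * ((t : F)⁻¹ * x i)) = x := by
      funext i
      rw [mul_inv_cancel_left₀ t.ne_zero]
    rw [h1]
    exact h
  refine Nat.card_le_card_of_injective
    (fun p => (⟨fun i => (p.1 : F)⁻¹ * p.2.1.1 i, ⟨((p.1 : F), p.2.1.2),
      hkey p.1 p.2.1.1 p.2.1.2 p.2.2⟩⟩ :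
      Σ c : Fin r → F, {q : F × F // (g.map (spc φ c)).evalEval q.1 q.2 = 0})) ?_
  rintro ⟨t, ⟨⟨x, y⟩, hz⟩⟩ ⟨t', ⟨⟨x', y'⟩, hz'⟩⟩ h
  have h1 := congrArg (fun s : (Σ c : Fin r → F,
    {q : F × F // (g.map (spc φ c)).evalEval q.1 q.2 = 0}) => s.2.1) h
  have h2 := congrArg (fun s : (Σ c : Fin r → F,
    {q : F × F // (g.map (spc φ c)).evalEval q.1 q.2 = 0}) => s.1) h
  simp only [Prod.mk.injEq] at h1
  obtain ⟨ht, hy⟩ := h1
  have ht' : t = t' := Units.ext ht
  subst ht'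
  subst hy
  have hx : x = x' := by
    funext i
    have h3 := congrFun h2 i
    exact mul_left_cancel₀ (inv_ne_zero t.ne_zero) h3
  subst hx
  rfl

end LW
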