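import Pool.Agent.Lib.LW.Defs

/-! BLOCK (b).  Kaltofen's irreducibility theorem over a domain: restriction to lines through a point and
reduction. -/

namespace LW

open Polynomial

/-- substitution of `c_i T` for the variables, over any commutative ring -/
private noncomputable def kSp {A B : Type} [CommRing A] [CommRing B] {r : ℕ} (φ : A →+* B) (c : Fin r → B) :
    MvPolynomial (Fin r) A →+* B[X] :=
  MvPolynomial.eval₂Hom (Polynomial.C.comp φ) fun i => Polynomial.C (c i) * Polynomial.X

private noncomputable def kPs {A B : Type} [CommRing A] [CommRing B] {r : ℕ} (φ : A →+* B) (c : Fin r → B) :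
    MvPolynomial (Fin r) A →+* PowerSeries B :=
  (Polynomial.coeToPowerSeries.ringHom).comp (kSp φ c)

private theorem kSp_map {A B B' : Type} [CommRing A] [CommRing B] [CommRing B'] {r : ℕ} (φ : A →+* B)
    (c : Fin r → B) (ψ : B →+* B') :
    (Polynomial.mapRingHom ψ).comp (kSp φ c) = kSp (ψ.comp φ) (fun i => ψ (c i)) := by
  apply MvPolynomial.ringHom_ext
  · intro a
    simp [kSp]
  · intro i
    simp [kSp]

private theorem kPs_map {A B B' : Type} [CommRing A] [CommRing B] [CommRing B'] {r : ℕ} (φ : A →+* B)
    (c : Fin r → B) (ψ : B →+* B') :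
    (PowerSeries.map ψ).comp (kPs φ c) = kPs (ψ.comp φ) (fun i => ψ (c i)) := by
  apply MvPolynomial.ringHom_ext
  · intro a
    simp [kPs, kSp]
  · intro i
    simp [kPs, kSp]

private theorem kPs_const {A B : Type} [CommRing A] [CommRing B] {r : ℕ} (φ : A →+* B) (c : Fin r → B) :
    (PowerSeries.constantCoeff (R := B)).comp (kPs φ c) = φ.comp MvPolynomial.constantCoeff := by
  apply MvPolynomial.ringHom_ext
  · intro a
    simp [kPs, kSp]
  · intro i
    simp [kPs, kSp]

/-- the power series root -/
private theorem kRoot {A B : Type} [CommRing A] [CommRing B] {r : ℕ} (φ : A →+* B) (c : Fin r → B)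
    (f : (MvPolynomial (Fin r) A)[X]) (hf : f.Monic) (y0 : A)
    (h0 : (f.map MvPolynomial.constantCoeff).eval y0 = 0)
    (h1 : IsUnit (φ ((f.map MvPolynomial.constantCoeff).derivative.eval y0))) :
    ∃ α : PowerSeries B, (f.map (kPs φ c)).eval α = 0 := by
  have key : ∀ g : (MvPolynomial (Fin r) A)[X], PowerSeries.constantCoeff
      ((g.map (kPs φ c)).eval (PowerSeries.C (φ y0))) = φ ((g.map MvPolynomial.constantCoeff).eval y0) := by
    intro g
    have e1 : (g.map (kPs φ c)).map (PowerSeries.constantCoeff (R := B)) =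
        (g.map MvPolynomial.constantCoeff).map φ := by
      rw [Polynomial.map_map, Polynomial.map_map, kPs_const]
    rw [← Polynomial.eval_map_apply, e1, PowerSeries.constantCoeff_C, Polynomial.eval_map_apply]
  have hm : (f.map (kPs φ c)).Monic := hf.map _
  have hdm : (f.map (kPs φ c)).derivative = (f.derivative).map (kPs φ c) := Polynomial.derivative_map _ _
  have : HenselianRing (PowerSeries B) (Ideal.span {(PowerSeries.X : PowerSeries B)}) :=
    IsAdicComplete.henselianRing _ _
  obtain ⟨α, hα, -⟩ := HenselianRing.is_henselian (R := PowerSeries B)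
    (I := Ideal.span {(PowerSeries.X : PowerSeries B)}) (f.map (kPs φ c)) hm (PowerSeries.C (φ y0))
    (by
      rw [Ideal.mem_span_singleton, PowerSeries.X_dvd_iff, key, h0, map_zero])
    (by
      apply IsUnit.map
      rw [PowerSeries.isUnit_iff_constantCoeff, hdm, key, ← Polynomial.derivative_map]
      exact h1)
  exact ⟨α, hα⟩

/-- a monic polynomial over a unique factorization domain which is irreducible: no smaller polynomial vanishes
at a power series root -/
private theorem kIndep {W : Type} [CommRing W] [IsDomain W] [UniqueFactorizationMonoid W]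
    (F : W[X][X]) (hF : F.Monic) (hirr : Irreducible F) (α : PowerSeries W)
    (hα : (F.map (Polynomial.coeToPowerSeries.ringHom (R := W))).eval α = 0) (g : W[X][X])
    (hg : g.degree < F.degree)
    (hgα : (g.map (Polynomial.coeToPowerSeries.ringHom (R := W))).eval α = 0) : g = 0 := by
  classical
  by_contra hg0
  let K := FractionRing W[X]
  have hinj : Function.Injective (algebraMap W[X] K) := IsFractionRing.injective W[X] K
  have hFK : Irreducible (F.map (algebraMap W[X] K)) :=
    (hF.irreducible_iff_irreducible_map_fraction_map).1 hirr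
  have hnd : ¬ F.map (algebraMap W[X] K) ∣ g.map (algebraMap W[X] K) := by
    intro h
    have h1 := Polynomial.degree_le_of_dvd h (by
      rw [Ne, Polynomial.map_eq_zero_iff hinj]
      exact hg0)
    rw [Polynomial.degree_map_eq_of_injective hinj, Polynomial.degree_map_eq_of_injective hinj] at h1
    exact absurd hg (not_lt.2 h1)
  obtain ⟨a, b, hab⟩ := (hFK.coprime_iff_not_dvd.2 hnd)
  obtain ⟨s, hsm, hs⟩ := IsLocalization.integerNormalization_spec (nonZeroDivisors W[X]) a
  obtain ⟨t, htm, ht⟩ := IsLocalization.integerNormalization_spec (nonZeroDivisors W[X]) b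
  set a1 := IsLocalization.integerNormalization (nonZeroDivisors W[X]) a
  set b1 := IsLocalization.integerNormalization (nonZeroDivisors W[X]) b
  have hs0 : (s : W[X]) ≠ 0 := nonZeroDivisors.ne_zero hsm
  have ht0 : (t : W[X]) ≠ 0 := nonZeroDivisors.ne_zero htm
  have key : Polynomial.C (t : W[X]) * a1 * F + Polynomial.C (s : W[X]) * b1 * g =
      Polynomial.C ((s : W[X]) * (t : W[X])) := by
    apply Polynomial.map_injective _ hinj
    simp only [Polynomial.map_add, Polynomial.map_mul, Polynomial.map_C, hs, ht, map_mul]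
    rw [Algebra.smul_def, Algebra.smul_def, IsScalarTower.algebraMap_apply W[X] K K[X],
      IsScalarTower.algebraMap_apply W[X] K K[X], Polynomial.algebraMap_eq]
    linear_combination (Polynomial.C (algebraMap W[X] K s) * Polynomial.C (algebraMap W[X] K t)) * hab
  have h2 := congrArg (fun q : W[X][X] => (q.map (Polynomial.coeToPowerSeries.ringHom (R := W))).eval α) key
  simp only [Polynomial.map_add, Polynomial.map_mul, Polynomial.map_C, Polynomial.eval_add,
    Polynomial.eval_mul, Polynomial.eval_C, hα, hgα, mul_zero, add_zero] at h2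
  have h3 : ((s : W[X]) * (t : W[X])) = 0 := by
    apply Polynomial.coe_injective W
    rw [Polynomial.coe_zero]
    exact h2.symm
  exact (mul_ne_zero hs0 ht0) h3

/-- finitely many coefficients suffice -/
private theorem kFin {B J : Type} [CommRing B] [IsDomain B] [Fintype J] [DecidableEq J] (v : J → ℕ → B)
    (hv : ∀ x : J → B, (∀ i, ∑ j, x j * v j i = 0) → x = 0) :
    ∃ (I : ℕ) (U : B) (N : J → Fin I → B), U ≠ 0 ∧
      ∀ j j', ∑ i : Fin I, N j i * v j' i = if j = j' then U else 0 := by
  classical
  let Q := FractionRing B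
  have hinj : Function.Injective (algebraMap B Q) := IsFractionRing.injective B Q
  -- independence over Q
  have hvQ : ∀ x : J → Q, (∀ i, ∑ j, x j * algebraMap B Q (v j i) = 0) → x = 0 := by
    intro x hx
    obtain ⟨b, hb⟩ := IsLocalization.exist_integer_multiples_of_finite (nonZeroDivisors B) x
    choose y hy using hb
    have hb0 : (b : B) ≠ 0 := nonZeroDivisors.ne_zero b.2
    have hy0 : y = 0 := by
      apply hv
      intro i
      apply hinj
      rw [map_zero, map_sum]
      have : ∀ j, algebraMap B Q (y j * v j i) = algebraMap B Q b * (x j * algebraMap B Q (v j i)) := by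
        intro j
        rw [map_mul, hy j, Algebra.smul_def]
        ring
      simp_rw [this]
      rw [← Finset.mul_sum, hx i, mul_zero]
    funext j
    have h1 := hy j
    rw [hy0, Pi.zero_apply, map_zero, Algebra.smul_def] at h1
    rcases mul_eq_zero.1 h1.symm with h2 | h2
    · exact absurd (hinj (by rw [h2, map_zero])) hb0
    · exact h2
  -- the linear maps
  let M : ∀ I : ℕ, (J → Q) →ₗ[Q] (Fin I → Q) := fun I =>
    { toFun := fun x i => ∑ j, x j * algebraMap B Q (v j i)
      map_add' := by
        intro x y
        funext i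
        simp [add_mul, Finset.sum_add_distrib]
      map_smul' := by
        intro c x
        funext i
        change ∑ j, (c • x) j * _ = c * ∑ j, x j * _
        rw [Finset.mul_sum]
        exact Finset.sum_congr rfl fun j _ => by simp [mul_assoc] }
  have hM : ∀ I x i, M I x i = ∑ j, x j * algebraMap B Q (v j i) := fun _ _ _ => rfl
  let S : ℕ →o (Submodule Q (J → Q))ᵒᵈ :=
    { toFun := fun I => OrderDual.toDual (LinearMap.ker (M I))
      monotone' := by
        intro a b hab
        change LinearMap.ker (M b) ≤ LinearMap.ker (M a)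
        intro x hx
        rw [LinearMap.mem_ker] at hx ⊢
        funext i
        have h1 := congrFun hx (Fin.castLE hab i)
        rw [hM] at h1 ⊢
        exact h1 }
  obtain ⟨I, hI⟩ := IsArtinian.monotone_stabilizes (R := Q) (M := J → Q) S
  have hker : LinearMap.ker (M I) = ⊥ := by
    rw [LinearMap.ker_eq_bot']
    intro x hx
    apply hvQ
    intro i
    have h1 : x ∈ LinearMap.ker (M (I + i + 1)) := by
      have h2 := hI (I + i + 1) (by omega)
      have h3 : LinearMap.ker (M I) = LinearMap.ker (M (I + i + 1)) := h2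
      rw [← h3]
      exact hx
    rw [LinearMap.mem_ker] at h1
    have h4 := congrFun h1 ⟨i, by omega⟩
    rw [hM] at h4
    exact h4
  obtain ⟨N, hN⟩ := LinearMap.exists_leftInverse_of_injective (M I) hker
  obtain ⟨b, hb⟩ := IsLocalization.exist_integer_multiples_of_finite (nonZeroDivisors B)
    (fun p : J × Fin I => N (Pi.single p.2 1) p.1)
  choose y hy using hb
  have hb0 : (b : B) ≠ 0 := nonZeroDivisors.ne_zero b.2
  refine ⟨I, b, fun j i => y (j, i), hb0, ?_⟩
  intro j j'
  apply hinj
  have h1 := congrArg (fun l : (J → Q) →ₗ[Q] (J → Q) => l (Pi.single j' 1) j) hN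
  simp only [LinearMap.comp_apply, LinearMap.id_apply] at h1
  have h2 : M I (Pi.single j' 1) = ∑ i : Fin I, algebraMap B Q (v j' i) • Pi.single i (1 : Q) := by
    funext i
    rw [hM, Finset.sum_apply, Finset.sum_eq_single j', Finset.sum_eq_single i]
    · simp
    · intro k _ hk
      simp [Ne.symm hk]
    · simp
    · intro k _ hk
      simp [hk]
    · simp
  rw [h2, map_sum, Finset.sum_apply] at h1
  simp only [map_smul, Pi.smul_apply, smul_eq_mul] at h1
  rw [map_sum]
  have h3 : ∀ i : Fin I, algebraMap B Q (y (j, i) * v j' i) =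
      algebraMap B Q b * (algebraMap B Q (v j' i) * N (Pi.single i 1) j) := by
    intro i
    rw [map_mul, hy (j, i), Algebra.smul_def]
    ring
  simp_rw [h3]
  rw [← Finset.mul_sum, h1, Pi.single_apply]
  split_ifs <;> simp

/-- the bivariate polynomial with given coefficients -/
private noncomputable def kG {B : Type} [CommRing B] {e d : ℕ} (x : Fin (e + 1) × Fin d → B) : B[X][X] :=
  ∑ j : Fin (e + 1) × Fin d, Polynomial.monomial j.2.1 (Polynomial.monomial j.1.1 (x j))

private theorem kG_coeff {B : Type} [CommRing B] {e d : ℕ} (x : Fin (e + 1) × Fin d → B)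
    (j : Fin (e + 1) × Fin d) : ((kG x).coeff j.2.1).coeff j.1.1 = x j := by
  classical
  rw [kG, Polynomial.finsetSum_coeff, Polynomial.finsetSum_coeff, Finset.sum_eq_single j]
  · simp
  · intro k _ hk
    rw [Polynomial.coeff_monomial]
    split_ifs with h
    · rw [Polynomial.coeff_monomial, if_neg]
      intro h'
      exact hk (Prod.ext (Fin.ext h') (Fin.ext h))
    · simp
  · simp

private theorem kG_degree {B : Type} [CommRing B] {e d : ℕ} (x : Fin (e + 1) × Fin d → B) :
    (kG x).degree < d := by
  rw [Polynomial.degree_lt_iff_coeff_zero]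
  intro m hm
  rw [kG, Polynomial.finsetSum_coeff, Finset.sum_eq_zero]
  intro k _
  rw [Polynomial.coeff_monomial, if_neg]
  have := k.2.2
  omega

private theorem kG_eval {B : Type} [CommRing B] {e d : ℕ} (x : Fin (e + 1) × Fin d → B) (α : PowerSeries B)
    (i : ℕ) : PowerSeries.coeff i
      (((kG x).map (Polynomial.coeToPowerSeries.ringHom (R := B))).eval α) =
      ∑ j, x j * PowerSeries.coeff i (PowerSeries.X ^ j.1.1 * α ^ j.2.1) := by
  rw [kG, Polynomial.map_sum, Polynomial.eval_finsetSum, map_sum]
  apply Finset.sum_congr rfl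
  intro j _
  rw [Polynomial.map_monomial, Polynomial.eval_monomial]
  have h1 : Polynomial.coeToPowerSeries.ringHom (R := B) (Polynomial.monomial j.1.1 (x j)) =
      PowerSeries.C (x j) * PowerSeries.X ^ j.1.1 := by
    rw [← Polynomial.C_mul_X_pow_eq_monomial]
    simp
  rw [h1, mul_assoc, PowerSeries.coeff_C_mul]

private theorem kG_of {B : Type} [CommRing B] {e d : ℕ} (g : B[X][X]) (hd : g.degree < d)
    (he : ∀ b, (g.coeff b).natDegree ≤ e) :
    g = kG (e := e) (d := d) fun j => (g.coeff j.2.1).coeff j.1.1 := by
  classical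
  ext b a
  rw [kG, Polynomial.finsetSum_coeff, Polynomial.finsetSum_coeff]
  by_cases hb : b < d
  · by_cases ha : a < e + 1
    · rw [Finset.sum_eq_single (⟨⟨a, ha⟩, ⟨b, hb⟩⟩ : Fin (e + 1) × Fin d)]
      · simp
      · intro k _ hk
        rw [Polynomial.coeff_monomial]
        split_ifs with h
        · rw [Polynomial.coeff_monomial, if_neg]
          intro h'
          exact hk (Prod.ext (Fin.ext h') (Fin.ext h))
        · simp
      · simp
    · rw [Polynomial.coeff_eq_zero_of_natDegree_lt (lt_of_le_of_lt (he b) (by omega)),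
        Finset.sum_eq_zero]
      intro k _
      rw [Polynomial.coeff_monomial]
      split_ifs with h
      · rw [Polynomial.coeff_monomial, if_neg]
        have := k.1.2
        omega
      · simp
  · rw [Polynomial.coeff_eq_zero_of_degree_lt (lt_of_lt_of_le hd (by exact_mod_cast not_lt.1 hb)),
      Finset.sum_eq_zero]
    · simp
    · intro k _
      rw [Polynomial.coeff_monomial, if_neg]
      · simp
      · have := k.2.2
        omega

/-- degree of the substitution -/
private theorem kSp_natDegree {A B : Type} [CommRing A] [CommRing B] {r : ℕ} (φ : A →+* B) (c : Fin r → B)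
    (p : MvPolynomial (Fin r) A) : (kSp φ c p).natDegree ≤ p.totalDegree := by
  rw [kSp, MvPolynomial.coe_eval₂Hom, MvPolynomial.eval₂_eq]
  apply Polynomial.natDegree_sum_le_of_forall_le
  intro s hs
  refine le_trans (Polynomial.natDegree_mul_le) ?_
  rw [RingHom.comp_apply, Polynomial.natDegree_C, zero_add]
  refine le_trans (Polynomial.natDegree_prod_le _ _) ?_
  refine le_trans (Finset.sum_le_sum (fun i _ => ?_)) (MvPolynomial.le_totalDegree hs)
  refine le_trans Polynomial.natDegree_pow_le ?_
  calc s i * (Polynomial.C (c i) * Polynomial.X : B[X]).natDegree ≤ s i * 1 :=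
        Nat.mul_le_mul_left _ (le_trans (Polynomial.natDegree_C_mul_le _ _) Polynomial.natDegree_X_le)
    _ = s i := mul_one _

private theorem kSwap_coeff {B : Type} [CommRing B] (p : B[X][X]) (a b : ℕ) :
    ((Polynomial.Bivariate.swap p).coeff a).coeff b = (p.coeff b).coeff a := by
  induction p using Polynomial.induction_on' with
  | add p q hp hq => simp only [map_add, Polynomial.coeff_add, hp, hq]
  | monomial n q =>
    induction q using Polynomial.induction_on' with
    | add p q hp hq => simp only [map_add, Polynomial.coeff_add, hp, hq]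
    | monomial m r =>
      rw [Polynomial.Bivariate.swap_monomial_monomial, Polynomial.coeff_monomial, Polynomial.coeff_monomial]
      split_ifs with h1 h2 h2
      · rw [h1, h2, Polynomial.coeff_monomial, Polynomial.coeff_monomial, if_pos rfl, if_pos rfl]
      · rw [Polynomial.coeff_monomial, if_neg h2, Polynomial.coeff_zero]
      · rw [Polynomial.coeff_monomial, if_neg h1, Polynomial.coeff_zero]
      · simp

/-- a factor has no larger degree in the coefficients variable -/
private theorem kFac {L : Type} [Field L] (g h : L[X][X]) (hg : g ≠ 0) (hh : h ≠ 0) (e : ℕ)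
    (he : ∀ b, ((g * h).coeff b).natDegree ≤ e) (b : ℕ) : (g.coeff b).natDegree ≤ e := by
  have h1 : (Polynomial.Bivariate.swap (g * h)).natDegree ≤ e := by
    rw [Polynomial.natDegree_le_iff_coeff_eq_zero]
    intro a ha
    ext b
    rw [kSwap_coeff, Polynomial.coeff_zero]
    exact Polynomial.coeff_eq_zero_of_natDegree_lt (lt_of_le_of_lt (he b) ha)
  have hsg : Polynomial.Bivariate.swap g ≠ 0 := fun h => hg ((map_eq_zero_iff _
    (Polynomial.Bivariate.swap (R := L)).injective).1 h)
  have hsh : Polynomial.Bivariate.swap h ≠ 0 := fun h => hh ((map_eq_zero_iff _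
    (Polynomial.Bivariate.swap (R := L)).injective).1 h)
  rw [map_mul, Polynomial.natDegree_mul hsg hsh] at h1
  rw [Polynomial.natDegree_le_iff_coeff_eq_zero]
  intro a ha
  rw [← kSwap_coeff]
  have : (Polynomial.Bivariate.swap g).coeff a = 0 :=
    Polynomial.coeff_eq_zero_of_natDegree_lt (by omega)
  rw [this, Polynomial.coeff_zero]

private theorem kClr {A : Type} [CommRing A] (D : A) {r : ℕ}
    (p : MvPolynomial (Fin r) (Localization.Away D)) :
    ∃ (k : ℕ) (q : MvPolynomial (Fin r) A), MvPolynomial.map (algebraMap A (Localization.Away D)) q =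
      MvPolynomial.C (algebraMap A (Localization.Away D) D ^ k) * p := by
  induction p using MvPolynomial.induction_on with
  | C a =>
    obtain ⟨⟨x, y⟩, hxy⟩ := IsLocalization.surj (Submonoid.powers D) a
    obtain ⟨k, hk⟩ := y.2
    refine ⟨k, MvPolynomial.C x, ?_⟩
    rw [MvPolynomial.map_C, ← map_mul]
    congr 1
    have h1 : (algebraMap A (Localization.Away D)) D ^ k = algebraMap A (Localization.Away D) (y : A) := by
      rw [← map_pow]
      exact congrArg _ hk
    rw [h1, mul_comm]
    exact hxy.symm
  | add p q hp hq =>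
    obtain ⟨k, p', hp'⟩ := hp
    obtain ⟨l, q', hq'⟩ := hq
    refine ⟨k + l, MvPolynomial.C (D ^ l) * p' + MvPolynomial.C (D ^ k) * q', ?_⟩
    simp only [map_add, map_mul, map_pow, hp', hq', MvPolynomial.map_C, pow_add]
    ring
  | mul_X p i hp =>
    obtain ⟨k, p', hp'⟩ := hp
    refine ⟨k, p' * MvPolynomial.X i, ?_⟩
    rw [map_mul, hp', MvPolynomial.map_X, mul_assoc]

private theorem kKey {B L : Type} [CommRing B] [Field L] (ψ : B →+* L) {e d : ℕ} (α : PowerSeries B)
    (I : ℕ) (U : B) (N : Fin (e + 1) × Fin d → Fin I → B)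
    (hN : ∀ j j', ∑ i : Fin I, N j i * PowerSeries.coeff (i : ℕ) (PowerSeries.X ^ j'.1.1 * α ^ j'.2.1) =
      if j = j' then U else 0) (hU : ψ U ≠ 0) (g : L[X][X]) (hg0 : g ≠ 0) (hd : g.degree < d)
    (he : ∀ b, (g.coeff b).natDegree ≤ e)
    (hα : (g.map (Polynomial.coeToPowerSeries.ringHom (R := L))).eval (PowerSeries.map ψ α) = 0) : False := by
  classical
  set x : Fin (e + 1) × Fin d → L := fun j => (g.coeff j.2.1).coeff j.1.1 with hx
  have hgx : g = kG x := kG_of g hd he
  have h1 : ∀ i, ∑ j, x j * ψ (PowerSeries.coeff i (PowerSeries.X ^ j.1.1 * α ^ j.2.1)) = 0 := by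
    intro i
    have h2 := kG_eval x (PowerSeries.map ψ α) i
    rw [← hgx, hα, map_zero] at h2
    rw [h2]
    apply Finset.sum_congr rfl
    intro j _
    have e9 : PowerSeries.map ψ (PowerSeries.X ^ j.1.1 * α ^ j.2.1) =
        PowerSeries.X ^ j.1.1 * (PowerSeries.map ψ α) ^ j.2.1 := by
      rw [map_mul, map_pow, map_pow, PowerSeries.map_X]
    rw [← e9, PowerSeries.coeff_map]
  have h3 : ∀ j, x j = 0 := by
    intro j
    have h4 : ∑ i : Fin I, ψ (N j i) * ∑ j', x j' *
        ψ (PowerSeries.coeff (i : ℕ) (PowerSeries.X ^ j'.1.1 * α ^ j'.2.1)) = 0 := by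
      apply Finset.sum_eq_zero
      intro i _
      rw [h1, mul_zero]
    have h5 : ∑ i : Fin I, ψ (N j i) * ∑ j', x j' *
        ψ (PowerSeries.coeff (i : ℕ) (PowerSeries.X ^ j'.1.1 * α ^ j'.2.1)) = ψ U * x j := by
      simp_rw [Finset.mul_sum]
      rw [Finset.sum_comm]
      have h6 : ∀ j', ∑ i : Fin I, ψ (N j i) * (x j' *
          ψ (PowerSeries.coeff (i : ℕ) (PowerSeries.X ^ j'.1.1 * α ^ j'.2.1))) =
          x j' * ψ (if j = j' then U else 0) := by
        intro j'
        rw [← hN j j', map_sum, Finset.mul_sum]
        apply Finset.sum_congr rfl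
        intro i _
        rw [map_mul ψ (N j i)]
        ring
      simp_rw [h6]
      rw [Finset.sum_eq_single j]
      · rw [if_pos rfl, mul_comm]
      · intro k _ hk
        rw [if_neg (Ne.symm hk), map_zero, mul_zero]
      · simp
    rw [h5] at h4
    rcases mul_eq_zero.1 h4 with h | h
    · exact absurd h hU
    · exact h
  apply hg0
  rw [hgx, kG]
  apply Finset.sum_eq_zero
  intro j _
  rw [h3 j, Polynomial.monomial_zero_right, Polynomial.monomial_zero_right]

private theorem kTr {A B L : Type} [CommRing A] [CommRing B] [CommRing L] {r : ℕ}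
    (f : (MvPolynomial (Fin r) A)[X]) (φB : A →+* B) (cB : Fin r → B) (ψ : B →+* L) (φ : A →+* L)
    (c : Fin r → L) (hφ : ψ.comp φB = φ) (hc : ∀ i, ψ (cB i) = c i) (α : PowerSeries B)
    (hα : (f.map (kPs φB cB)).eval α = 0) :
    ((f.map (kSp φ c)).map (Polynomial.coeToPowerSeries.ringHom (R := L))).eval (PowerSeries.map ψ α) = 0 := by
  have e1 : (f.map (kSp φ c)).map (Polynomial.coeToPowerSeries.ringHom (R := L)) =
      (f.map (kPs φB cB)).map (PowerSeries.map ψ) := by
    rw [Polynomial.map_map, Polynomial.map_map, kPs_map, hφ, funext hc]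
    rfl
  rw [e1, Polynomial.eval_map_apply, hα, map_zero]

private theorem kInj {A E : Type} [CommRing A] [IsDomain A] [Field E] (ι : A →+* E)
    (hι : Function.Injective ι) (D : A) (hD : IsUnit (ι D)) :
    Function.Injective (IsLocalization.Away.lift (S := Localization.Away D) D hD) := by
  rw [injective_iff_map_eq_zero]
  intro a ha
  obtain ⟨⟨x, y⟩, hxy⟩ := IsLocalization.surj (Submonoid.powers D) a
  have h1 := congrArg (IsLocalization.Away.lift (S := Localization.Away D) D hD) hxy
  simp only at h1
  rw [map_mul, ha, zero_mul, IsLocalization.Away.lift_eq] at h1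
  have hx : x = 0 := hι (by rw [← h1, map_zero])
  rw [hx, map_zero] at hxy
  have hu : IsUnit (algebraMap A (Localization.Away D) (y : A)) := IsLocalization.map_units _ y
  exact (hu.mul_left_eq_zero).1 hxy

theorem kalt {A E : Type} [CommRing A] [Field E] (ι : A →+* E) (hι : Function.Injective ι) {r : ℕ}
    (f : (MvPolynomial (Fin r) A)[X]) (hf : f.Monic) (y0 : A)
    (h0 : (f.map MvPolynomial.constantCoeff).eval y0 = 0)
    (h1 : (f.map MvPolynomial.constantCoeff).derivative.eval y0 ≠ 0)
    (hirr : Irreducible (f.map (MvPolynomial.map ι))) :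
    ∃ U : MvPolynomial (Fin r) A, U ≠ 0 ∧ ∀ (L : Type) [Field L] (φ : A →+* L) (c : Fin r → L),
      φ ((f.map MvPolynomial.constantCoeff).derivative.eval y0) ≠ 0 → MvPolynomial.eval₂ φ c U ≠ 0 →
        Irreducible (f.map (spc φ c)) := by
  classical
  have hdom : IsDomain A := hι.isDomain ι
  set D : A := (f.map MvPolynomial.constantCoeff).derivative.eval y0 with hD
  -- the localization and the polynomial ring over it
  let A1 := Localization.Away D
  have hD0 : D ≠ 0 := h1
  have hpow : Submonoid.powers D ≤ nonZeroDivisors A := powers_le_nonZeroDivisors_of_noZeroDivisors hD0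
  have hdomA1 : IsDomain A1 := IsLocalization.isDomain_localization hpow
  let B := MvPolynomial (Fin r) A1
  let W := MvPolynomial (Fin r) E
  let φB : A →+* B := (MvPolynomial.C).comp (algebraMap A A1)
  have hDu : IsUnit (φB D) := by
    rw [RingHom.comp_apply]
    exact (IsLocalization.Away.algebraMap_isUnit D).map _
  obtain ⟨α, hα⟩ := kRoot φB (fun i => (MvPolynomial.X i : B)) f hf y0 h0 hDu
  have hιD : IsUnit (ι D) := by
    rw [isUnit_iff_ne_zero, Ne, map_eq_zero_iff ι hι]
    exact hD0
  let ι1 : A1 →+* E := IsLocalization.Away.lift (S := Localization.Away D) D hιD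
  have hι1 : Function.Injective ι1 := kInj ι hι D hιD
  let κ : B →+* W := MvPolynomial.map ι1
  have hκ : Function.Injective κ := MvPolynomial.map_injective _ hι1
  -- the polynomial over W
  let φW : A →+* W := (MvPolynomial.C).comp ι
  let F : W[X][X] := f.map (kSp φW fun i => (MvPolynomial.X i : W))
  have hFm : F.Monic := hf.map _
  have hκφ : κ.comp φB = φW := by
    refine RingHom.ext fun a => ?_
    change MvPolynomial.map ι1 (MvPolynomial.C (algebraMap A A1 a)) = MvPolynomial.C (ι a)
    rw [MvPolynomial.map_C]
    exact congrArg _ (IsLocalization.Away.lift_eq (S := A1) D hιD a)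
  have hFi : Irreducible F := by
    apply hFm.irreducible_of_irreducible_map (Polynomial.evalRingHom (1 : W))
    have e1 : (Polynomial.evalRingHom (1 : W)).comp (kSp φW fun i => (MvPolynomial.X i : W)) =
        MvPolynomial.map ι := by
      apply MvPolynomial.ringHom_ext
      · intro a
        simp only [kSp, φW, RingHom.comp_apply, MvPolynomial.coe_eval₂Hom, MvPolynomial.eval₂_C]
        rw [Polynomial.coe_evalRingHom, Polynomial.eval_C]
        exact (MvPolynomial.map_C _ _).symm
      · intro i
        simp only [kSp, RingHom.comp_apply, MvPolynomial.coe_eval₂Hom, MvPolynomial.eval₂_X]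
        rw [Polynomial.coe_evalRingHom, Polynomial.eval_mul, Polynomial.eval_C, Polynomial.eval_X, mul_one]
        exact (MvPolynomial.map_X _ _).symm
    have e2 : F.map (Polynomial.evalRingHom (1 : W)) = f.map (MvPolynomial.map ι) := by
      rw [Polynomial.map_map, e1]
    rw [e2]
    exact hirr
  have hFα : (F.map (Polynomial.coeToPowerSeries.ringHom (R := W))).eval (PowerSeries.map κ α) = 0 :=
    kTr f φB (fun i => (MvPolynomial.X i : B)) κ φW (fun i => (MvPolynomial.X i : W)) hκφ
      (fun i => MvPolynomial.map_X _ _) α hα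
  set d := f.natDegree with hd
  set e := (Finset.range (d + 1)).sup fun b => (f.coeff b).totalDegree with he
  have hFd : F.degree = d := by
    rw [hf.degree_map, Polynomial.degree_eq_natDegree hf.ne_zero]
  -- independence
  have hv : ∀ x : Fin (e + 1) × Fin d → B, (∀ i, ∑ j, x j *
      PowerSeries.coeff i (PowerSeries.X ^ j.1.1 * α ^ j.2.1) = 0) → x = 0 := by
    intro x hx
    have hg : kG (fun j => κ (x j)) = 0 := by
      apply kIndep F hFm hFi (PowerSeries.map κ α) hFα
      · rw [hFd]
        exact kG_degree _
      · refine PowerSeries.ext fun i => ?_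
        rw [kG_eval, map_zero]
        have h2 := congrArg κ (hx i)
        rw [map_zero, map_sum] at h2
        rw [← h2]
        apply Finset.sum_congr rfl
        intro j _
        have e9 : PowerSeries.map κ (PowerSeries.X ^ j.1.1 * α ^ j.2.1) =
            PowerSeries.X ^ j.1.1 * (PowerSeries.map κ α) ^ j.2.1 := by
          rw [map_mul, map_pow, map_pow, PowerSeries.map_X]
        rw [map_mul κ (x j), ← e9, PowerSeries.coeff_map]
    funext j
    apply hκ
    have h3 := kG_coeff (fun j => κ (x j)) j
    rw [hg] at h3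
    rw [Pi.zero_apply, map_zero, ← h3, Polynomial.coeff_zero, Polynomial.coeff_zero]
  obtain ⟨I, U0, N, hU0, hN⟩ := kFin (fun (j : Fin (e + 1) × Fin d) i =>
    PowerSeries.coeff i (PowerSeries.X ^ j.1.1 * α ^ j.2.1)) hv
  obtain ⟨k, U, hU⟩ := kClr D U0
  have hdp : 0 < d := by
    by_contra hcon
    have h5 : f = 1 := hf.natDegree_eq_zero.1 (by omega)
    rw [h5, Polynomial.map_one] at hirr
    exact hirr.not_isUnit isUnit_one
  refine ⟨U, ?_, ?_⟩
  · intro hUz
    rw [hUz, map_zero] at hU
    rcases mul_eq_zero.1 hU.symm with h6 | h6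
    · rw [map_eq_zero_iff _ (MvPolynomial.C_injective (Fin r) A1)] at h6
      have h8 : (algebraMap A A1) D = 0 := by
        by_contra h9
        exact (pow_ne_zero k h9) h6
      exact hD0 (IsLocalization.injective A1 hpow (by rw [h8, map_zero]))
    · exact hU0 h6
  · intro L _ φ c hφD hφU
    have hφDu : IsUnit (φ D) := isUnit_iff_ne_zero.2 hφD
    let φ1 : A1 →+* L := IsLocalization.Away.lift (S := Localization.Away D) D hφDu
    let ψ : B →+* L := MvPolynomial.eval₂Hom φ1 c
    have hφ1 : φ1.comp (algebraMap A A1) = φ :=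
      RingHom.ext fun a => IsLocalization.Away.lift_eq (S := A1) D hφDu a
    have hψU : ψ U0 ≠ 0 := by
      intro h6
      apply hφU
      have h7 : MvPolynomial.eval₂ φ c U = ψ (MvPolynomial.map (algebraMap A A1) U) := by
        change _ = MvPolynomial.eval₂ φ1 c (MvPolynomial.map (algebraMap A A1) U)
        rw [MvPolynomial.eval₂_map, hφ1]
      rw [h7, hU, map_mul, h6, mul_zero]
    have hroot : ((f.map (spc φ c)).map (Polynomial.coeToPowerSeries.ringHom (R := L))).eval
        (PowerSeries.map ψ α) = 0 :=
      kTr f φB (fun i => (MvPolynomial.X i : B)) ψ φ c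
        (RingHom.ext fun a => by
          change MvPolynomial.eval₂ φ1 c (MvPolynomial.C (algebraMap A A1 a)) = φ a
          rw [MvPolynomial.eval₂_C]
          exact IsLocalization.Away.lift_eq (S := A1) D hφDu a)
        (fun i => MvPolynomial.eval₂_X _ _ _) α hα
    have hm : (f.map (spc φ c)).Monic := hf.map _
    have hdeg : (f.map (spc φ c)).natDegree = d := hf.natDegree_map _
    have hcoef : ∀ b, ((f.map (spc φ c)).coeff b).natDegree ≤ e := by
      intro b
      rw [Polynomial.coeff_map]
      by_cases hb : b < d + 1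
      · exact le_trans (kSp_natDegree φ c (f.coeff b)) (Finset.le_sup
          (f := fun b => (f.coeff b).totalDegree) (Finset.mem_range.2 hb))
      · rw [Polynomial.coeff_eq_zero_of_natDegree_lt (by omega), map_zero]
        simp
    rw [hm.irreducible_iff_natDegree]
    refine ⟨?_, ?_⟩
    · intro h
      rw [h, Polynomial.natDegree_one] at hdeg
      omega
    · intro g h hg hh hgh
      by_contra hcon
      push Not at hcon
      have hsum : g.natDegree + h.natDegree = d := by
        rw [← hdeg, ← hgh, hg.natDegree_mul hh]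
      have hgd : g.degree < d := by
        rw [Polynomial.degree_eq_natDegree hg.ne_zero]
        exact_mod_cast (by omega : g.natDegree < d)
      have hhd : h.degree < d := by
        rw [Polynomial.degree_eq_natDegree hh.ne_zero]
        exact_mod_cast (by omega : h.natDegree < d)
      rw [← hgh, Polynomial.map_mul, Polynomial.eval_mul] at hroot
      rcases mul_eq_zero.1 hroot with h4 | h4
      · exact kKey ψ α I U0 N hN hψU g hg.ne_zero hgd
          (kFac g h hg.ne_zero hh.ne_zero e (by rw [hgh]; exact hcoef)) h4
      · exact kKey ψ α I U0 N hN hψU h hh.ne_zero hhd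
          (kFac h g hh.ne_zero hg.ne_zero e (by rw [mul_comm, hgh]; exact hcoef)) h4

end LW
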