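import Mathlib

/-!
# LEAF M9: Schwartz-Zippel over a subfield

PROOF.  `MvPolynomial.schwartz_zippel_totalDegree` (Mathlib/Algebra/MvPolynomial/SchwartzZippel.lean) with the finite set `S = image of ι`, `#S = card F` (`ι` is injective, `F` a field); the tuples `c` correspond to the functions in `Fintype.piFinset (fun _ => S)`.  Multiply out: `#{..} * card F ≤ totalDegree U * card F ^ r` (for `r = 0` the polynomial is a nonzero constant and the set is empty).
-/

namespace LW

theorem sz {F E : Type} [Field F] [Fintype F] [Field E] (ι : F →+* E) {r : ℕ} (U : MvPolynomial (Fin r) E)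
    (hU : U ≠ 0) : Nat.card {c : Fin r → F // MvPolynomial.eval (fun i => ι (c i)) U = 0} * Fintype.card F ≤
      U.totalDegree * Fintype.card F ^ r := by
  classical
  have hinj : Function.Injective ι := ι.injective
  let S : Finset E := Finset.univ.image ι
  have hS : S.card = Fintype.card F := by
    rw [Finset.card_image_of_injective _ hinj, Finset.card_univ]
  have hcard : Nat.card {c : Fin r → F // MvPolynomial.eval (fun i => ι (c i)) U = 0} ≤
      (Finset.filter (fun f => MvPolynomial.eval f U = 0)
        (Fintype.piFinset (fun _ : Fin r => S))).card := by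
    rw [Nat.card_eq_fintype_card, Fintype.card_subtype]
    apply Finset.card_le_card_of_injOn (fun c => fun i => ι (c i))
    · intro c hc
      simp only [Finset.coe_filter, Finset.mem_univ, true_and, Set.mem_ofPred_eq] at hc
      simp only [Finset.coe_filter, Set.mem_ofPred_eq, Fintype.mem_piFinset]
      exact ⟨fun i => Finset.mem_image_of_mem _ (Finset.mem_univ _), hc⟩
    · intro c _ d _ h
      funext i
      exact hinj (congrFun h i)
  have hsz := MvPolynomial.schwartz_zippel_totalDegree hU S
  rw [hS] at hsz
  have hF : (0 : ℚ≥0) < (Fintype.card F : ℚ≥0) := by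
    exact_mod_cast Fintype.card_pos
  have hFr : (0 : ℚ≥0) < (Fintype.card F : ℚ≥0) ^ r := pow_pos hF r
  rw [div_le_div_iff₀ hFr hF] at hsz
  have h2 : (Finset.filter (fun f => MvPolynomial.eval f U = 0)
        (Fintype.piFinset (fun _ : Fin r => S))).card * Fintype.card F ≤
        U.totalDegree * Fintype.card F ^ r := by
    exact_mod_cast hsz
  exact (Nat.mul_le_mul_right _ hcard).trans h2

end LW
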