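import Pool.Agent.Lib.LW.Curve
import Pool.Agent.Lib.LW.Kalt
import Pool.Agent.Lib.LW.M9
import Pool.Agent.Lib.LW.H4
import Pool.Agent.Lib.LW.H5
import Pool.Agent.Lib.LW.H6
import Pool.Agent.Lib.LW.H7
import Pool.Agent.Lib.LW.H8
import Pool.Agent.Lib.LW.H9
import Pool.Agent.Lib.LW.H13

/-! Assembly H11: the count when the fibre over the origin is étale. -/

namespace LW

open Polynomial NumberField

theorem hyp0' (k : ℕ) (hk : 1 ≤ k) (K : Type) [Field K] [NumberField K] {r : ℕ} (g : (MvPolynomial (Fin r) (𝓞 K))[X]) (hg : g.Monic)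
    (hirr : Irreducible (g.map (MvPolynomial.map (algebraMap (𝓞 K) (AlgebraicClosure K)))))
    (hs : ((g.map MvPolynomial.constantCoeff).map (algebraMap (𝓞 K) (AlgebraicClosure K))).Separable) :
    ∃ p0 : ℕ, ∀ (p : ℕ) [Fact p.Prime], p0 ≤ p → ∀ φ : 𝓞 K →+* ZMod p,
      k * Nat.card {z : (Fin r → ZMod p) × ZMod p // (g.map (MvPolynomial.eval₂Hom φ z.1)).eval z.2 = 0} ≤
        (k + 1) * p ^ r := by
  classical
  have hd : g.natDegree ≠ 0 := by
    intro h0
    have h1 : g = 1 := hg.natDegree_eq_zero.mp h0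
    apply hirr.not_isUnit
    rw [h1, Polynomial.map_one]
    exact isUnit_one
  have hcomp : (algebraMap (integralClosure (𝓞 K) (AlgebraicClosure K)) (AlgebraicClosure K)).comp
      (algebraMap (𝓞 K) (integralClosure (𝓞 K) (AlgebraicClosure K))) =
      algebraMap (𝓞 K) (AlgebraicClosure K) :=
    (IsScalarTower.algebraMap_eq (𝓞 K) (integralClosure (𝓞 K) (AlgebraicClosure K)) (AlgebraicClosure K)).symm
  have hι : Function.Injective
      (algebraMap (integralClosure (𝓞 K) (AlgebraicClosure K)) (AlgebraicClosure K)) :=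
    Subtype.val_injective
  have hKΩ : Function.Injective (algebraMap (𝓞 K) (AlgebraicClosure K)) := by
    rw [IsScalarTower.algebraMap_eq (𝓞 K) K (AlgebraicClosure K)]
    exact (algebraMap K (AlgebraicClosure K)).injective.comp (FaithfulSMul.algebraMap_injective (𝓞 K) K)
  have hα : Function.Injective (algebraMap (𝓞 K) (integralClosure (𝓞 K) (AlgebraicClosure K))) := by
    intro x y hxy
    apply hKΩ
    rw [← hcomp, RingHom.comp_apply, RingHom.comp_apply, hxy]
  have : CharZero (integralClosure (𝓞 K) (AlgebraicClosure K)) := charZero_of_injective_algebraMap hα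
  have hint : ∀ a : integralClosure (𝓞 K) (AlgebraicClosure K), IsIntegral ℤ a := fun a =>
    isIntegral_trans (R := ℤ) (A := 𝓞 K) a (integralClosure.isIntegral a)
  obtain ⟨y0, hy0, hy1⟩ := root (R := 𝓞 K) (E := AlgebraicClosure K) (g.map MvPolynomial.constantCoeff)
    (hg.map _) (by rw [hg.natDegree_map]; exact hd) hs
  have hgA : (g.map (MvPolynomial.map (algebraMap (𝓞 K) (integralClosure (𝓞 K) (AlgebraicClosure K))))).map
      MvPolynomial.constantCoeff = (g.map MvPolynomial.constantCoeff).map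
        (algebraMap (𝓞 K) (integralClosure (𝓞 K) (AlgebraicClosure K))) := by
    rw [Polynomial.map_map, Polynomial.map_map, MvPolynomial.constantCoeff_comp_map]
  obtain ⟨U, hU, hkal⟩ := kalt _ hι
    (g.map (MvPolynomial.map (algebraMap (𝓞 K) (integralClosure (𝓞 K) (AlgebraicClosure K))))) (hg.map _) y0
    (by rw [hgA]; exact hy0) (by rw [hgA]; exact hy1)
    (by
      rw [Polynomial.map_map]
      have h : (MvPolynomial.map (σ := Fin r)
          (algebraMap (integralClosure (𝓞 K) (AlgebraicClosure K)) (AlgebraicClosure K))).comp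
          (MvPolynomial.map (algebraMap (𝓞 K) (integralClosure (𝓞 K) (AlgebraicClosure K)))) =
          MvPolynomial.map (algebraMap (𝓞 K) (AlgebraicClosure K)) := by
        refine RingHom.ext fun q => ?_
        rw [RingHom.comp_apply, MvPolynomial.map_map, hcomp]
      rw [h]
      exact hirr)
  rw [hgA] at hkal
  obtain ⟨m, hm⟩ := MvPolynomial.ne_zero_iff.1 hU
  obtain ⟨M1, hM1⟩ := nzA (U.coeff m) hm (hint _)
  obtain ⟨M2, hM2⟩ := nzA _ hy1 (hint _)
  obtain ⟨C, c, hcur⟩ := curve_le' (4 * k) (by omega)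
  obtain ⟨n, hn1, hn⟩ : ∃ n : ℕ, 1 ≤ n ∧ ∀ i, g.coeff i ≠ 0 → (g.coeff i).totalDegree + i ≤ n := by
    refine ⟨g.natDegree + (Finset.range (g.natDegree + 1)).sup (fun i => (g.coeff i).totalDegree) + 1,
      by omega, fun i hi => ?_⟩
    have h1 : i ≤ g.natDegree := Polynomial.le_natDegree_of_ne_zero hi
    have h2 : (g.coeff i).totalDegree ≤
        (Finset.range (g.natDegree + 1)).sup (fun i => (g.coeff i).totalDegree) :=
      Finset.le_sup (f := fun i => (g.coeff i).totalDegree) (Finset.mem_range.mpr (by omega))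
    omega
  refine ⟨M1 + M2 + 1 + C * n ^ c + 4 * k * (g.natDegree * U.totalDegree + 2), fun p _ hp φ => ?_⟩
  have hpp : p.Prime := Fact.out
  obtain ⟨φ', hφ'⟩ := ext_hom (A := integralClosure (𝓞 K) (AlgebraicClosure K)) hα
    ((algebraMap (ZMod p) (AlgebraicClosure (ZMod p))).comp φ)
  have hc1 : φ' (U.coeff m) ≠ 0 := hM1 p hpp (by omega) _ φ'
  have hc2 := hM2 p hpp (by omega) _ φ'
  have hU' : MvPolynomial.map φ' U ≠ 0 := by
    intro h0
    apply hc1
    have h1 := congrArg (MvPolynomial.coeff m) h0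
    rwa [MvPolynomial.coeff_map, MvPolynomial.coeff_zero] at h1
  have hsz := sz (algebraMap (ZMod p) (AlgebraicClosure (ZMod p))) (MvPolynomial.map φ' U) hU'
  rw [ZMod.card] at hsz
  have hdegU : (MvPolynomial.map φ' U).totalDegree ≤ U.totalDegree := by
    rw [MvPolynomial.totalDegree, MvPolynomial.totalDegree]
    exact Finset.sup_mono (MvPolynomial.support_map_subset _ _)
  refine total' k hk p r g.natDegree U.totalDegree _ (by omega) (ι := Fin r → ZMod p)
    (by rw [Fintype.card_fun, ZMod.card, Fintype.card_fin])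
    (fun c => Nat.card {q : ZMod p × ZMod p // (g.map (spc φ c)).evalEval q.1 q.2 = 0})
    (fun c => MvPolynomial.eval (fun i => algebraMap (ZMod p) (AlgebraicClosure (ZMod p)) (c i))
      (MvPolynomial.map φ' U) = 0)
    (le_trans hsz (Nat.mul_le_mul_right _ hdegU)) (fun c => ?_) (fun c hc => ?_) ?_
  · have h1 := fib φ g hg c
    rwa [Nat.card_zmod] at h1
  · have hev : MvPolynomial.eval₂ φ' (fun i => algebraMap (ZMod p) (AlgebraicClosure (ZMod p)) (c i)) U ≠ 0 := by
      rw [MvPolynomial.eval₂_eq_eval_map]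
      exact hc
    have h1 := hkal (AlgebraicClosure (ZMod p)) φ'
      (fun i => algebraMap (ZMod p) (AlgebraicClosure (ZMod p)) (c i)) hc2 hev
    rw [spc_map (algebraMap (𝓞 K) (integralClosure (𝓞 K) (AlgebraicClosure K))) φ
      (algebraMap (ZMod p) (AlgebraicClosure (ZMod p))) φ' hφ' c g] at h1
    have h2 := hcur p n hn1 (by omega) (g.map (spc φ c)) (fun i hi => by
      rw [Polynomial.coeff_map] at hi ⊢
      have h3 : g.coeff i ≠ 0 := by
        intro h4
        rw [h4, map_zero] at hi
        exact hi rfl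
      have h5 := spc_deg φ c (g.coeff i)
      have h6 := hn i h3
      omega) h1
    rw [Nat.card_eq_fintype_card, Fintype.card_subtype]
    convert h2
  · have h1 := lines φ g
    rwa [ZMod.card] at h1

end LW
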