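import Mathlib

/-! LEAF H2 (Mathlib only).  A nonzero polynomial does not vanish on a power of an infinite subring. -/

namespace LW

theorem exists_pt {A E : Type} [CommRing A] [Infinite A] [Field E] (ι : A →+* E) (hι : Function.Injective ι) {r : ℕ}
    (R : MvPolynomial (Fin r) E) (hR : R ≠ 0) : ∃ a : Fin r → A, MvPolynomial.eval (fun i => ι (a i)) R ≠ 0 := by
  by_contra hcon
  push Not at hcon
  apply hR
  refine MvPolynomial.funext_set (s := fun _ => Set.range ι) (fun _ => Set.infinite_range_of_injective hι) ?_
  intro x hx
  have h1 : ∀ i, ∃ a, ι a = x i := fun i => hx i (Set.mem_univ i)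
  choose a ha using h1
  have h2 := hcon a
  have h3 : (fun i => ι (a i)) = x := funext ha
  rw [h3] at h2
  rw [h2, map_zero]

end LW
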