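import Pool.Agent.Lib.LW.H1
import Pool.Agent.Lib.LW.H2

/-! LEAF H3.  A base point over which the hypersurface is étale. -/

namespace LW

open Polynomial NumberField

/-- PROOF.  `Ω = AlgebraicClosure K`, `F = f.map (MvPolynomial.map (algebraMap (𝓞 K) Ω))`, monic and irreducible; `bez` (with `S = MvPolynomial (Fin r) Ω`) gives `u, v, R`; `exists_pt` with `ι = algebraMap (𝓞 K) Ω` (injective:
`FaithfulSMul.algebraMap_injective` or composition through `K`; `𝓞 K` is infinite, characteristic zero) gives `a` with `R(a) ≠ 0`.  Apply `Polynomial.map (eval (ι ∘ a))` to the identity (`Polynomial.derivative_map`):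
`F_a * u_a + F_a' * v_a = C (R(a))`, a unit, so `F_a` is separable (`Polynomial.separable_def`, IsCoprime, multiply by `C (R(a))⁻¹`).  `F_a = (f.map (MvPolynomial.eval a)).map (algebraMap _ _)`: `Polynomial.map_map` and the two ring
homomorphisms agree (`MvPolynomial.ringHom_ext` or `MvPolynomial.eval_map`, `MvPolynomial.eval₂_comp..`). -/
theorem base (K : Type) [Field K] [NumberField K] {r : ℕ} (f : (MvPolynomial (Fin r) (𝓞 K))[X]) (hf : f.Monic)
    (hirr : Irreducible (f.map (MvPolynomial.map (algebraMap (𝓞 K) (AlgebraicClosure K))))) :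
    ∃ a : Fin r → 𝓞 K,
      ((f.map (MvPolynomial.eval a)).map (algebraMap (𝓞 K) (AlgebraicClosure K))).Separable := by
  have hι : Function.Injective (algebraMap (𝓞 K) (AlgebraicClosure K)) :=
    FaithfulSMul.algebraMap_injective (𝓞 K) (AlgebraicClosure K)
  obtain ⟨u, v, R, hR, h⟩ := bez (f.map (MvPolynomial.map (algebraMap (𝓞 K) (AlgebraicClosure K)))) (hf.map _) hirr
  obtain ⟨a, ha⟩ := exists_pt (algebraMap (𝓞 K) (AlgebraicClosure K)) hι R hR
  refine ⟨a, ?_⟩
  set ι := algebraMap (𝓞 K) (AlgebraicClosure K) with hιd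
  have hcomp : (MvPolynomial.eval (fun i => ι (a i))).comp (MvPolynomial.map ι) = ι.comp (MvPolynomial.eval a) := by
    apply MvPolynomial.ringHom_ext
    · intro c
      simp
    · intro i
      simp
  have hF : (f.map (MvPolynomial.eval a)).map ι =
      (f.map (MvPolynomial.map ι)).map (MvPolynomial.eval (fun i => ι (a i))) := by
    rw [Polynomial.map_map, Polynomial.map_map, hcomp]
  have h2 := congrArg (Polynomial.map (MvPolynomial.eval (fun i => ι (a i)))) h
  rw [Polynomial.map_add, Polynomial.map_mul, Polynomial.map_mul, ← derivative_map, Polynomial.map_C, ← hF] at h2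
  rw [Polynomial.separable_def]
  refine ⟨C (MvPolynomial.eval (fun i => ι (a i)) R)⁻¹ * u.map (MvPolynomial.eval (fun i => ι (a i))),
    C (MvPolynomial.eval (fun i => ι (a i)) R)⁻¹ * v.map (MvPolynomial.eval (fun i => ι (a i))), ?_⟩
  have h3 : (C (MvPolynomial.eval (fun i => ι (a i)) R)⁻¹ : (AlgebraicClosure K)[X]) *
      C (MvPolynomial.eval (fun i => ι (a i)) R) = 1 := by
    rw [← C_mul, inv_mul_cancel₀ ha, C_1]
  rw [← h3, ← h2]
  ring

end LW
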