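import Pool.Agent.Lib.LW.Defs

/-! Block (c1), translations: definition. -/

namespace LW

/-- the translation `x_i ↦ x_i + a_i` -/
noncomputable def tr {R : Type} [CommRing R] {r : ℕ} (a : Fin r → R) :
    MvPolynomial (Fin r) R →+* MvPolynomial (Fin r) R :=
  MvPolynomial.eval₂Hom MvPolynomial.C fun i => MvPolynomial.X i + MvPolynomial.C (a i)

end LW
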