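import Pool.Agent.Lib.LW.H3
import Pool.Agent.Lib.LW.H10
import Pool.Agent.Lib.LW.H11

/-! BLOCK (c1).  Points of the reductions of an absolutely irreducible hypersurface. -/

namespace LW

open Polynomial NumberField

theorem hyp_le' (K : Type) [Field K] [NumberField K] {r : ℕ} (hr : 1 ≤ r) (f : (MvPolynomial (Fin r) (𝓞 K))[X])
    (hf : f.Monic)
    (hirr : Irreducible (f.map (MvPolynomial.map (algebraMap (𝓞 K) (AlgebraicClosure K)))))
    (k : ℕ) (hk : 1 ≤ k) :
    ∃ p0 : ℕ, ∀ (p : ℕ) [Fact p.Prime], p0 ≤ p → ∀ φ : 𝓞 K →+* ZMod p,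
      k * Nat.card {z : (Fin r → ZMod p) × ZMod p // (f.map (MvPolynomial.eval₂Hom φ z.1)).eval z.2 = 0} ≤
        (k + 1) * p ^ r := by
  obtain ⟨a, ha⟩ := base K f hf hirr
  have hconst : (f.map (tr a)).map MvPolynomial.constantCoeff = f.map (MvPolynomial.eval a) := by
    rw [Polynomial.map_map, tr_const]
  obtain ⟨p0, hp0⟩ := hyp0' k hk K (f.map (tr a)) (hf.map _) (tr_irr _ a f hirr) (by rw [hconst]; exact ha)
  refine ⟨p0, fun p _ hp φ => ?_⟩
  have h1 := hp0 p hp φ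
  have h2 : Nat.card {z : (Fin r → ZMod p) × ZMod p // (f.map (MvPolynomial.eval₂Hom φ z.1)).eval z.2 = 0} ≤
      Nat.card {z : (Fin r → ZMod p) × ZMod p //
        ((f.map (tr a)).map (MvPolynomial.eval₂Hom φ z.1)).eval z.2 = 0} := by
    refine Nat.card_le_card_of_injective
      (fun z => ⟨(fun i => z.1.1 i - φ (a i), z.1.2), ?_⟩) ?_
    · rw [tr_eval]
      have h3 : (fun i => z.1.1 i - φ (a i) + φ (a i)) = z.1.1 := by
        funext i
        ring
      show (f.map (MvPolynomial.eval₂Hom φ fun i => z.1.1 i - φ (a i) + φ (a i))).eval z.1.2 = 0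
      rw [h3]
      exact z.2
    · intro z w hzw
      have h4 : ((fun i => z.1.1 i - φ (a i), z.1.2) : (Fin r → ZMod p) × ZMod p) =
          (fun i => w.1.1 i - φ (a i), w.1.2) := congrArg Subtype.val hzw
      have h5 := congrArg Prod.fst h4
      have h6 := congrArg Prod.snd h4
      apply Subtype.ext
      refine Prod.ext (funext fun i => ?_) h6
      have h7 : z.1.1 i - φ (a i) = w.1.1 i - φ (a i) := congrFun h5 i
      exact sub_left_injective h7
  calc k * Nat.card {z : (Fin r → ZMod p) × ZMod p // (f.map (MvPolynomial.eval₂Hom φ z.1)).eval z.2 = 0}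
      ≤ k * Nat.card {z : (Fin r → ZMod p) × ZMod p //
        ((f.map (tr a)).map (MvPolynomial.eval₂Hom φ z.1)).eval z.2 = 0} := Nat.mul_le_mul_left _ h2
    _ ≤ (k + 1) * p ^ r := h1

theorem hyp_le (K : Type) [Field K] [NumberField K] {r : ℕ} (hr : 1 ≤ r) (f : (MvPolynomial (Fin r) (𝓞 K))[X])
    (hf : f.Monic)
    (hirr : Irreducible (f.map (MvPolynomial.map (algebraMap (𝓞 K) (AlgebraicClosure K))))) :
    ∃ p0 : ℕ, ∀ (p : ℕ) [Fact p.Prime], p0 ≤ p → ∀ φ : 𝓞 K →+* ZMod p,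
      100 * Nat.card {z : (Fin r → ZMod p) × ZMod p // (f.map (MvPolynomial.eval₂Hom φ z.1)).eval z.2 = 0} ≤
        107 * p ^ r := by
  obtain ⟨p0, h⟩ := hyp_le' K hr f hf hirr 20 (by norm_num)
  refine ⟨p0, fun p _ hp φ => ?_⟩
  have h1 := h p hp φ
  omega

end LW
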