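import Pool.Agent.Lib.LW.Ev

/-!
# LEAF M1: a linear functional applied to the coefficients

PROOF.  `cw_coeff`: only the term of `m` in the sum has the monomial `m` (`MvPolynomial.coeff_monomial`; if `m` is not in the support the coefficient is zero and `l 0 = 0`).  `cw_add`, `cw_C_mul`: compare coefficients (`MvPolynomial.ext`).  `cw_mul`: by induction on `p` (`MvPolynomial.induction_on`: constants `C a`: `l (a • e) = a l e`; sums; multiplication with `X i`: `coeff_mul_X'`), or compare coefficients with `MvPolynomial.coeff_mul` and `map_sum`, `l (algebraMap K E a * e) = a * l e`.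
`cw_mem`: `P.map` is the set of finite sums `∑ q_k * map p_k`, `p_k ∈ P` (`Submodule.span_induction` for `Ideal.span`; `Ideal.map` is the span of the image), then `cw_add`, `cw_mul`.  `cw_eq_zero`: if some coefficient `e` of `q` is not zero there is a functional `l` with `l e ≠ 0` (`Module.Projective` / `exists_dual_forall_apply_eq_zero..`, e.g. `Module.forall_dual_apply_eq_zero_iff K e`).
-/

namespace LW

variable {K E : Type} [Field K] [Field E] [Algebra K E] {n : ℕ}

theorem cw_coeff (l : E →ₗ[K] K) (q : MvPolynomial (Fin n) E) (m : Fin n →₀ ℕ) : (cw l q).coeff m = l (q.coeff m) := by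
  classical
  unfold cw
  rw [MvPolynomial.coeff_sum]
  simp only [MvPolynomial.coeff_monomial]
  rw [Finset.sum_ite_eq' q.support m fun m => l (q.coeff m)]
  split_ifs with hm
  · rfl
  · rw [MvPolynomial.notMem_support_iff.mp hm, map_zero]

theorem cw_add (l : E →ₗ[K] K) (p q : MvPolynomial (Fin n) E) : cw l (p + q) = cw l p + cw l q := by
  refine MvPolynomial.ext _ _ fun m => ?_
  rw [MvPolynomial.coeff_add, cw_coeff, cw_coeff, cw_coeff, MvPolynomial.coeff_add, map_add]

theorem cw_mul (l : E →ₗ[K] K) (p : MvPolynomial (Fin n) K) (q : MvPolynomial (Fin n) E) :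
    cw l (MvPolynomial.map (algebraMap K E) p * q) = p * cw l q := by
  classical
  refine MvPolynomial.ext _ _ fun m => ?_
  rw [cw_coeff, MvPolynomial.coeff_mul, MvPolynomial.coeff_mul, map_sum]
  refine Finset.sum_congr rfl fun x _ => ?_
  rw [MvPolynomial.coeff_map, cw_coeff, ← Algebra.smul_def, map_smul, smul_eq_mul]

theorem cw_C (l : E →ₗ[K] K) (e : E) (p : MvPolynomial (Fin n) K) :
    cw l (MvPolynomial.C e * MvPolynomial.map (algebraMap K E) p) = MvPolynomial.C (l e) * p := by
  refine MvPolynomial.ext _ _ fun m => ?_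
  rw [cw_coeff, MvPolynomial.coeff_C_mul, MvPolynomial.coeff_C_mul, MvPolynomial.coeff_map, mul_comm,
    ← Algebra.smul_def, map_smul, smul_eq_mul, mul_comm]

private theorem M1_cw_zero (l : E →ₗ[K] K) : cw l (0 : MvPolynomial (Fin n) E) = 0 := by
  refine MvPolynomial.ext _ _ fun m => ?_
  rw [cw_coeff, MvPolynomial.coeff_zero, MvPolynomial.coeff_zero, map_zero]

private theorem M1_cw_Cmul (l : E →ₗ[K] K) (e : E) (q : MvPolynomial (Fin n) E) :
    cw l (MvPolynomial.C e * q) = cw (l.comp (LinearMap.mulLeft K e)) q := by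
  refine MvPolynomial.ext _ _ fun m => ?_
  rw [cw_coeff, cw_coeff, MvPolynomial.coeff_C_mul]
  rfl

private theorem M1_mul_mem (P : Ideal (MvPolynomial (Fin n) K)) {q : MvPolynomial (Fin n) E}
    (hq : ∀ l : E →ₗ[K] K, cw l q ∈ P) (a : MvPolynomial (Fin n) E) :
    ∀ l : E →ₗ[K] K, cw l (a * q) ∈ P := by
  induction a using MvPolynomial.induction_on with
  | C e => intro l; rw [M1_cw_Cmul]; exact hq _
  | add p r hp hr => intro l; rw [add_mul, cw_add]; exact P.add_mem (hp l) (hr l)
  | mul_X p i hp =>
    intro l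
    have h1 : p * MvPolynomial.X i * q
        = MvPolynomial.map (algebraMap K E) (MvPolynomial.X i) * (p * q) := by
      rw [MvPolynomial.map_X]; ring
    rw [h1, cw_mul]
    exact Ideal.mul_mem_left _ _ (hp l)

theorem cw_mem (l : E →ₗ[K] K) (P : Ideal (MvPolynomial (Fin n) K)) {q : MvPolynomial (Fin n) E}
    (hq : q ∈ P.map (MvPolynomial.map (σ := Fin n) (algebraMap K E))) : cw l q ∈ P := by
  suffices h : ∀ l : E →ₗ[K] K, cw l q ∈ P from h l
  clear l
  unfold Ideal.map at hq
  induction hq using Submodule.span_induction with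
  | mem x hx =>
    intro l
    obtain ⟨p, hp, rfl⟩ := hx
    have h1 := cw_mul l p (1 : MvPolynomial (Fin n) E)
    rw [mul_one] at h1
    rw [h1]
    exact Ideal.mul_mem_right _ _ hp
  | zero => intro l; rw [M1_cw_zero]; exact P.zero_mem
  | add x y _ _ h1 h2 => intro l; rw [cw_add]; exact P.add_mem (h1 l) (h2 l)
  | smul a x _ h1 => exact M1_mul_mem P h1 a

theorem cw_eq_zero {q : MvPolynomial (Fin n) E} (h : ∀ l : E →ₗ[K] K, cw l q = 0) : q = 0 := by
  refine MvPolynomial.ext _ _ fun m => ?_
  rw [MvPolynomial.coeff_zero]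
  refine (Module.forall_dual_apply_eq_zero_iff K (q.coeff m)).mp fun l => ?_
  rw [← cw_coeff, h l, MvPolynomial.coeff_zero]

end LW
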