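import Mathlib

/-!
# LEAF M10: nonzero modulo large primes

PROOF.  `nz`: a nonzero algebraic integer `a` of the number field divides a nonzero natural number `n` in `𝓞 K` (its norm: `Algebra.norm ℤ a`, `Algebra.dvd_norm..`; or: the ideal `(a)` has finite index `n`, and `n ∈ (a)`: `Ideal.absNorm_mem`); `M = n`: for a prime `p > n`, `φ n = (n : ZMod p) ≠ 0`, so `φ a ≠ 0`.
`nz_poly`: apply `nz` to a nonzero coefficient.
-/

namespace LW

open NumberField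

theorem nz {K : Type} [Field K] [NumberField K] {a : 𝓞 K} (ha : a ≠ 0) : ∃ M : ℕ, ∀ p : ℕ, p.Prime → M < p →
    ∀ φ : 𝓞 K →+* ZMod p, φ a ≠ 0 := by
  refine ⟨Ideal.absNorm (Ideal.span {a}), fun p hp hM φ h0 => ?_⟩
  have hne : Ideal.absNorm (Ideal.span {a}) ≠ 0 := by
    rw [Ne, Ideal.absNorm_eq_zero_iff, Ideal.span_singleton_eq_bot]
    exact ha
  have hmem : ((Ideal.absNorm (Ideal.span {a}) : ℕ) : 𝓞 K) ∈ Ideal.span {a} := Ideal.absNorm_mem _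
  obtain ⟨b, hb⟩ := Ideal.mem_span_singleton'.1 hmem
  have h1 : φ ((Ideal.absNorm (Ideal.span {a}) : ℕ) : 𝓞 K) = 0 := by
    rw [← hb, map_mul, h0, mul_zero]
  rw [map_natCast] at h1
  have h2 := (ZMod.natCast_eq_zero_iff _ _).1 h1
  exact absurd (Nat.le_of_dvd (Nat.pos_of_ne_zero hne) h2) (not_le.2 hM)

theorem nz_poly {K : Type} [Field K] [NumberField K] {r : ℕ} {D : MvPolynomial (Fin r) (𝓞 K)} (hD : D ≠ 0) :
    ∃ M : ℕ, ∀ p : ℕ, p.Prime → M < p → ∀ φ : 𝓞 K →+* ZMod p, MvPolynomial.map φ D ≠ 0 := by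
  obtain ⟨m, hm⟩ := MvPolynomial.ne_zero_iff.1 hD
  obtain ⟨M, hM⟩ := nz hm
  refine ⟨M, fun p hp hMp φ h0 => hM p hp hMp φ ?_⟩
  rw [← MvPolynomial.coeff_map, h0, MvPolynomial.coeff_zero]

end LW
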