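import Pool.Agent.Lib.LW.M1

/-!
# LEAF M2: contraction of the extended ideal

PROOF.  There is a `K`-linear `l : E → K` with `l 1 = 1` (a left inverse of `algebraMap K E` as a linear map of vector spaces: `LinearMap.exists_leftInverse_of_injective`, kernel zero).  If `map p ∈ P.map` then `cw l (map p * 1) = p * cw l 1 = p` (`cw_mul`, `cw l 1 = 1` by `cw_coeff` or `cw_C` with `e = 1`, `p = 1`) is in `P` (`cw_mem`).  The other direction is `Ideal.mem_map_of_mem`.  `prime_of`: `P` is the contraction of the prime ideal `P.map` (`Ideal.IsPrime.comap`).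
-/

namespace LW

theorem mem_iff {K E : Type} [Field K] [Field E] [Algebra K E] {n : ℕ} (P : Ideal (MvPolynomial (Fin n) K))
    (p : MvPolynomial (Fin n) K) : MvPolynomial.map (algebraMap K E) p ∈
      P.map (MvPolynomial.map (σ := Fin n) (algebraMap K E)) ↔ p ∈ P := by
  refine ⟨fun h => ?_, fun h => Ideal.mem_map_of_mem _ h⟩
  obtain ⟨l, hl⟩ := LinearMap.exists_leftInverse_of_injective (Algebra.linearMap K E)
    (LinearMap.ker_eq_bot.2 (algebraMap K E).injective)
  have h1 : l 1 = 1 := by
    have h2 := LinearMap.congr_fun hl 1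
    rw [LinearMap.comp_apply, Algebra.linearMap_apply, map_one, LinearMap.id_apply] at h2
    exact h2
  have h3 := cw_C l (1 : E) p
  rw [map_one, one_mul, h1, map_one, one_mul] at h3
  rw [← h3]
  exact cw_mem l P h

theorem prime_of {K E : Type} [Field K] [Field E] [Algebra K E] {n : ℕ} (P : Ideal (MvPolynomial (Fin n) K))
    (hP : (P.map (MvPolynomial.map (σ := Fin n) (algebraMap K E))).IsPrime) : P.IsPrime := by
  have h1 : P = (P.map (MvPolynomial.map (σ := Fin n) (algebraMap K E))).comap
      (MvPolynomial.map (σ := Fin n) (algebraMap K E)) :=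
    Ideal.ext fun p => ((mem_iff P p).symm.trans Ideal.mem_comap.symm)
  rw [h1]
  exact hP.comap _

end LW
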