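import Pool.Agent.Lib.LW.M3A

/-!
# LEAF M3: geometric irreducibility

PROOF.  `F = f.map (MvPolynomial.map (algebraMap K E))` is monic, `evE = ev C (map T) (map Y)`; `evE (g.map ..) = map (ev C T Y g)` (`ev_map`).
(i) For `g` over `E`: if `evE g` is in `P' = P.map ..` then `F ∣ g`: divide, `g = F * q + ρ`, `degree ρ < degree F` (`Polynomial.modByMonic`, `F.Monic`); `evE F = map (ev C T Y f) ∈ P'`, so `evE ρ ∈ P'`; for every functional `l`, `ev C T Y (cw2 l ρ) = cw l (evE ρ) ∈ P` (`cw2_ev`, `cw_mem`), so `f ∣ cw2 l ρ` by `h1`; `degree (cw2 l ρ) ≤ degree ρ < degree f` (`cw2_coeff`), so `cw2 l ρ = 0` (`Polynomial.eq_zero_of_dvd_of_degree_lt`); all `cw l (ρ.coeff i) = 0`, so `ρ = 0` (`cw_eq_zero`).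
(ii) `F` is not a unit: otherwise (monic) `F = 1`, `f = 1` and `1 = ev C T Y f ∈ P`, so `P' = ⊤`, but `P'` is prime.
(iii) If `F = g * h`: `evE g * evE h ∈ P'`, so one of them is in `P'`, say `evE g`; `F ∣ g` by (i), `g = F k`, `F = F (k h)`, so `k h = 1` and `h` is a unit (`F ≠ 0`, domain).
-/

namespace LW

open Polynomial

theorem ev_map {K E : Type} [Field K] [Field E] [Algebra K E] {r m : ℕ} (T : Fin r → MvPolynomial (Fin m) K)
    (Y : MvPolynomial (Fin m) K) (g : (MvPolynomial (Fin r) K)[X]) :
    ev MvPolynomial.C (fun j => MvPolynomial.map (algebraMap K E) (T j)) (MvPolynomial.map (algebraMap K E) Y)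
      (g.map (MvPolynomial.map (algebraMap K E))) = MvPolynomial.map (algebraMap K E) (ev MvPolynomial.C T Y g) := by
  unfold ev
  rw [Polynomial.coe_eval₂RingHom, Polynomial.coe_eval₂RingHom, Polynomial.eval₂_map, Polynomial.hom_eval₂]
  congr 1
  apply MvPolynomial.ringHom_ext
  · intro a
    simp
  · intro i
    simp

theorem geo {K E : Type} [Field K] [Field E] [Algebra K E] {r m : ℕ} (P : Ideal (MvPolynomial (Fin m) K))
    (hP : (P.map (MvPolynomial.map (σ := Fin m) (algebraMap K E))).IsPrime) (T : Fin r → MvPolynomial (Fin m) K)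
    (Y : MvPolynomial (Fin m) K) (f : (MvPolynomial (Fin r) K)[X]) (hf : f.Monic) (h0 : ev MvPolynomial.C T Y f ∈ P)
    (h1 : ∀ h : (MvPolynomial (Fin r) K)[X], ev MvPolynomial.C T Y h ∈ P → f ∣ h) :
    Irreducible (f.map (MvPolynomial.map (algebraMap K E))) := by
  have hF : (f.map (MvPolynomial.map (σ := Fin r) (algebraMap K E))).Monic := hf.map _
  have hev : ev MvPolynomial.C (fun j => MvPolynomial.map (algebraMap K E) (T j))
      (MvPolynomial.map (algebraMap K E) Y) (f.map (MvPolynomial.map (algebraMap K E))) ∈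
      P.map (MvPolynomial.map (σ := Fin m) (algebraMap K E)) := by
    rw [ev_map]
    exact Ideal.mem_map_of_mem _ h0
  have key : ∀ g : (MvPolynomial (Fin r) E)[X],
      ev MvPolynomial.C (fun j => MvPolynomial.map (algebraMap K E) (T j))
        (MvPolynomial.map (algebraMap K E) Y) g ∈ P.map (MvPolynomial.map (σ := Fin m) (algebraMap K E)) →
      f.map (MvPolynomial.map (σ := Fin r) (algebraMap K E)) ∣ g := by
    intro g hg
    set F := f.map (MvPolynomial.map (σ := Fin r) (algebraMap K E)) with hFdef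
    have hdec := Polynomial.modByMonic_add_div g F
    have hρ : ev MvPolynomial.C (fun j => MvPolynomial.map (algebraMap K E) (T j))
        (MvPolynomial.map (algebraMap K E) Y) (g %ₘ F) ∈
        P.map (MvPolynomial.map (σ := Fin m) (algebraMap K E)) := by
      have h2 : g %ₘ F = g - F * (g /ₘ F) := by rw [eq_sub_iff_add_eq, hdec]
      rw [h2, map_sub, map_mul]
      exact Ideal.sub_mem _ hg (Ideal.mul_mem_right _ _ hev)
    have hdeg : (g %ₘ F).degree < f.degree := by
      have h3 := Polynomial.degree_modByMonic_lt g hF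
      have h4 : F.degree = f.degree := hf.degree_map _
      rwa [h4] at h3
    have hzero : g %ₘ F = 0 := by
      apply Polynomial.ext
      intro i
      rw [Polynomial.coeff_zero]
      apply cw_eq_zero (K := K)
      intro l
      have h5 : f ∣ cw2 l (g %ₘ F) := by
        apply h1
        rw [cw2_ev]
        exact cw_mem l P hρ
      have h6 : (cw2 l (g %ₘ F)).degree < f.degree := by
        refine lt_of_le_of_lt ?_ hdeg
        apply Polynomial.degree_le_iff_coeff_zero _ _ |>.2
        intro j hj
        rw [cw2_coeff, Polynomial.coeff_eq_zero_of_degree_lt hj]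
        simp [cw]
      have h7 : cw2 l (g %ₘ F) = 0 := Polynomial.eq_zero_of_dvd_of_degree_lt h5 h6
      rw [← cw2_coeff, h7, Polynomial.coeff_zero]
    rw [hzero, zero_add] at hdec
    exact ⟨_, hdec.symm⟩
  refine ⟨fun hu => ?_, fun g h hgh => ?_⟩
  · have h2 : f.map (MvPolynomial.map (σ := Fin r) (algebraMap K E)) = 1 := hF.eq_one_of_isUnit hu
    apply hP.ne_top
    rw [Ideal.eq_top_iff_one]
    rw [h2, map_one] at hev
    exact hev
  · have h2 := hev
    rw [hgh, map_mul] at h2
    have hF0 : f.map (MvPolynomial.map (σ := Fin r) (algebraMap K E)) ≠ 0 := hF.ne_zero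
    rcases hP.mem_or_mem h2 with h3 | h3
    · right
      obtain ⟨k, hk⟩ := key g h3
      have h4 : f.map (MvPolynomial.map (σ := Fin r) (algebraMap K E)) * (k * h) =
          f.map (MvPolynomial.map (σ := Fin r) (algebraMap K E)) * 1 := by
        rw [← mul_assoc, ← hk, ← hgh, mul_one]
      have h5 := mul_left_cancel₀ hF0 h4
      exact IsUnit.of_mul_eq_one_right _ h5
    · left
      obtain ⟨k, hk⟩ := key h h3
      have h4 : f.map (MvPolynomial.map (σ := Fin r) (algebraMap K E)) * (g * k) =
          f.map (MvPolynomial.map (σ := Fin r) (algebraMap K E)) * 1 := by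
        rw [mul_one, mul_left_comm, ← hk, ← hgh]
      have h5 := mul_left_cancel₀ hF0 h4
      exact IsUnit.of_mul_eq_one _ h5

end LW
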