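import Pool.Agent.Lib.LW.M1

/-!
# LEAF M3A: functionals and substitution

PROOF.  `cw2_coeff`: as `cw_coeff` (`Polynomial.finset_sum_coeff`, `Polynomial.coeff_monomial`; `cw l 0 = 0`).
`cw2_ev`: both sides are additive in `q` (`cw_add`, and `cw2` is additive by `cw2_coeff` and `cw_add`); by `Polynomial.induction_on'` (sums, monomials `Y ^ i * a`) and then `MvPolynomial.induction_on'` or the sum over the support for `a`, it is enough to have `q = Y ^ i * e x ^ α`: the left side is `C (l e) * (∏ j, T j ^ α j) * Y ^ i`, the right side `cw l (C e * map (..)) `, equal by `cw_C`.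
-/

namespace LW

open Polynomial

variable {K E : Type} [Field K] [Field E] [Algebra K E]

private theorem M3A_cw_zero {r : ℕ} (l : E →ₗ[K] K) : cw (n := r) l 0 = 0 := by
  ext m
  rw [cw_coeff]
  simp

theorem cw2_coeff {r : ℕ} (l : E →ₗ[K] K) (q : (MvPolynomial (Fin r) E)[X]) (i : ℕ) :
    (cw2 l q).coeff i = cw l (q.coeff i) := by
  unfold cw2
  rw [Polynomial.finsetSum_coeff]
  rw [Finset.sum_eq_single i]
  · rw [Polynomial.coeff_monomial, if_pos rfl]
  · intro b _ hb
    rw [Polynomial.coeff_monomial, if_neg hb]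
  · intro h
    rw [Polynomial.coeff_monomial, if_pos rfl, Polynomial.notMem_support_iff.1 h, M3A_cw_zero]

private theorem M3A_cw2_add {r : ℕ} (l : E →ₗ[K] K) (p q : (MvPolynomial (Fin r) E)[X]) :
    cw2 l (p + q) = cw2 l p + cw2 l q := by
  apply Polynomial.ext
  intro i
  rw [Polynomial.coeff_add, cw2_coeff, cw2_coeff, cw2_coeff, Polynomial.coeff_add, cw_add]

private theorem M3A_cw2_monomial {r : ℕ} (l : E →ₗ[K] K) (i : ℕ) (a : MvPolynomial (Fin r) E) :
    cw2 l (Polynomial.monomial i a) = Polynomial.monomial i (cw l a) := by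
  apply Polynomial.ext
  intro k
  rw [cw2_coeff, Polynomial.coeff_monomial, Polynomial.coeff_monomial]
  split_ifs
  · rfl
  · exact M3A_cw_zero l

private theorem M3A_cw_monomial {r : ℕ} (l : E →ₗ[K] K) (α : Fin r →₀ ℕ) (e : E) :
    cw l (MvPolynomial.monomial α e) = MvPolynomial.monomial α (l e) := by
  ext m
  rw [cw_coeff, MvPolynomial.coeff_monomial, MvPolynomial.coeff_monomial]
  split_ifs
  · rfl
  · exact map_zero l

theorem cw2_ev {r m : ℕ} (l : E →ₗ[K] K) (T : Fin r → MvPolynomial (Fin m) K) (Y : MvPolynomial (Fin m) K)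
    (q : (MvPolynomial (Fin r) E)[X]) :
    ev MvPolynomial.C T Y (cw2 l q) = cw l (ev MvPolynomial.C (fun j => MvPolynomial.map (algebraMap K E) (T j))
      (MvPolynomial.map (algebraMap K E) Y) q) := by
  induction q using Polynomial.induction_on' with
  | add p q hp hq => rw [M3A_cw2_add, map_add, hp, hq, map_add, cw_add]
  | monomial i a =>
    rw [M3A_cw2_monomial]
    unfold ev
    rw [Polynomial.coe_eval₂RingHom, Polynomial.coe_eval₂RingHom, Polynomial.eval₂_monomial,
      Polynomial.eval₂_monomial]
    induction a using MvPolynomial.induction_on' with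
    | monomial α e =>
      rw [M3A_cw_monomial, MvPolynomial.coe_eval₂Hom, MvPolynomial.coe_eval₂Hom,
        MvPolynomial.eval₂_monomial, MvPolynomial.eval₂_monomial]
      have h : MvPolynomial.C e * (α.prod fun n k => (MvPolynomial.map (algebraMap K E) (T n)) ^ k) *
          (MvPolynomial.map (algebraMap K E) Y) ^ i =
          MvPolynomial.C e * MvPolynomial.map (algebraMap K E) ((α.prod fun n k => T n ^ k) * Y ^ i) := by
        rw [map_mul, map_pow, mul_assoc]
        congr 2
        unfold Finsupp.prod
        rw [map_prod]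
        exact Finset.prod_congr rfl fun n _ => (map_pow _ _ _).symm
      rw [h, cw_C, mul_assoc]
    | add p q hp hq => rw [cw_add, map_add, map_add, add_mul, add_mul, cw_add, hp, hq]

end LW
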