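import Mathlib

/-!
# LEAF M4A: integral extensions, the dimension does not increase

PROOF.  `PrimeSpectrum.comap (algebraMap A B)` is strictly monotone: `I < J` primes of `B` (integral over `A`) implies `comap I < comap J` (`IsIntegral.comap_lt_comap` in Mathlib/RingTheory/Ideal/GoingUp.lean).  `Order.krullDim_le_of_strictMono` and `ringKrullDim = Order.krullDim (PrimeSpectrum _)`.
-/

namespace LW

theorem dim_le {A B : Type} [CommRing A] [CommRing B] [Algebra A B] [Algebra.IsIntegral A B] :
    ringKrullDim B ≤ ringKrullDim A := by
  unfold ringKrullDim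
  refine Order.krullDim_le_of_strictMono (PrimeSpectrum.comap (algebraMap A B)) fun x y hxy => ?_
  have h1 : x.asIdeal < y.asIdeal := hxy
  exact Ideal.IsIntegral.comap_lt_comap h1

end LW
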