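import Mathlib

/-!
# LEAF M4B: integral extensions, the dimension does not decrease

PROOF.  Going up.  For a chain `p_0 < .. < p_n` of primes of `A` there is a chain `q_0 < .. < q_n` of primes of `B` with `comap q_i = p_i`: induction on `n`; `q_0` exists by `Ideal.exists_ideal_over_prime_of_isIntegral` (with `I = ⊥`, `comap ⊥ = ker = ⊥ ≤ p_0` by injectivity), and `q_(n+1) ⊇ q_n` over `p_(n+1)` by the same theorem with `I = q_n`; `q_n ≠ q_(n+1)` as their contractions differ.
In Lean: prove `∀ n (s : ℕ → PrimeSpectrum A)`, strictly increasing for the indices `≤ n`, the existence of `t : ℕ → PrimeSpectrum B` with `comap (t i) = s i` and `t i < t (i + 1)`; or use `Order.krullDim_le_of...`, `LTSeries` and `Order.le_krullDim_iff` (`LTSeries.mk`, `RelSeries.snoc`).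
-/

namespace LW

theorem dim_ge {A B : Type} [CommRing A] [CommRing B] [Algebra A B] [Algebra.IsIntegral A B]
    (hinj : Function.Injective (algebraMap A B)) : ringKrullDim A ≤ ringKrullDim B := by
  refine iSup_le fun l => ?_
  have hbot : (⊥ : Ideal B).comap (algebraMap A B) ≤ l.head.asIdeal := by
    intro x hx
    rw [Ideal.mem_comap, Ideal.mem_bot] at hx
    have h0 : x = 0 := hinj (by rw [hx, map_zero])
    rw [h0]
    exact Ideal.zero_mem _
  obtain ⟨P, _, hP, hPl⟩ := Ideal.exists_ideal_over_prime_of_isIntegral l.head.asIdeal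
    (⊥ : Ideal B) hbot
  have := hP
  have : P.LiesOver (RelSeries.head l).asIdeal := ⟨hPl.symm⟩
  obtain ⟨L, hL, _, _⟩ := Ideal.exists_ltSeries_of_hasGoingUp (S := B) l P
  rw [← hL]
  exact le_iSup (fun p : LTSeries (PrimeSpectrum B) => (p.length : WithBot ℕ∞)) L

end LW
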