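import Pool.Agent.Lib.LW.Ev
import Pool.Agent.Lib.LW.M4A
import Pool.Agent.Lib.LW.M4B

/-!
# LEAF M4: Noether normalisation with the right number of variables

PROOF.  `exists_finite_inj_algHom_of_fg K (MvPolynomial (Fin m) K ⧸ P)` (Mathlib/RingTheory/NoetherNormalization.lean; the quotient is nontrivial as `P` is prime): `s` and an injective finite `g : MvPolynomial (Fin s) K →ₐ[K] _`.  `dim_le`, `dim_ge` (algebra structure by `g.toRingHom.toAlgebra`, integral because finite) give `ringKrullDim (MvPolynomial (Fin s) K) = r`, and it is `s` (`MvPolynomial.ringKrullDim_of_isNoetherianRing`, `ringKrullDim_eq_zero_of_field`, `Nat.card_fin`); so `s = r` (cast injectivity in `WithBot ℕ∞`), `subst`.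
`T j` a preimage of `g (X j)`: then `mk (aeval T q) = g q` for all `q` (`MvPolynomial.induction_on` or `MvPolynomial.algHom_ext`), so `aeval T q ∈ P` gives `g q = 0`, `q = 0`.  Integrality of `mk b` over `g`: a monic `q` with `Polynomial.eval₂ g.toRingHom (mk b) q = 0` and this is `mk (ev C T b q)` (`Polynomial.hom_eval₂`).
-/

namespace LW

open Polynomial

theorem noeth {K : Type} [Field K] {m : ℕ} (P : Ideal (MvPolynomial (Fin m) K)) (hP : P.IsPrime) {r : ℕ}
    (hdim : ringKrullDim (MvPolynomial (Fin m) K ⧸ P) = r) :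
    ∃ T : Fin r → MvPolynomial (Fin m) K, (∀ q : MvPolynomial (Fin r) K, MvPolynomial.aeval T q ∈ P → q = 0) ∧
      ∀ b : MvPolynomial (Fin m) K, ∃ q : (MvPolynomial (Fin r) K)[X], q.Monic ∧ ev MvPolynomial.C T b q ∈ P := by
  classical
  haveI : Nontrivial (MvPolynomial (Fin m) K ⧸ P) := Ideal.Quotient.nontrivial_iff.2 hP.ne_top
  obtain ⟨s, g, ginj, gfin⟩ := exists_finite_inj_algHom_of_fg K (MvPolynomial (Fin m) K ⧸ P)
  have hgint : g.toRingHom.IsIntegral := RingHom.Finite.to_isIntegral gfin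
  have hs : s = r := by
    letI : Algebra (MvPolynomial (Fin s) K) (MvPolynomial (Fin m) K ⧸ P) := g.toRingHom.toAlgebra
    haveI : Algebra.IsIntegral (MvPolynomial (Fin s) K) (MvPolynomial (Fin m) K ⧸ P) := ⟨hgint⟩
    have h1 := dim_le (A := MvPolynomial (Fin s) K) (B := MvPolynomial (Fin m) K ⧸ P)
    have h2 := dim_ge (A := MvPolynomial (Fin s) K) (B := MvPolynomial (Fin m) K ⧸ P) ginj
    have h3 := le_antisymm h2 h1
    rw [hdim, MvPolynomial.ringKrullDim_of_isNoetherianRing, ringKrullDim_eq_zero_of_field,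
      zero_add, Nat.card_eq_fintype_card, Fintype.card_fin] at h3
    exact_mod_cast h3
  subst hs
  have hT : ∀ j : Fin s, ∃ t : MvPolynomial (Fin m) K, Ideal.Quotient.mk P t = g (MvPolynomial.X j) :=
    fun j => Ideal.Quotient.mk_surjective _
  choose T hT using hT
  have hev : ∀ q : MvPolynomial (Fin s) K, Ideal.Quotient.mk P (MvPolynomial.aeval T q) = g q := by
    intro q
    have h1 : (Ideal.Quotient.mkₐ K P).comp (MvPolynomial.aeval T) = g := by
      apply MvPolynomial.algHom_ext
      intro j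
      rw [AlgHom.comp_apply, MvPolynomial.aeval_X]
      exact hT j
    exact congrArg (fun φ : MvPolynomial (Fin s) K →ₐ[K] (MvPolynomial (Fin m) K ⧸ P) => φ q) h1
  refine ⟨T, fun q hq => ?_, fun b => ?_⟩
  · apply ginj
    rw [map_zero, ← hev]
    exact Ideal.Quotient.eq_zero_iff_mem.2 hq
  · obtain ⟨q, hq, hq0⟩ := hgint (Ideal.Quotient.mk P b)
    refine ⟨q, hq, ?_⟩
    rw [← Ideal.Quotient.eq_zero_iff_mem, ← hq0]
    unfold ev
    rw [Polynomial.coe_eval₂RingHom, Polynomial.hom_eval₂]
    have h2 : (Ideal.Quotient.mk P).comp (MvPolynomial.eval₂Hom MvPolynomial.C T) = g.toRingHom := by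
      ext q
      · exact hev (MvPolynomial.C q) 
      · exact hev (MvPolynomial.X q)
    rw [h2]

end LW
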