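import Mathlib

/-!
# LEAF M7A: common denominators

PROOF.  For one `a : K` there is `N ≠ 0` (a natural number) and `b : 𝓞 K` with `b = N a` (`K` is the field of fractions of `𝓞 K`, algebraic over `ℚ`: `exists_integral_multiple`, or `IsIntegral.exists_multiple_integral_of_isLocalization`, or `a = x / y`, `y` divides its norm; take the absolute value of an integer multiplier).  A multiple of `N` works as well.  Finitely many `a`: the product of the `N` (`Finset.induction`).
`clr`: apply this to all coefficients of all `p i` (finitely many) and put `q = ∑ monomial`; `map q = M * p i` by comparing coefficients.  `clr2`: the same for the coefficients `(p i).coeff k` with `clr`.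
-/

namespace LW

open Polynomial NumberField

private theorem M7A_one {K : Type} [Field K] [NumberField K] (a : K) :
    ∃ N : ℕ, N ≠ 0 ∧ ∀ M : ℕ, N ∣ M → ∃ b : 𝓞 K, algebraMap (𝓞 K) K b = (M : K) * a := by
  have halg : IsAlgebraic ℤ a :=
    (IsFractionRing.isAlgebraic_iff ℤ ℚ K).2 (Algebra.IsAlgebraic.isAlgebraic a)
  obtain ⟨y, hy0, hy⟩ := halg.exists_integral_multiple
  refine ⟨y.natAbs, Int.natAbs_ne_zero.2 hy0, ?_⟩
  rintro M ⟨c, rfl⟩
  have h1 : ((y.natAbs : ℕ) : K) = (y : K) ∨ ((y.natAbs : ℕ) : K) = -(y : K) := by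
    rcases Int.natAbs_eq y with h | h
    · left
      conv_rhs => rw [h]
      rw [Int.cast_natCast]
    · right
      conv_rhs => rw [h]
      rw [Int.cast_neg, Int.cast_natCast, neg_neg]
  have h2 : IsIntegral ℤ (((y.natAbs * c : ℕ) : K) * a) := by
    have h3 : IsIntegral ℤ ((c : K) * (y • a)) := by
      refine IsIntegral.mul ?_ hy
      have h4 : IsIntegral ℤ (algebraMap ℤ K (c : ℤ)) := isIntegral_algebraMap
      rw [eq_intCast, Int.cast_natCast] at h4
      exact h4
    rcases h1 with h | h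
    · have h5 : ((y.natAbs * c : ℕ) : K) * a = (c : K) * (y • a) := by
        rw [Nat.cast_mul, h, zsmul_eq_mul]
        ring
      rw [h5]
      exact h3
    · have h5 : ((y.natAbs * c : ℕ) : K) * a = -((c : K) * (y • a)) := by
        rw [Nat.cast_mul, h, zsmul_eq_mul]
        ring
      rw [h5]
      exact h3.neg
  exact (IsIntegralClosure.isIntegral_iff (A := 𝓞 K)).1 h2

private theorem M7A_fin {K : Type} [Field K] [NumberField K] (S : Finset K) :
    ∃ N : ℕ, N ≠ 0 ∧ ∀ M : ℕ, N ∣ M → ∀ a ∈ S, ∃ b : 𝓞 K, algebraMap (𝓞 K) K b = (M : K) * a := by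
  classical
  induction S using Finset.induction_on with
  | empty => exact ⟨1, one_ne_zero, fun M _ a ha => absurd ha (Finset.notMem_empty a)⟩
  | insert x T _ ih =>
    obtain ⟨N, hN, h⟩ := ih
    obtain ⟨N', hN', h'⟩ := M7A_one x
    refine ⟨N' * N, mul_ne_zero hN' hN, fun M hM a ha => ?_⟩
    rcases Finset.mem_insert.1 ha with rfl | ha
    · exact h' M ((Dvd.intro _ rfl).trans hM)
    · exact h M ((Dvd.intro_left _ rfl).trans hM) a ha

theorem clr {K : Type} [Field K] [NumberField K] {n : ℕ} {ι : Type} [Finite ι] (p : ι → MvPolynomial (Fin n) K) :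
    ∃ N : ℕ, N ≠ 0 ∧ ∀ M : ℕ, N ∣ M → ∀ i, ∃ q : MvPolynomial (Fin n) (𝓞 K),
      MvPolynomial.map (algebraMap (𝓞 K) K) q = (M : MvPolynomial (Fin n) K) * p i := by
  classical
  have := Fintype.ofFinite ι
  obtain ⟨N, hN, h⟩ := M7A_fin
    (Finset.univ.biUnion fun i : ι => (p i).support.image fun m => MvPolynomial.coeff m (p i))
  refine ⟨N, hN, fun M hM i => ?_⟩
  have hb : ∀ m, ∃ b : 𝓞 K, algebraMap (𝓞 K) K b = (M : K) * MvPolynomial.coeff m (p i) := by
    intro m
    by_cases hm : m ∈ (p i).support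
    · exact h M hM _ (Finset.mem_biUnion.2 ⟨i, Finset.mem_univ _, Finset.mem_image_of_mem _ hm⟩)
    · refine ⟨0, ?_⟩
      rw [MvPolynomial.notMem_support_iff.1 hm, mul_zero, map_zero]
  choose b hb using hb
  refine ⟨∑ m ∈ (p i).support, MvPolynomial.monomial m (b m), ?_⟩
  rw [map_sum]
  have h1 : ∀ m ∈ (p i).support,
      MvPolynomial.map (algebraMap (𝓞 K) K) (MvPolynomial.monomial m (b m)) =
      (M : MvPolynomial (Fin n) K) * MvPolynomial.monomial m (MvPolynomial.coeff m (p i)) := by
    intro m _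
    have h2 : (M : MvPolynomial (Fin n) K) = MvPolynomial.C (M : K) := (map_natCast _ M).symm
    rw [MvPolynomial.map_monomial, hb, h2, MvPolynomial.C_mul_monomial]
  rw [Finset.sum_congr rfl h1, ← Finset.mul_sum, MvPolynomial.support_sum_monomial_coeff]

theorem clr2 {K : Type} [Field K] [NumberField K] {n : ℕ} {ι : Type} [Finite ι]
    (p : ι → (MvPolynomial (Fin n) K)[X]) :
    ∃ N : ℕ, N ≠ 0 ∧ ∀ M : ℕ, N ∣ M → ∀ i, ∃ q : (MvPolynomial (Fin n) (𝓞 K))[X],
      q.map (MvPolynomial.map (algebraMap (𝓞 K) K)) = (M : (MvPolynomial (Fin n) K)[X]) * p i := by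
  classical
  obtain ⟨N, hN, h⟩ := clr (ι := (i : ι) × {k // k ∈ (p i).support}) fun x => (p x.1).coeff x.2.1
  refine ⟨N, hN, fun M hM i => ?_⟩
  have hb : ∀ k, ∃ q : MvPolynomial (Fin n) (𝓞 K),
      MvPolynomial.map (algebraMap (𝓞 K) K) q = (M : MvPolynomial (Fin n) K) * (p i).coeff k := by
    intro k
    by_cases hk : k ∈ (p i).support
    · exact h M hM ⟨i, k, hk⟩
    · refine ⟨0, ?_⟩
      rw [Polynomial.notMem_support_iff.1 hk, mul_zero, map_zero]
  choose b hb using hb
  refine ⟨∑ k ∈ (p i).support, Polynomial.monomial k (b k), ?_⟩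
  rw [Polynomial.map_sum]
  have h1 : ∀ k ∈ (p i).support,
      (Polynomial.monomial k (b k)).map (MvPolynomial.map (algebraMap (𝓞 K) K)) =
      (M : (MvPolynomial (Fin n) K)[X]) * Polynomial.monomial k ((p i).coeff k) := by
    intro k _
    have h2 : (M : (MvPolynomial (Fin n) K)[X]) = Polynomial.C (M : MvPolynomial (Fin n) K) :=
      (map_natCast _ M).symm
    rw [Polynomial.map_monomial, hb, h2, Polynomial.C_mul_monomial]
  rw [Finset.sum_congr rfl h1, ← Finset.mul_sum]
  congr 1
  exact (Polynomial.as_sum_support (p i)).symm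

end LW
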