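import Pool.Agent.Lib.LW.M4
import Pool.Agent.Lib.LW.M7A

/-!
# LEAF M4C: the same with integral coefficients

PROOF.  `T0` from `noeth`, `N` from `clr` with `M = N`: `map (T j) = N * T0 j`.  Let `σ = aeval (fun j => C N * X j)` and `σ' = aeval (fun j => C N⁻¹ * X j)`, inverse to each other (`MvPolynomial.algHom_ext`).  `aeval (N T0) q = aeval T0 (σ q)`: in `P` implies `σ q = 0`, `q = σ' (σ q) = 0`.  For `b` take `q` from `noeth` and `q.map σ'` (monic): `ev C (N T0) b (q.map σ') = ev C T0 b q` (`Polynomial.eval₂_map`, the two ring homomorphisms agree).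
-/

namespace LW

open Polynomial NumberField

theorem noeth_int {K : Type} [Field K] [NumberField K] {m : ℕ} (P : Ideal (MvPolynomial (Fin m) K)) (hP : P.IsPrime)
    {r : ℕ} (hdim : ringKrullDim (MvPolynomial (Fin m) K ⧸ P) = r) :
    ∃ T : Fin r → MvPolynomial (Fin m) (𝓞 K),
      (∀ q : MvPolynomial (Fin r) K,
        MvPolynomial.aeval (fun j => MvPolynomial.map (algebraMap (𝓞 K) K) (T j)) q ∈ P → q = 0) ∧
      ∀ b : MvPolynomial (Fin m) K, ∃ q : (MvPolynomial (Fin r) K)[X], q.Monic ∧
        ev MvPolynomial.C (fun j => MvPolynomial.map (algebraMap (𝓞 K) K) (T j)) b q ∈ P := by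
  obtain ⟨T0, hT0, hb0⟩ := noeth P hP hdim
  obtain ⟨N, hN0, hN⟩ := clr T0
  have hN1 := hN N dvd_rfl
  choose T hT using hN1
  have hNK : (N : K) ≠ 0 := by
    have : CharZero K := inferInstance
    exact Nat.cast_ne_zero.mpr hN0
  have hNC : (N : MvPolynomial (Fin m) K) = MvPolynomial.C (N : K) := by
    simp
  have hfun : (fun j => MvPolynomial.map (algebraMap (𝓞 K) K) (T j))
      = fun j => MvPolynomial.C (N : K) * T0 j := by
    funext j
    rw [hT j, hNC]
  refine ⟨T, ?_⟩
  rw [hfun]
  set σ : MvPolynomial (Fin r) K →ₐ[K] MvPolynomial (Fin r) K :=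
    MvPolynomial.aeval (fun j => MvPolynomial.C (N : K) * MvPolynomial.X j) with hσ
  set σ' : MvPolynomial (Fin r) K →ₐ[K] MvPolynomial (Fin r) K :=
    MvPolynomial.aeval (fun j => MvPolynomial.C ((N : K)⁻¹) * MvPolynomial.X j) with hσ'
  have hCC : ∀ (c : K) (A : MvPolynomial (Fin r) K →ₐ[K] MvPolynomial (Fin r) K),
      A (MvPolynomial.C c) = MvPolynomial.C c := fun c A => A.commutes c
  have h1 : σ'.comp σ = AlgHom.id K _ := by
    apply MvPolynomial.algHom_ext
    intro j
    rw [AlgHom.comp_apply, hσ, MvPolynomial.aeval_X, map_mul, hCC, AlgHom.id_apply, hσ', MvPolynomial.aeval_X]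
    rw [← mul_assoc, ← map_mul, mul_inv_cancel₀ hNK, map_one, one_mul]
  refine ⟨?_, ?_⟩
  · intro q hq
    have h2 : MvPolynomial.aeval (fun j => MvPolynomial.C (N : K) * T0 j) q
        = MvPolynomial.aeval T0 (σ q) := by
      have h3 : (MvPolynomial.aeval (fun j => MvPolynomial.C (N : K) * T0 j) :
          MvPolynomial (Fin r) K →ₐ[K] MvPolynomial (Fin m) K)
          = (MvPolynomial.aeval T0).comp σ := by
        apply MvPolynomial.algHom_ext
        intro j
        have h4 : (MvPolynomial.aeval T0) (MvPolynomial.C (N : K) : MvPolynomial (Fin r) K)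
            = (MvPolynomial.C (N : K) : MvPolynomial (Fin m) K) :=
          (MvPolynomial.aeval T0 : MvPolynomial (Fin r) K →ₐ[K] MvPolynomial (Fin m) K).commutes (N : K)
        simp only [AlgHom.comp_apply, hσ, MvPolynomial.aeval_X, map_mul, h4]
      rw [h3]
      rfl
    rw [h2] at hq
    have h5 := hT0 _ hq
    have h6 : σ' (σ q) = q := by
      have := congrArg (fun f : MvPolynomial (Fin r) K →ₐ[K] MvPolynomial (Fin r) K => f q) h1
      simpa using this
    rw [← h6, h5, map_zero]
  · intro b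
    obtain ⟨q, hqm, hq⟩ := hb0 b
    refine ⟨q.map (σ' : MvPolynomial (Fin r) K →+* MvPolynomial (Fin r) K), hqm.map _, ?_⟩
    have h7 : (MvPolynomial.eval₂Hom (MvPolynomial.C : K →+* MvPolynomial (Fin m) K)
        (fun j => MvPolynomial.C (N : K) * T0 j)).comp
        (σ' : MvPolynomial (Fin r) K →+* MvPolynomial (Fin r) K)
        = MvPolynomial.eval₂Hom (MvPolynomial.C : K →+* MvPolynomial (Fin m) K) T0 := by
      apply MvPolynomial.ringHom_ext
      · intro c
        simp only [RingHom.comp_apply, RingHom.coe_coe, hCC, MvPolynomial.coe_eval₂Hom,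
          MvPolynomial.eval₂_C]
      · intro j
        simp only [RingHom.comp_apply, RingHom.coe_coe, hσ', MvPolynomial.aeval_X, map_mul,
          MvPolynomial.coe_eval₂Hom, MvPolynomial.eval₂_C, MvPolynomial.eval₂_X]
        rw [← mul_assoc, ← map_mul, inv_mul_cancel₀ hNK, map_one, one_mul]
    have h8 : ev MvPolynomial.C (fun j => MvPolynomial.C (N : K) * T0 j) b
        (q.map (σ' : MvPolynomial (Fin r) K →+* MvPolynomial (Fin r) K))
        = ev MvPolynomial.C T0 b q := by
      unfold ev
      rw [Polynomial.coe_eval₂RingHom, Polynomial.coe_eval₂RingHom, Polynomial.eval₂_map, h7]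
    rw [h8]
    exact hq

end LW
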