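import Mathlib

/-!
# LEAF M5B: a primitive element in the ring

PROOF.  `F = FractionRing A`, `L = FractionRing B` with the natural `F`-algebra structure (`FractionRing.liftAlgebra`, needs `FaithfulSMul A B` / injectivity; `IsScalarTower A F L`).  `B` is integral over `A` (`Module.Finite`).  For `x ∈ L` there are `a ≠ 0` in `A` and `b ∈ B` with `a x = b`: `x = b₁ / b₂` and `b₂` divides a nonzero element of `A` (`Algebra.IsAlgebraic.exists_smul_eq_mul`).  `L` is finite over `F` (spanned by the images of the generators of `B` over `A`) and separable (characteristic zero): `Field.exists_primitive_element F L` gives `α`; `a α = Y ∈ B`, `a ≠ 0`, so `F⟮Y⟯ = F⟮α⟯ = ⊤`.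
For `b ∈ B`: the image of `b` is in `F⟮Y⟯ = Algebra.adjoin F {Y}`, so it is `aeval Y g` with `g ∈ F[X]` (`Algebra.adjoin_singleton_eq_range_aeval`); clear denominators: `D g = h` with `h ∈ A[X]`, `D ≠ 0` (`IsLocalization.integerNormalization` or `IsLocalization.exist_integer_multiples_of_finset`); `D b = aeval Y h` holds in `L`, so in `B`.
-/

namespace LW

open Polynomial

/-- a multiple by an element of `A` is in `B` -/
private theorem M5B_den {A B L : Type} [CommRing A] [IsDomain A] [CommRing B] [IsDomain B] [Algebra A B]
    [Module.Finite A B] [Field L] [Algebra B L] [IsFractionRing B L] [Algebra A L] [IsScalarTower A B L] (x : L) :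
    ∃ (a : A) (b : B), a ≠ 0 ∧ algebraMap A L a * x = algebraMap B L b := by
  obtain ⟨b1, b2, hb2, rfl⟩ := IsFractionRing.div_surjective B x
  obtain ⟨r, hr, c, hc⟩ := (Algebra.IsAlgebraic.isAlgebraic (R := A) b2).exists_nonzero_dvd hb2
  refine ⟨r, c * b1, hr, ?_⟩
  have h2 : algebraMap B L b2 ≠ 0 := by
    intro h
    have h3 : b2 = 0 := IsFractionRing.injective B L (by rw [h, map_zero])
    exact nonZeroDivisors.ne_zero hb2 h3
  rw [IsScalarTower.algebraMap_apply A B L, hc, map_mul, map_mul]
  field_simp

private theorem M5B_main {A B F L : Type} [CommRing A] [IsDomain A] [CharZero A] [CommRing B] [IsDomain B]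
    [Algebra A B] [Module.Finite A B] [Field F] [Algebra A F] [IsFractionRing A F] [Field L] [Algebra B L]
    [IsFractionRing B L] [Algebra A L] [IsScalarTower A B L] [Algebra F L] [IsScalarTower A F L] :
    ∃ Y : B, ∀ b : B, ∃ (D : A) (h : A[X]), D ≠ 0 ∧ D • b = aeval Y h := by
  classical
  have hinj : ∀ a : A, a ≠ 0 → algebraMap A F a ≠ 0 := by
    intro a ha h
    exact ha (IsFractionRing.injective A F (by rw [h, map_zero]))
  have : CharZero F := IsFractionRing.charZero_of_isFractionRing A
  have : FiniteDimensional F L := by
    obtain ⟨S, hS⟩ := (Module.finite_def (R := A) (M := B)).1 inferInstance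
    refine Module.Finite.of_fg_top ⟨S.image (algebraMap B L), ?_⟩
    rw [eq_top_iff]
    intro x _
    obtain ⟨a, b, ha, hab⟩ := M5B_den (A := A) (B := B) x
    have h1 : ∀ b : B, algebraMap B L b ∈ Submodule.span F ((S.image (algebraMap B L) : Finset L) : Set L) := by
      intro b
      have h2 : b ∈ Submodule.span A (S : Set B) := by
        rw [hS]
        exact Submodule.mem_top
      refine Submodule.span_induction (p := fun b _ => algebraMap B L b ∈
        Submodule.span F ((S.image (algebraMap B L) : Finset L) : Set L)) ?_ ?_ ?_ ?_ h2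
      · intro b hb
        exact Submodule.subset_span (by
          rw [Finset.coe_image]
          exact Set.mem_image_of_mem _ hb)
      · rw [map_zero]
        exact Submodule.zero_mem _
      · intro u v _ _ hu hv
        rw [map_add]
        exact Submodule.add_mem _ hu hv
      · intro c u _ hu
        have h3 : algebraMap B L (c • u) = algebraMap A F c • algebraMap B L u := by
          rw [Algebra.smul_def c u, map_mul, ← IsScalarTower.algebraMap_apply A B L, Algebra.smul_def,
            ← IsScalarTower.algebraMap_apply A F L]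
        rw [h3]
        exact Submodule.smul_mem _ _ hu
    have h4 : x = (algebraMap A F a)⁻¹ • algebraMap B L b := by
      rw [← hab, IsScalarTower.algebraMap_apply A F L, ← Algebra.smul_def, smul_smul,
        inv_mul_cancel₀ (hinj a ha), one_smul]
    rw [h4]
    exact Submodule.smul_mem _ _ (h1 b)
  obtain ⟨α, hα⟩ := Field.exists_primitive_element F L
  obtain ⟨a, Y, ha, haY⟩ := M5B_den (A := A) (B := B) α
  refine ⟨Y, fun b => ?_⟩
  have h1 : algebraMap B L b ∈ Algebra.adjoin F {α} := by
    rw [← IntermediateField.adjoin_simple_toSubalgebra_of_isAlgebraic (IsAlgebraic.of_finite F α), hα]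
    exact IntermediateField.mem_top
  rw [Algebra.adjoin_singleton_eq_range_aeval] at h1
  obtain ⟨g, hg⟩ := h1
  obtain ⟨D, hD, hDg⟩ := IsLocalization.integerNormalization_spec (nonZeroDivisors A)
    (g.comp (C (algebraMap A F a)⁻¹ * X))
  refine ⟨D, IsLocalization.integerNormalization (nonZeroDivisors A) (g.comp (C (algebraMap A F a)⁻¹ * X)),
    nonZeroDivisors.ne_zero hD, ?_⟩
  · apply IsFractionRing.injective B L
    rw [← aeval_algebraMap_apply L, ← aeval_map_algebraMap F, hDg]
    have h2 : aeval (algebraMap B L Y) (C (algebraMap A F a)⁻¹ * X : F[X]) = α := by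
      rw [map_mul, aeval_C, aeval_X, ← haY, IsScalarTower.algebraMap_apply A F L, ← mul_assoc, ← map_mul,
        inv_mul_cancel₀ (hinj a ha), map_one, one_mul]
    have h3 : aeval (algebraMap B L Y) (g.comp (C (algebraMap A F a)⁻¹ * X)) = algebraMap B L b := by
      rw [aeval_comp, h2]
      exact hg
    have h4 : aeval (algebraMap B L Y) (D • g.comp (C (algebraMap A F a)⁻¹ * X)) =
        algebraMap A L D * algebraMap B L b := by
      rw [← h3, ← algebraMap_smul F D (g.comp (C (algebraMap A F a)⁻¹ * X)), map_smul, Algebra.smul_def,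
        ← IsScalarTower.algebraMap_apply A F L]
    rw [h4, Algebra.smul_def, map_mul, ← IsScalarTower.algebraMap_apply A B L]

theorem prim_elt {A B : Type} [CommRing A] [IsDomain A] [CharZero A] [CommRing B] [IsDomain B] [Algebra A B]
    [Module.Finite A B] (hinj : Function.Injective (algebraMap A B)) :
    ∃ Y : B, ∀ b : B, ∃ (D : A) (h : A[X]), D ≠ 0 ∧ D • b = aeval Y h := by
  have : FaithfulSMul A B := (faithfulSMul_iff_algebraMap_injective A B).2 hinj
  have : FaithfulSMul A (FractionRing B) := by
    rw [faithfulSMul_iff_algebraMap_injective, IsScalarTower.algebraMap_eq A B (FractionRing B)]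
    exact (IsFractionRing.injective B (FractionRing B)).comp hinj
  let _ := FractionRing.liftAlgebra A (FractionRing B)
  have := FractionRing.isScalarTower_liftAlgebra A (FractionRing B)
  exact M5B_main (F := FractionRing A) (L := FractionRing B)

end LW
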