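import Mathlib

/-!
# LEAF M5C: the minimal polynomial over an integrally closed domain

PROOF.  `minpoly A Y`: `minpoly.monic`, `minpoly.isIntegrallyClosed_dvd_iff` (`Module.IsTorsionFree A B` / `NoZeroSMulDivisors` from `hinj` and `IsDomain B`).
-/

namespace LW

open Polynomial

theorem minp {A B : Type} [CommRing A] [IsDomain A] [IsIntegrallyClosed A] [CommRing B] [IsDomain B] [Algebra A B]
    (hinj : Function.Injective (algebraMap A B)) (Y : B) (hY : IsIntegral A Y) :
    ∃ f : A[X], f.Monic ∧ ∀ h : A[X], aeval Y h = 0 ↔ f ∣ h := by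
  have : FaithfulSMul A B := (faithfulSMul_iff_algebraMap_injective A B).mpr hinj
  exact ⟨minpoly A Y, minpoly.monic hY, fun h => minpoly.isIntegrallyClosed_dvd_iff hY h⟩

end LW
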