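import Pool.Agent.Lib.LW.Ev
import Pool.Agent.Lib.LW.M5B
import Pool.Agent.Lib.LW.M5C

/-!
# LEAF M6: primitive element, in terms of polynomials

PROOF.  `A = MvPolynomial (Fin r) K` (a unique factorisation domain, so integrally closed), `B = MvPolynomial (Fin m) K ⧸ P` (a domain) with the algebra structure `((Ideal.Quotient.mk P).comp (MvPolynomial.aeval T).toRingHom).toAlgebra`; injective by `hT`; integral by `hint` (every element of `B` is `mk b`; `Polynomial.hom_eval₂`), of finite type over `K`, so over `A` (`Algebra.FiniteType.of_restrictScalars_finiteType` with `IsScalarTower K A B`), so finite (`Algebra.IsIntegral.finite`).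
`prim_elt` gives `Y' = mk Y`, `minp` gives `f`; `aeval (mk Y) h = mk (ev C T Y h)` for all `h` (`Polynomial.aeval_def`, `Polynomial.hom_eval₂`).  `D = ∏ i, D i` with `D i` from `prim_elt` for `b = mk (X i)` (`D = D i * E i`, take `E i * h i`).
-/

namespace LW

open Polynomial

theorem prim_poly {K : Type} [Field K] [CharZero K] {m r : ℕ} (P : Ideal (MvPolynomial (Fin m) K)) (hP : P.IsPrime)
    (T : Fin r → MvPolynomial (Fin m) K) (hT : ∀ q : MvPolynomial (Fin r) K, MvPolynomial.aeval T q ∈ P → q = 0)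
    (hint : ∀ b : MvPolynomial (Fin m) K, ∃ q : (MvPolynomial (Fin r) K)[X], q.Monic ∧
      ev MvPolynomial.C T b q ∈ P) :
    ∃ Y : MvPolynomial (Fin m) K, (∃ f : (MvPolynomial (Fin r) K)[X], f.Monic ∧
      ∀ h : (MvPolynomial (Fin r) K)[X], ev MvPolynomial.C T Y h ∈ P ↔ f ∣ h) ∧
      ∃ D : MvPolynomial (Fin r) K, D ≠ 0 ∧ ∀ i : Fin m, ∃ h : (MvPolynomial (Fin r) K)[X],
        MvPolynomial.aeval T D * MvPolynomial.X i - ev MvPolynomial.C T Y h ∈ P := by
  classical
  let ψ : MvPolynomial (Fin r) K →+* (MvPolynomial (Fin m) K ⧸ P) :=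
    (Ideal.Quotient.mk P).comp (MvPolynomial.aeval T).toRingHom
  let _inst : Algebra (MvPolynomial (Fin r) K) (MvPolynomial (Fin m) K ⧸ P) := ψ.toAlgebra
  have _d : IsDomain (MvPolynomial (Fin m) K ⧸ P) := Ideal.Quotient.isDomain P
  have halg : ∀ q : MvPolynomial (Fin r) K, algebraMap (MvPolynomial (Fin r) K) (MvPolynomial (Fin m) K ⧸ P) q =
      Ideal.Quotient.mk P (MvPolynomial.aeval T q) := fun q => rfl
  have hev : ∀ (b : MvPolynomial (Fin m) K) (q : (MvPolynomial (Fin r) K)[X]),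
      Ideal.Quotient.mk P (ev MvPolynomial.C T b q) = aeval (Ideal.Quotient.mk P b) q := by
    intro b q
    have h1 : ev MvPolynomial.C T b q = q.eval₂ (MvPolynomial.eval₂Hom MvPolynomial.C T) b := rfl
    rw [h1, Polynomial.hom_eval₂, Polynomial.aeval_def]
    rfl
  have hinj : Function.Injective (algebraMap (MvPolynomial (Fin r) K) (MvPolynomial (Fin m) K ⧸ P)) := by
    rw [injective_iff_map_eq_zero]
    intro q hq
    rw [halg, Ideal.Quotient.eq_zero_iff_mem] at hq
    exact hT q hq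
  have hI : Algebra.IsIntegral (MvPolynomial (Fin r) K) (MvPolynomial (Fin m) K ⧸ P) := by
    constructor
    intro b
    obtain ⟨b, rfl⟩ := Ideal.Quotient.mk_surjective b
    obtain ⟨q, hq, hm⟩ := hint b
    refine ⟨q, hq, ?_⟩
    rw [← Ideal.Quotient.eq_zero_iff_mem, hev] at hm
    exact hm
  have hS : IsScalarTower K (MvPolynomial (Fin r) K) (MvPolynomial (Fin m) K ⧸ P) := by
    refine IsScalarTower.of_algebraMap_eq fun c => ?_
    rw [halg, MvPolynomial.algebraMap_eq, MvPolynomial.aeval_C]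
    rfl
  have hFT : Algebra.FiniteType (MvPolynomial (Fin r) K) (MvPolynomial (Fin m) K ⧸ P) :=
    Algebra.FiniteType.of_restrictScalars_finiteType K _ _
  have hfin : Module.Finite (MvPolynomial (Fin r) K) (MvPolynomial (Fin m) K ⧸ P) :=
    Algebra.IsIntegral.finite
  obtain ⟨Y', hY'⟩ := prim_elt hinj
  obtain ⟨Y, rfl⟩ := Ideal.Quotient.mk_surjective Y'
  obtain ⟨f, hf, hfd⟩ := minp hinj (Ideal.Quotient.mk P Y) (hI.isIntegral _)
  refine ⟨Y, ⟨f, hf, fun h => ?_⟩, ?_⟩
  · rw [← Ideal.Quotient.eq_zero_iff_mem, hev]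
    exact hfd h
  · choose D h hD hDe using fun i : Fin m => hY' (Ideal.Quotient.mk P (MvPolynomial.X i))
    refine ⟨∏ i, D i, Finset.prod_ne_zero_iff.2 fun i _ => hD i, fun i => ?_⟩
    refine ⟨Polynomial.C (∏ j ∈ Finset.univ.erase i, D j) * h i, ?_⟩
    rw [← Ideal.Quotient.eq_zero_iff_mem, map_sub, map_mul, hev, ← halg, map_mul, Polynomial.aeval_C, ← hDe i,
      ← Finset.mul_prod_erase Finset.univ D (Finset.mem_univ i), map_mul, Algebra.smul_def]
    ring

end LW
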