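import Pool.Agent.Lib.LW.Ev

/-!
# LEAF M6S: scaling the primitive element

PROOF.  `scale_prim`: `ev C T (C c * Y) h = ev C T Y (h.comp (C (C c) * X))` (`Polynomial.eval₂_comp`; the value of `C (C c) * X` at `(T, Y)` is `C c * Y`).  `scaleRoots f (C c)` has the value `C c ^ d * ev C T Y f` at `(T, C c * Y)`, `d = natDegree f` (`Polynomial.scaleRoots_eval₂_mul`), in `P`: the direction from right to left.  Left to right: `f ∣ h.comp (C (C c) * X)`; substitute `C (C c⁻¹) * X`: `f.comp (C (C c⁻¹) * X) ∣ h`, and `scaleRoots f (C c) = C (C c ^ d) * f.comp (C (C c⁻¹) * X)` (coefficients: `f.coeff k * c ^ (d - k)`, `Polynomial.coeff_scaleRoots`, `Polynomial.comp_C_mul_X_coeff`), where `C (C c ^ d)` is a unit.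
`scale_int`: for `k < d` the coefficient `f.coeff k * N ^ (d - k) = N ^ (d - k - 1) * (N * f.coeff k)` has the lift `N ^ (d - k - 1) * q k`; the leading coefficient is one; put `f' = X ^ d + ∑ k < d, monomial k (lift)` and compare coefficients.
`scale_rel`: substitute `h' = h.comp (C (C c⁻¹) * X)`: `ev C T (C c * Y) h' = ev C T Y h`.
-/

namespace LW

open Polynomial NumberField

private theorem M6S_comp {K : Type} [Field K] {m r : ℕ} (T : Fin r → MvPolynomial (Fin m) K)
    (y : MvPolynomial (Fin m) K) (d : K) (h : (MvPolynomial (Fin r) K)[X]) :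
    ev MvPolynomial.C T y (h.comp (C (MvPolynomial.C d) * X)) = ev MvPolynomial.C T (MvPolynomial.C d * y) h := by
  simp only [ev, Polynomial.coe_eval₂RingHom]
  rw [Polynomial.eval₂_comp, Polynomial.eval₂_mul, Polynomial.eval₂_C, Polynomial.eval₂_X,
    MvPolynomial.coe_eval₂Hom, MvPolynomial.eval₂_C]

private theorem M6S_scale {K : Type} [Field K] {r : ℕ} (f : (MvPolynomial (Fin r) K)[X]) {c : K} (hc : c ≠ 0) :
    f.scaleRoots (MvPolynomial.C c) =
      C (MvPolynomial.C (c ^ f.natDegree)) * f.comp (C (MvPolynomial.C c⁻¹) * X) := by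
  ext1 i
  rw [Polynomial.coeff_scaleRoots, Polynomial.coeff_C_mul, Polynomial.comp_C_mul_X_coeff]
  rcases le_or_gt i f.natDegree with hi | hi
  · have h1 : c ^ (f.natDegree - i) = c ^ f.natDegree * c⁻¹ ^ i := by
      rw [inv_pow, ← div_eq_mul_inv, eq_div_iff (pow_ne_zero _ hc), ← pow_add, Nat.sub_add_cancel hi]
    rw [← map_pow, ← map_pow, h1, map_mul]
    ring
  · rw [Polynomial.coeff_eq_zero_of_natDegree_lt hi]
    simp

private theorem M6S_comp_comp {K : Type} [Field K] {r : ℕ} (h : (MvPolynomial (Fin r) K)[X]) {c : K} (hc : c ≠ 0) :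
    (h.comp (C (MvPolynomial.C c) * X)).comp (C (MvPolynomial.C c⁻¹) * X) = h := by
  rw [Polynomial.comp_assoc, Polynomial.mul_comp, Polynomial.C_comp, Polynomial.X_comp, ← mul_assoc,
    ← map_mul, ← map_mul, mul_inv_cancel₀ hc, map_one, map_one, one_mul, Polynomial.comp_X]

theorem scale_prim {K : Type} [Field K] {m r : ℕ} (P : Ideal (MvPolynomial (Fin m) K))
    (T : Fin r → MvPolynomial (Fin m) K) (Y : MvPolynomial (Fin m) K) (f : (MvPolynomial (Fin r) K)[X])
    (h1 : ∀ h : (MvPolynomial (Fin r) K)[X], ev MvPolynomial.C T Y h ∈ P ↔ f ∣ h) {c : K} (hc : c ≠ 0)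
    (h : (MvPolynomial (Fin r) K)[X]) :
    ev MvPolynomial.C T (MvPolynomial.C c * Y) h ∈ P ↔ f.scaleRoots (MvPolynomial.C c) ∣ h := by
  constructor
  · intro hh
    rw [← M6S_comp, h1] at hh
    obtain ⟨g, hg⟩ := hh
    have h2 : h = f.comp (C (MvPolynomial.C c⁻¹) * X) * g.comp (C (MvPolynomial.C c⁻¹) * X) := by
      rw [← Polynomial.mul_comp, ← hg, M6S_comp_comp h hc]
    have hcd : c ^ f.natDegree ≠ 0 := pow_ne_zero _ hc
    refine ⟨C (MvPolynomial.C (c ^ f.natDegree)⁻¹) * g.comp (C (MvPolynomial.C c⁻¹) * X), ?_⟩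
    rw [M6S_scale f hc]
    have h3 : (C (MvPolynomial.C (c ^ f.natDegree)) : (MvPolynomial (Fin r) K)[X]) *
        C (MvPolynomial.C (c ^ f.natDegree)⁻¹) = 1 := by
      rw [← map_mul, ← map_mul, mul_inv_cancel₀ hcd, map_one, map_one]
    calc h = 1 * (f.comp (C (MvPolynomial.C c⁻¹) * X) * g.comp (C (MvPolynomial.C c⁻¹) * X)) := by
          rw [one_mul]; exact h2
      _ = _ := by rw [← h3]; ring
  · rintro ⟨g, rfl⟩
    rw [map_mul]
    apply P.mul_mem_right
    rw [M6S_scale f hc, map_mul]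
    apply P.mul_mem_left
    rw [M6S_comp, ← mul_assoc, ← map_mul, inv_mul_cancel₀ hc, map_one, one_mul]
    exact (h1 f).2 dvd_rfl

theorem scale_rel {K : Type} [Field K] {m r : ℕ} (T : Fin r → MvPolynomial (Fin m) K) (Y : MvPolynomial (Fin m) K)
    {c : K} (hc : c ≠ 0) (h : (MvPolynomial (Fin r) K)[X]) :
    ∃ h' : (MvPolynomial (Fin r) K)[X], ev MvPolynomial.C T (MvPolynomial.C c * Y) h' = ev MvPolynomial.C T Y h := by
  refine ⟨h.comp (C (MvPolynomial.C c⁻¹) * X), ?_⟩
  rw [M6S_comp, ← mul_assoc, ← map_mul, inv_mul_cancel₀ hc, map_one, one_mul]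

theorem scale_int {K : Type} [Field K] [NumberField K] {r : ℕ} (f : (MvPolynomial (Fin r) K)[X]) (hf : f.Monic)
    (N : ℕ) (hN : ∀ k, ∃ q : MvPolynomial (Fin r) (𝓞 K),
      MvPolynomial.map (algebraMap (𝓞 K) K) q = (N : MvPolynomial (Fin r) K) * f.coeff k) :
    ∃ f' : (MvPolynomial (Fin r) (𝓞 K))[X], f'.Monic ∧
      f'.map (MvPolynomial.map (algebraMap (𝓞 K) K)) = f.scaleRoots (MvPolynomial.C (N : K)) := by
  choose q hq using hN
  refine ⟨X ^ f.natDegree + ∑ i : Fin f.natDegree,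
    C ((N : MvPolynomial (Fin r) (𝓞 K)) ^ (f.natDegree - i - 1) * q i) * X ^ (i : ℕ), ?_, ?_⟩
  · exact Polynomial.monic_X_pow_add (Polynomial.degree_sum_fin_lt _)
  · have hm : (f.scaleRoots (MvPolynomial.C (N : K))).Monic := (Polynomial.monic_scaleRoots_iff _).2 hf
    rw [hm.as_sum, Polynomial.natDegree_scaleRoots, Polynomial.map_add, Polynomial.map_pow, Polynomial.map_X,
      Polynomial.map_sum, Finset.sum_range]
    congr 1
    refine Finset.sum_congr rfl fun i _ => ?_
    rw [Polynomial.map_mul, Polynomial.map_pow, Polynomial.map_X, Polynomial.map_C, map_mul, map_pow, map_natCast, hq,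
      Polynomial.coeff_scaleRoots]
    have hi : f.natDegree - (i : ℕ) = (f.natDegree - i - 1) + 1 := by have := i.2; omega
    have h4 : (MvPolynomial.C (N : K) : MvPolynomial (Fin r) K) = (N : MvPolynomial (Fin r) K) := map_natCast _ _
    have h5 : (N : MvPolynomial (Fin r) K) ^ (f.natDegree - (i : ℕ) - 1) * ((N : MvPolynomial (Fin r) K) * f.coeff i) =
        f.coeff i * (MvPolynomial.C (N : K)) ^ (f.natDegree - (i : ℕ)) := by
      rw [h4]
      conv_rhs => rw [hi]
      rw [pow_succ]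
      ring
    rw [h5]

end LW
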