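import Pool.Agent.Lib.LW.M2
import Pool.Agent.Lib.LW.M3
import Pool.Agent.Lib.LW.M4C
import Pool.Agent.Lib.LW.M6
import Pool.Agent.Lib.LW.M6S

/-!
# LEAF M7: all relations with integral coefficients

PROOF.  `P` is prime (`prime_of`).  `T` from `noeth_int`, `T' j = map (T j)`.  `Y0, f0, D0, h0` over `K` from `prim_poly` (for `T'`); `Q0 i` from `noeth_int` for `b = X i`.
`N1` from `clr` for the family consisting of `Y0` and of the coefficients `f0.coeff k`, `k ≤ natDegree f0` (e.g. `ι = Option (Fin (natDegree f0 + 1))`; the other coefficients are zero).  `Y` a lift of `N1 * Y0`, so `map Y = C N1 * Y0`; `f` from `scale_int`; with `c = N1 ≠ 0`: `∀ h, ev C T' (map Y) h ∈ P ↔ f0.scaleRoots (C N1) ∣ h` (`scale_prim`), in particular `ev C T' (map Y) (f.map ..) ∈ P`, and `geo` gives the irreducibility over the algebraic closure (`Polynomial.map_map`, `MvPolynomial.map_map`-type composition, `algebraMap (𝓞 K) (AlgebraicClosure K) = (algebraMap K _).comp (algebraMap (𝓞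 K) K)`).
`h1 i` with `ev C T' (map Y) (h1 i) = ev C T' Y0 (h0 i)` (`scale_rel`).  `N2` from `clr` for `D0` and `N3` from `clr2` for the family of all `h1 i`, `Q0 i`; `M = N2 * N3`: `D` a lift of `M * D0`, `h i` of `M * h1 i`, `Q i` of `M * Q0 i`, whose leading coefficient is `M` (`Q0 i` monic; `MvPolynomial.map` of the injective `𝓞 K → K` is injective, `Polynomial.leadingCoeff_map_of_injective`), `N = M`.
All relations: `MvPolynomial.map` of `ev C T Y g` is `ev C T' (map Y) (g.map ..)` (as `ev_map` in M3, same proof, or `Polynomial.hom_eval₂`); multiples of elements of `P` are in `P`.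
-/

namespace LW

open Polynomial NumberField

private theorem M7_ev_map {R S : Type} [CommRing R] [CommRing S] (ρ : R →+* S) {r m : ℕ}
    (T : Fin r → MvPolynomial (Fin m) R) (Y : MvPolynomial (Fin m) R) (g : (MvPolynomial (Fin r) R)[X]) :
    MvPolynomial.map ρ (ev MvPolynomial.C T Y g) =
      ev MvPolynomial.C (fun j => MvPolynomial.map ρ (T j)) (MvPolynomial.map ρ Y)
        (g.map (MvPolynomial.map ρ)) := by
  unfold ev
  rw [Polynomial.coe_eval₂RingHom, Polynomial.coe_eval₂RingHom, Polynomial.hom_eval₂,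
    Polynomial.eval₂_map]
  have h : (MvPolynomial.map ρ).comp (MvPolynomial.eval₂Hom MvPolynomial.C T) =
      (MvPolynomial.eval₂Hom MvPolynomial.C (fun j => MvPolynomial.map ρ (T j))).comp
        (MvPolynomial.map ρ) := by
    apply MvPolynomial.ringHom_ext
    · intro a
      simp
    · intro j
      simp
  rw [h]

private theorem M7_aeval_map {R S : Type} [CommRing R] [CommRing S] (ρ : R →+* S) {r m : ℕ}
    (T : Fin r → MvPolynomial (Fin m) R) (D : MvPolynomial (Fin r) R) :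
    MvPolynomial.map ρ (MvPolynomial.aeval T D) =
      MvPolynomial.aeval (fun j => MvPolynomial.map ρ (T j)) (MvPolynomial.map ρ D) := by
  have h : (MvPolynomial.map ρ).comp (MvPolynomial.aeval T : MvPolynomial (Fin r) R →ₐ[R]
        MvPolynomial (Fin m) R).toRingHom =
      (MvPolynomial.aeval (fun j => MvPolynomial.map ρ (T j)) : MvPolynomial (Fin r) S →ₐ[S]
        MvPolynomial (Fin m) S).toRingHom.comp (MvPolynomial.map ρ) := by
    apply MvPolynomial.ringHom_ext
    · intro a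
      simp
    · intro j
      simp
  exact congrArg (fun φ : MvPolynomial (Fin r) R →+* MvPolynomial (Fin m) S => φ D) h

theorem data {K : Type} [Field K] [NumberField K] {m : ℕ} (P : Ideal (MvPolynomial (Fin m) K))
    (hP : (P.map (MvPolynomial.map (σ := Fin m) (algebraMap K (AlgebraicClosure K)))).IsPrime) {r : ℕ}
    (hdim : ringKrullDim (MvPolynomial (Fin m) K ⧸ P) = r) :
    ∃ (T : Fin r → MvPolynomial (Fin m) (𝓞 K)) (Y : MvPolynomial (Fin m) (𝓞 K))
      (f : (MvPolynomial (Fin r) (𝓞 K))[X]) (D : MvPolynomial (Fin r) (𝓞 K))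
      (h Q : Fin m → (MvPolynomial (Fin r) (𝓞 K))[X]) (N : ℕ), N ≠ 0 ∧ D ≠ 0 ∧ f.Monic ∧
      Irreducible (f.map (MvPolynomial.map (algebraMap (𝓞 K) (AlgebraicClosure K)))) ∧
      (∀ i, (Q i).leadingCoeff = (N : MvPolynomial (Fin r) (𝓞 K))) ∧
      MvPolynomial.map (algebraMap (𝓞 K) K) (ev MvPolynomial.C T Y f) ∈ P ∧
      (∀ i, MvPolynomial.map (algebraMap (𝓞 K) K)
        (MvPolynomial.aeval T D * MvPolynomial.X i - ev MvPolynomial.C T Y (h i)) ∈ P) ∧
      ∀ i, MvPolynomial.map (algebraMap (𝓞 K) K) (ev MvPolynomial.C T (MvPolynomial.X i) (Q i)) ∈ P := by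
  have hPp : P.IsPrime := prime_of P hP
  obtain ⟨T, hT1, hT2⟩ := noeth_int P hPp hdim
  obtain ⟨Y0, ⟨f0, hf0, hf0'⟩, D0, hD0, hD0'⟩ := prim_poly P hPp _ hT1 hT2
  choose h0 hh0 using hD0'
  choose Q0 hQ0m hQ0 using fun i : Fin m => hT2 (MvPolynomial.X i)
  set T' : Fin r → MvPolynomial (Fin m) K := fun j => MvPolynomial.map (algebraMap (𝓞 K) K) (T j)
    with hT'
  obtain ⟨Na, hNa, hNa'⟩ := clr (K := K) (ι := Unit) fun _ => Y0
  obtain ⟨Nb, hNb, hNb'⟩ := clr (K := K) (ι := Fin (f0.natDegree + 1)) fun k => f0.coeff k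
  obtain ⟨Y, hY⟩ := hNa' (Na * Nb) (dvd_mul_right _ _) ()
  have hc : ((Na * Nb : ℕ) : K) ≠ 0 := by
    exact_mod_cast mul_ne_zero hNa hNb
  have hcoef : ∀ k, ∃ q : MvPolynomial (Fin r) (𝓞 K),
      MvPolynomial.map (algebraMap (𝓞 K) K) q =
        ((Na * Nb : ℕ) : MvPolynomial (Fin r) K) * f0.coeff k := by
    intro k
    by_cases hk : k < f0.natDegree + 1
    · exact hNb' (Na * Nb) (dvd_mul_left _ _) ⟨k, hk⟩
    · refine ⟨0, ?_⟩
      rw [Polynomial.coeff_eq_zero_of_natDegree_lt (by omega), mul_zero, map_zero]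
  obtain ⟨f, hfm, hf⟩ := scale_int f0 hf0 (Na * Nb) hcoef
  have hC : ∀ n : ℕ, ((n : ℕ) : MvPolynomial (Fin m) K) = MvPolynomial.C (n : K) := fun n => by
    rw [map_natCast]
  rw [hC] at hY
  have hsp := scale_prim P T' Y0 f0 hf0' hc
  choose h1 hh1 using fun i => scale_rel T' Y0 hc (h0 i)
  obtain ⟨N2, hN2, hN2'⟩ := clr (K := K) (ι := Unit) fun _ => D0
  obtain ⟨N3, hN3, hN3'⟩ := clr2 (K := K) h1
  obtain ⟨N4, hN4, hN4'⟩ := clr2 (K := K) Q0
  have hM : N2 * N3 * N4 ≠ 0 := mul_ne_zero (mul_ne_zero hN2 hN3) hN4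
  obtain ⟨D, hD⟩ := hN2' (N2 * N3 * N4) ⟨N3 * N4, by ring⟩ ()
  choose h hh using hN3' (N2 * N3 * N4) ⟨N2 * N4, by ring⟩
  choose Q hQ using hN4' (N2 * N3 * N4) ⟨N2 * N3, by ring⟩
  generalize N2 * N3 * N4 = M at hM hD hh hQ
  generalize hcd : ((Na * Nb : ℕ) : K) = c at hc hY hf hsp hh1
  have hinj : Function.Injective
      (MvPolynomial.map (algebraMap (𝓞 K) K) : MvPolynomial (Fin r) (𝓞 K) →+*
        MvPolynomial (Fin r) K) :=
    MvPolynomial.map_injective _ (FaithfulSMul.algebraMap_injective (𝓞 K) K)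
  refine ⟨T, Y, f, D, h, Q, M, hM, ?_, hfm, ?_, ?_, ?_, ?_, ?_⟩
  · intro h0
    rw [h0, map_zero] at hD
    rcases mul_eq_zero.1 hD.symm with h2 | h2
    · exact hM (by exact_mod_cast h2)
    · exact hD0 h2
  · have hg := geo P hP T' (MvPolynomial.C c * Y0) (f0.scaleRoots (MvPolynomial.C c))
      ((Polynomial.monic_scaleRoots_iff _).2 hf0) ((hsp _).2 dvd_rfl) fun q hq => (hsp q).1 hq
    rw [← hf, Polynomial.map_map] at hg
    have hmm : (MvPolynomial.map (algebraMap K (AlgebraicClosure K))).comp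
        (MvPolynomial.map (algebraMap (𝓞 K) K)) =
        (MvPolynomial.map (algebraMap (𝓞 K) (AlgebraicClosure K)) :
          MvPolynomial (Fin r) (𝓞 K) →+* MvPolynomial (Fin r) (AlgebraicClosure K)) := by
      apply MvPolynomial.ringHom_ext
      · intro a
        simp only [RingHom.comp_apply, MvPolynomial.map_C]
        rw [← IsScalarTower.algebraMap_apply]
      · intro j
        simp
    rw [hmm] at hg
    exact hg
  · intro i
    apply hinj
    rw [← Polynomial.leadingCoeff_map_of_injective hinj, hQ i, Polynomial.leadingCoeff_mul,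
      (hQ0m i).leadingCoeff, mul_one, map_natCast, ← Polynomial.C_eq_natCast,
      Polynomial.leadingCoeff_C]
  · rw [M7_ev_map, hY, hf]
    exact (hsp _).2 dvd_rfl
  · intro i
    rw [map_sub, map_mul, MvPolynomial.map_X, M7_aeval_map, M7_ev_map, hD, hY, hh i, map_mul,
      map_mul, map_natCast, map_natCast, hh1 i]
    have h3 : (M : MvPolynomial (Fin m) K) * MvPolynomial.aeval T' D0 * MvPolynomial.X i -
        (M : MvPolynomial (Fin m) K) * ev MvPolynomial.C T' Y0 (h0 i) =
        (M : MvPolynomial (Fin m) K) * (MvPolynomial.aeval T' D0 * MvPolynomial.X i -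
          ev MvPolynomial.C T' Y0 (h0 i)) := by
      ring
    exact h3 ▸ P.mul_mem_left _ (hh0 i)
  · intro i
    rw [M7_ev_map, MvPolynomial.map_X, hQ i, map_mul, map_natCast]
    exact P.mul_mem_left _ (hQ0 i)

end LW
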