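import Pool.Agent.Lib.LW.Ev

/-!
# LEAF M8: counting the points modulo `p`

PROOF.  For `x` in the set let `t j = eval₂ φ x (T j)`, `y = eval₂ φ x Y`.  `eval₂ φ x (ev C T Y g) = ev φ t y g = (g.map (eval₂Hom φ t)).eval y` for every `g` (`Polynomial.hom_eval₂`, `MvPolynomial.eval₂_comp..`; prove it once: two ring homomorphisms from `(MvPolynomial _ R)[X]` which agree on `X`, `X j`, constants: `Polynomial.ringHom_ext`, `MvPolynomial.ringHom_ext`).
If `eval₂ φ t D ≠ 0`: `x i = (value of h i at (t, y)) / eval₂ φ t D`, so `x` is determined by `(t, y)`, which is in the first set: at most as many `x` as elements of the first set.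
If `eval₂ φ t D = 0`: for given `t` each `x i` is a root of `(Q i).map (eval₂Hom φ t)`, a polynomial of degree at most `natDegree (Q i)` which is not zero as its coefficient at `natDegree (Q i)` is `φ N ≠ 0`; at most `natDegree (Q i)` values for `x i` (`Polynomial.card_roots'`), so at most `∏ i, natDegree (Q i)` points `x` (map into `(t, roots)`; `Fintype.card_pi`; or the set of `x` with given `t` injects into the product of the finite sets of roots: `Fintype.piFinset`, `Finset.card_le_card_of..`), and the total is at most `#{t | D = 0} * ∏ ..` (`Finset.card_eq_sum_card_fiberwise` or `Finset.card_biUnion_le`).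
-/

namespace LW

open Polynomial

theorem ev_val {R F : Type} [CommRing R] [Field F] (φ : R →+* F) {m r : ℕ} (T : Fin r → MvPolynomial (Fin m) R)
    (Y : MvPolynomial (Fin m) R) (g : (MvPolynomial (Fin r) R)[X]) (x : Fin m → F) :
    MvPolynomial.eval₂ φ x (ev MvPolynomial.C T Y g) =
      (g.map (MvPolynomial.eval₂Hom φ fun j => MvPolynomial.eval₂ φ x (T j))).eval (MvPolynomial.eval₂ φ x Y) := by
  have h1 : (MvPolynomial.eval₂Hom φ x).comp (MvPolynomial.eval₂Hom (MvPolynomial.C : R →+* MvPolynomial (Fin m) R) T) =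
      MvPolynomial.eval₂Hom φ fun j => MvPolynomial.eval₂ φ x (T j) := by
    refine MvPolynomial.ringHom_ext (fun r => ?_) fun i => ?_
    · rw [RingHom.comp_apply, MvPolynomial.eval₂Hom_C, MvPolynomial.eval₂Hom_C, MvPolynomial.eval₂Hom_C]
    · rw [RingHom.comp_apply, MvPolynomial.eval₂Hom_X', MvPolynomial.eval₂Hom_X']
      rfl
  rw [Polynomial.eval_map, ← h1]
  exact Polynomial.hom_eval₂ g _ (MvPolynomial.eval₂Hom φ x) Y

/-- the number of roots of a polynomial -/
private theorem M8_card_roots {F : Type} [Field F] [Finite F] (p : F[X]) (hp : p ≠ 0) :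
    Nat.card {a : F // p.eval a = 0} ≤ p.natDegree := by
  classical
  have h1 : Nat.card {a : F // p.eval a = 0} = p.roots.toFinset.card := by
    refine Nat.subtype_card p.roots.toFinset fun a => ?_
    rw [Multiset.mem_toFinset, Polynomial.mem_roots hp]
    rfl
  rw [h1]
  exact (Multiset.toFinset_card_le _).trans (Polynomial.card_roots' p)


theorem cnt {R F : Type} [CommRing R] [Field F] [Finite F] (φ : R →+* F) {m r : ℕ}
    (T : Fin r → MvPolynomial (Fin m) R) (Y : MvPolynomial (Fin m) R) (f : (MvPolynomial (Fin r) R)[X])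
    (D : MvPolynomial (Fin r) R) (h Q : Fin m → (MvPolynomial (Fin r) R)[X]) (N : ℕ) (hN : (N : F) ≠ 0)
    (hQ : ∀ i, (Q i).leadingCoeff = (N : MvPolynomial (Fin r) R)) :
    Nat.card {x : Fin m → F // MvPolynomial.eval₂ φ x (ev MvPolynomial.C T Y f) = 0 ∧
      (∀ i, MvPolynomial.eval₂ φ x
        (MvPolynomial.aeval T D * MvPolynomial.X i - ev MvPolynomial.C T Y (h i)) = 0) ∧
      ∀ i, MvPolynomial.eval₂ φ x (ev MvPolynomial.C T (MvPolynomial.X i) (Q i)) = 0} ≤
    Nat.card {z : (Fin r → F) × F // (f.map (MvPolynomial.eval₂Hom φ z.1)).eval z.2 = 0} +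
      Nat.card {t : Fin r → F // MvPolynomial.eval₂ φ t D = 0} * ∏ i, (Q i).natDegree := by
  classical
  have hval : ∀ x : Fin m → F, ∀ i, MvPolynomial.eval₂ φ x (ev MvPolynomial.C T (MvPolynomial.X i) (Q i)) =
      ((Q i).map (MvPolynomial.eval₂Hom φ fun j => MvPolynomial.eval₂ φ x (T j))).eval (x i) := by
    intro x i
    rw [ev_val, MvPolynomial.eval₂_X]
  have hD : ∀ x : Fin m → F, MvPolynomial.eval₂ φ x (MvPolynomial.aeval T D) =
      MvPolynomial.eval₂ φ (fun j => MvPolynomial.eval₂ φ x (T j)) D := by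
    intro x
    have h1 : (MvPolynomial.eval₂Hom φ x).comp (MvPolynomial.aeval T : MvPolynomial (Fin r) R →ₐ[R] _).toRingHom =
        MvPolynomial.eval₂Hom φ fun j => MvPolynomial.eval₂ φ x (T j) := by
      refine MvPolynomial.ringHom_ext (fun r => ?_) fun i => ?_
      · rw [RingHom.comp_apply, MvPolynomial.eval₂Hom_C]
        show MvPolynomial.eval₂Hom φ x (MvPolynomial.aeval T (MvPolynomial.C r)) = φ r
        rw [MvPolynomial.aeval_C]
        exact MvPolynomial.eval₂Hom_C φ x r
      · rw [RingHom.comp_apply, MvPolynomial.eval₂Hom_X']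
        show MvPolynomial.eval₂Hom φ x (MvPolynomial.aeval T (MvPolynomial.X i)) = _
        rw [MvPolynomial.aeval_X]
        rfl
    exact RingHom.congr_fun h1 D
  -- the target of the map
  let Z : Type := {z : (Fin r → F) × F // (f.map (MvPolynomial.eval₂Hom φ z.1)).eval z.2 = 0}
  let T0 : Type := {t : Fin r → F // MvPolynomial.eval₂ φ t D = 0}
  let W : T0 → Type := fun t => ∀ i : Fin m, {a : F // ((Q i).map (MvPolynomial.eval₂Hom φ t.1)).eval a = 0}
  have hcW : ∀ t : T0, Nat.card (W t) ≤ ∏ i, (Q i).natDegree := by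
    intro t
    show Nat.card (∀ i : Fin m, {a : F // ((Q i).map (MvPolynomial.eval₂Hom φ t.1)).eval a = 0}) ≤ _
    rw [Nat.card_pi]
    refine Finset.prod_le_prod' fun i _ => ?_
    have hne : (Q i).map (MvPolynomial.eval₂Hom φ t.1) ≠ 0 := by
      intro h0
      have h1 := congrArg (fun q => Polynomial.coeff q (Q i).natDegree) h0
      simp only [Polynomial.coeff_map, Polynomial.coeff_zero] at h1
      rw [Polynomial.coeff_natDegree, hQ i, map_natCast] at h1
      exact hN h1
    exact (M8_card_roots _ hne).trans Polynomial.natDegree_map_le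
  have hfW : ∀ t : T0, Finite (W t) := fun t => by
    show Finite (∀ i : Fin m, {a : F // ((Q i).map (MvPolynomial.eval₂Hom φ t.1)).eval a = 0})
    infer_instance
  have : Finite Z := by
    show Finite {z : (Fin r → F) × F // (f.map (MvPolynomial.eval₂Hom φ z.1)).eval z.2 = 0}
    infer_instance
  have : Finite T0 := by
    show Finite {t : Fin r → F // MvPolynomial.eval₂ φ t D = 0}
    infer_instance
  have hsig : Nat.card (Σ t : T0, W t) ≤ Nat.card T0 * ∏ i, (Q i).natDegree := by
    let : Fintype T0 := Fintype.ofFinite T0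
    rw [Nat.card_sigma]
    refine (Finset.sum_le_card_nsmul _ _ _ fun t _ => hcW t).trans ?_
    rw [smul_eq_mul, Nat.card_eq_fintype_card]
    exact le_rfl
  let tt : (Fin m → F) → Fin r → F := fun x j => MvPolynomial.eval₂ φ x (T j)
  let A : Type := {x : Fin m → F // MvPolynomial.eval₂ φ x (ev MvPolynomial.C T Y f) = 0 ∧
      (∀ i, MvPolynomial.eval₂ φ x
        (MvPolynomial.aeval T D * MvPolynomial.X i - ev MvPolynomial.C T Y (h i)) = 0) ∧
      ∀ i, MvPolynomial.eval₂ φ x (ev MvPolynomial.C T (MvPolynomial.X i) (Q i)) = 0}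
  have hA1 : ∀ x : A, (f.map (MvPolynomial.eval₂Hom φ (tt x.1))).eval (MvPolynomial.eval₂ φ x.1 Y) = 0 := fun x => by
    have h1 := x.2.1
    rw [ev_val] at h1
    exact h1
  have hA2 : ∀ x : A, ∀ i, MvPolynomial.eval₂ φ (tt x.1) D * x.1 i =
      ((h i).map (MvPolynomial.eval₂Hom φ (tt x.1))).eval (MvPolynomial.eval₂ φ x.1 Y) := fun x i => by
    have h1 := x.2.2.1 i
    rw [MvPolynomial.eval₂_sub, MvPolynomial.eval₂_mul, MvPolynomial.eval₂_X, hD, ev_val] at h1
    exact sub_eq_zero.1 h1
  have hA3 : ∀ x : A, ∀ i, ((Q i).map (MvPolynomial.eval₂Hom φ (tt x.1))).eval (x.1 i) = 0 := fun x i => by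
    have h1 := x.2.2.2 i
    rw [hval] at h1
    exact h1
  let G : A → Z ⊕ (Σ t : T0, W t) := fun x =>
    if hx : MvPolynomial.eval₂ φ (tt x.1) D = 0 then
      Sum.inr ⟨⟨tt x.1, hx⟩, fun i => ⟨x.1 i, hA3 x i⟩⟩
    else Sum.inl ⟨(tt x.1, MvPolynomial.eval₂ φ x.1 Y), hA1 x⟩
  have hG : Function.Injective G := by
    intro x y hxy
    by_cases hx : MvPolynomial.eval₂ φ (tt x.1) D = 0 <;> by_cases hy : MvPolynomial.eval₂ φ (tt y.1) D = 0
    · have h1 := congrArg (Sum.elim (fun _ => (0 : Fin m → F)) fun s i => ((s.2 i).1 : F)) hxy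
      simp only [G, dif_pos hx, dif_pos hy, Sum.elim_inr] at h1
      exact Subtype.ext h1
    · exfalso
      simp only [G, dif_pos hx, dif_neg hy] at hxy
      cases hxy
    · exfalso
      simp only [G, dif_neg hx, dif_pos hy] at hxy
      cases hxy
    · simp only [G, dif_neg hx, dif_neg hy] at hxy
      have h1 := congrArg Subtype.val (Sum.inl_injective hxy)
      have h2 : tt x.1 = tt y.1 := congrArg Prod.fst h1
      have h3 : MvPolynomial.eval₂ φ x.1 Y = MvPolynomial.eval₂ φ y.1 Y := congrArg Prod.snd h1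
      refine Subtype.ext (funext fun i => ?_)
      have h4 := hA2 x i
      have h5 := hA2 y i
      rw [← h2, ← h3, ← h4] at h5
      exact (mul_left_cancel₀ hx h5).symm
  calc Nat.card A ≤ Nat.card (Z ⊕ (Σ t : T0, W t)) := Nat.card_le_card_of_injective G hG
    _ = Nat.card Z + Nat.card (Σ t : T0, W t) := Nat.card_sum
    _ ≤ Nat.card Z + Nat.card T0 * ∏ i, (Q i).natDegree := Nat.add_le_add_left hsig _

end LW
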