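import Pool.Agent.Lib.LW.Hyp
import Pool.Agent.Lib.LW.M7
import Pool.Agent.Lib.LW.M8
import Pool.Agent.Lib.LW.M9
import Pool.Agent.Lib.LW.M10

/-!
# LEAF M11: BLOCK (c2).  The Lang-Weil upper bound.

PROOF.  `data` gives `T, Y, f, D, h, Q, N`; `G` is the finite set of the polynomials `ev C T Y f`, `aeval T D * X i - ev C T Y (h i)`, `ev C T (X i) (Q i)` (`i : Fin m`; `open Classical`, `insert`, `Finset.univ.image`, union).  `p0` is larger than the `p0` of `hyp_le`, than `N`, than the `M` of `nz_poly` for `D`, and than `100 * totalDegree D * ∏ natDegree (Q i)`.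
For `p ≥ p0`: `cnt` with `F = ZMod p`; the first term is at most `107 / 100 * p ^ r` by `hyp_le`; the second: `eval₂ φ t D = eval t (map φ D)` (`MvPolynomial.eval₂_eq_eval_map`), `sz` with `ι = RingHom.id`, `totalDegree (map φ D) ≤ totalDegree D` (`MvPolynomial.totalDegree_map_le` or similar): `# * p ≤ totalDegree D * p ^ r`.  So `100 * # ≤ 107 p ^ r + 100 * deg D * ∏ * p ^ r / p ≤ 107 p ^ r + p ^ r ≤ 110 p ^ r`.
-/

namespace LW

open NumberField

private theorem Main_tdeg {R S : Type} [CommRing R] [CommRing S] (φ : R →+* S) {r : ℕ} (D : MvPolynomial (Fin r) R) :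
    (MvPolynomial.map φ D).totalDegree ≤ D.totalDegree := by
  unfold MvPolynomial.totalDegree
  exact Finset.sup_mono (MvPolynomial.support_map_subset φ D)

theorem lang_weil' (K : Type) [Field K] [NumberField K] {m : ℕ} (P : Ideal (MvPolynomial (Fin m) K))
    (hP : (P.map (MvPolynomial.map (σ := Fin m) (algebraMap K (AlgebraicClosure K)))).IsPrime) {r : ℕ} (hr : 1 ≤ r)
    (hdim : ringKrullDim (MvPolynomial (Fin m) K ⧸ P) = r) :
    ∃ G : Finset (MvPolynomial (Fin m) (𝓞 K)), (∀ g ∈ G, MvPolynomial.map (algebraMap (𝓞 K) K) g ∈ P) ∧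
      ∀ k : ℕ, 1 ≤ k → ∃ p0 : ℕ, ∀ (p : ℕ) [Fact p.Prime], p0 ≤ p → ∀ φ : 𝓞 K →+* ZMod p,
        k * Nat.card {x : Fin m → ZMod p // ∀ g ∈ G, MvPolynomial.eval₂ φ x g = 0} ≤ (k + 1) * p ^ r := by
  classical
  obtain ⟨T, Y, f, D, h, Q, N, hN, hD, hf, hirr, hQ, hfP, hhP, hQP⟩ := data P hP hdim
  obtain ⟨M, hM⟩ := nz_poly hD
  refine ⟨insert (ev MvPolynomial.C T Y f)
    ((Finset.univ.image fun i => MvPolynomial.aeval T D * MvPolynomial.X i - ev MvPolynomial.C T Y (h i)) ∪
      Finset.univ.image fun i => ev MvPolynomial.C T (MvPolynomial.X i) (Q i)), ?_, fun k hk => ?_⟩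
  · intro g hg
    simp only [Finset.mem_insert, Finset.mem_union, Finset.mem_image, Finset.mem_univ, true_and] at hg
    rcases hg with rfl | ⟨i, rfl⟩ | ⟨i, rfl⟩
    · exact hfP
    · exact hhP i
    · exact hQP i
  · obtain ⟨p1, hp1⟩ := hyp_le' K hr f hf hirr (2 * k) (by omega)
    refine ⟨p1 + N + M + 2 * k * D.totalDegree * (∏ i, (Q i).natDegree) + 1, ?_⟩
    intro p hp hpp φ
    have hNp : ((N : ℕ) : ZMod p) ≠ 0 := by
      intro h0
      rw [ZMod.natCast_eq_zero_iff] at h0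
      exact absurd (Nat.le_of_dvd (Nat.pos_of_ne_zero hN) h0) (by omega)
    have h1 := hp1 p (by omega) φ
    have h2 := hM p hp.out (by omega) φ
    have h3 := cnt φ T Y f D h Q N hNp hQ
    have h4 := sz (RingHom.id (ZMod p)) (MvPolynomial.map φ D) h2
    rw [ZMod.card] at h4
    have h5 : Nat.card {c : Fin r → ZMod p // MvPolynomial.eval (fun i => RingHom.id (ZMod p) (c i))
        (MvPolynomial.map φ D) = 0} = Nat.card {t : Fin r → ZMod p // MvPolynomial.eval₂ φ t D = 0} := by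
      refine Nat.card_congr (Equiv.subtypeEquivRight fun c => ?_)
      rw [MvPolynomial.eval₂_eq_eval_map]
      exact Iff.rfl
    rw [h5] at h4
    have h7 : Nat.card {x : Fin m → ZMod p // ∀ g ∈ insert (ev MvPolynomial.C T Y f)
        ((Finset.univ.image fun i => MvPolynomial.aeval T D * MvPolynomial.X i - ev MvPolynomial.C T Y (h i)) ∪
        Finset.univ.image fun i => ev MvPolynomial.C T (MvPolynomial.X i) (Q i)), MvPolynomial.eval₂ φ x g = 0} =
        Nat.card {x : Fin m → ZMod p // MvPolynomial.eval₂ φ x (ev MvPolynomial.C T Y f) = 0 ∧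
      (∀ i, MvPolynomial.eval₂ φ x
        (MvPolynomial.aeval T D * MvPolynomial.X i - ev MvPolynomial.C T Y (h i)) = 0) ∧
      ∀ i, MvPolynomial.eval₂ φ x (ev MvPolynomial.C T (MvPolynomial.X i) (Q i)) = 0} := by
      refine Nat.card_congr (Equiv.subtypeEquivRight fun x => ?_)
      constructor
      · intro hx
        refine ⟨hx _ (Finset.mem_insert_self _ _), fun i => hx _ ?_, fun i => hx _ ?_⟩
        · exact Finset.mem_insert_of_mem (Finset.mem_union_left _ (Finset.mem_image_of_mem _ (Finset.mem_univ i)))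
        · exact Finset.mem_insert_of_mem (Finset.mem_union_right _ (Finset.mem_image_of_mem _ (Finset.mem_univ i)))
      · rintro ⟨ha, hb, hc⟩ g hg
        simp only [Finset.mem_insert, Finset.mem_union, Finset.mem_image, Finset.mem_univ, true_and] at hg
        rcases hg with rfl | ⟨i, rfl⟩ | ⟨i, rfl⟩
        · exact ha
        · exact hb i
        · exact hc i
    rw [h7]
    have h8 := Main_tdeg φ D
    generalize Nat.card {x : Fin m → ZMod p // MvPolynomial.eval₂ φ x (ev MvPolynomial.C T Y f) = 0 ∧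
      (∀ i, MvPolynomial.eval₂ φ x
        (MvPolynomial.aeval T D * MvPolynomial.X i - ev MvPolynomial.C T Y (h i)) = 0) ∧
      ∀ i, MvPolynomial.eval₂ φ x (ev MvPolynomial.C T (MvPolynomial.X i) (Q i)) = 0} = a at h3 ⊢
    generalize Nat.card {z : (Fin r → ZMod p) × ZMod p //
      (f.map (MvPolynomial.eval₂Hom φ z.1)).eval z.2 = 0} = b at h1 h3
    generalize Nat.card {t : Fin r → ZMod p // MvPolynomial.eval₂ φ t D = 0} = c at h3 h4
    generalize (∏ i, (Q i).natDegree) = e at h3 hpp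
    generalize (MvPolynomial.map φ D).totalDegree = d' at h4 h8
    generalize D.totalDegree = d at hpp h8
    have hp0 : 0 < p := hp.out.pos
    have h9 : 2 * k * c * e * p ≤ p ^ r * p := by
      calc 2 * k * c * e * p = 2 * k * e * (c * p) := by ring
        _ ≤ 2 * k * e * (d' * p ^ r) := Nat.mul_le_mul_left _ h4
        _ ≤ 2 * k * e * (d * p ^ r) := Nat.mul_le_mul_left _ (Nat.mul_le_mul_right _ h8)
        _ = p ^ r * (2 * k * d * e) := by ring
        _ ≤ p ^ r * p := Nat.mul_le_mul_left _ (by omega)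
    have h10 : 2 * k * c * e ≤ p ^ r := Nat.le_of_mul_le_mul_right h9 hp0
    have h12 : 2 * (k * a) ≤ 2 * ((k + 1) * p ^ r) := by
      calc 2 * (k * a) ≤ 2 * (k * (b + c * e)) := Nat.mul_le_mul_left _ (Nat.mul_le_mul_left _ h3)
        _ = 2 * k * b + 2 * k * c * e := by ring
        _ ≤ (2 * k + 1) * p ^ r + p ^ r := Nat.add_le_add h1 h10
        _ = 2 * ((k + 1) * p ^ r) := by ring
    omega

theorem lang_weil (K : Type) [Field K] [NumberField K] {m : ℕ} (P : Ideal (MvPolynomial (Fin m) K))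
    (hP : (P.map (MvPolynomial.map (σ := Fin m) (algebraMap K (AlgebraicClosure K)))).IsPrime) {r : ℕ} (hr : 1 ≤ r)
    (hdim : ringKrullDim (MvPolynomial (Fin m) K ⧸ P) = r) :
    ∃ G : Finset (MvPolynomial (Fin m) (𝓞 K)), (∀ g ∈ G, MvPolynomial.map (algebraMap (𝓞 K) K) g ∈ P) ∧
      ∃ p0 : ℕ, ∀ (p : ℕ) [Fact p.Prime], p0 ≤ p → ∀ φ : 𝓞 K →+* ZMod p,
        10 * Nat.card {x : Fin m → ZMod p // ∀ g ∈ G, MvPolynomial.eval₂ φ x g = 0} ≤ 11 * p ^ r := by
  obtain ⟨G, hG, h⟩ := lang_weil' K P hP hr hdim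
  exact ⟨G, hG, h 10 (by norm_num)⟩

end LW
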