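import Mathlib

/-! Nonlinear varieties: definition. -/

namespace LW

/-- the set of zeros of the ideal `P` over an algebraic closure of `K` is not stable under addition: for a homogeneous
ideal `P`, the projective variety of `P` is not a linear subspace -/
def NL {K σ : Type} [Field K] (P : Ideal (MvPolynomial σ K)) : Prop :=
  ∃ x x' : σ → AlgebraicClosure K, (∀ g ∈ P, MvPolynomial.aeval x g = 0) ∧ (∀ g ∈ P, MvPolynomial.aeval x' g = 0) ∧
    ∃ g ∈ P, MvPolynomial.aeval (x + x') g ≠ 0

end LW
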