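import Pool.Agent.Lib.LW.NLDefs
import Pool.Agent.Lib.LW.Ev

/-! Block NLP: pairs of points; the two points and their sum. -/

namespace LW

/-- a polynomial at the first point of a pair -/
noncomputable def in1 {R : Type} [CommRing R] {m : ℕ} : MvPolynomial (Fin m) R →ₐ[R] MvPolynomial (Fin m ⊕ Fin m) R :=
  MvPolynomial.aeval fun i => MvPolynomial.X (Sum.inl i)

/-- a polynomial at the second point of a pair -/
noncomputable def in2 {R : Type} [CommRing R] {m : ℕ} : MvPolynomial (Fin m) R →ₐ[R] MvPolynomial (Fin m ⊕ Fin m) R :=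
  MvPolynomial.aeval fun i => MvPolynomial.X (Sum.inr i)

/-- a polynomial at the sum of the two points of a pair -/
noncomputable def sm {R : Type} [CommRing R] {m : ℕ} : MvPolynomial (Fin m) R →ₐ[R] MvPolynomial (Fin m ⊕ Fin m) R :=
  MvPolynomial.aeval fun i => MvPolynomial.X (Sum.inl i) + MvPolynomial.X (Sum.inr i)

/-- substitution of the values of `T` at the two points -/
noncomputable def par {R : Type} [CommRing R] {m r : ℕ} (T : Fin r → MvPolynomial (Fin m) R) :
    MvPolynomial (Fin r ⊕ Fin r) R →ₐ[R] MvPolynomial (Fin m ⊕ Fin m) R :=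
  MvPolynomial.aeval (Sum.elim (fun j => in1 (T j)) fun j => in2 (T j))

section Ev

variable {R S : Type} [CommRing R] [CommRing S] {m r : ℕ} (φ : R →+* S) (x x' : Fin m → S)

theorem ev_sub {σ τ : Type} (φ : R →+* S) (g : σ → MvPolynomial τ R) (z : τ → S) (f : MvPolynomial σ R) :
    MvPolynomial.eval₂ φ z (MvPolynomial.aeval g f) = MvPolynomial.eval₂ φ (fun i => MvPolynomial.eval₂ φ z (g i)) f := by
  have h : (MvPolynomial.eval₂Hom φ z).comp (MvPolynomial.aeval g : MvPolynomial σ R →ₐ[R] MvPolynomial τ R).toRingHom =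
      MvPolynomial.eval₂Hom φ fun i => MvPolynomial.eval₂ φ z (g i) := by
    apply MvPolynomial.ringHom_ext
    · intro a
      simp
    · intro i
      simp
  exact congrArg (fun F : MvPolynomial σ R →+* S => F f) h

theorem ev_in1 (f : MvPolynomial (Fin m) R) :
    MvPolynomial.eval₂ φ (Sum.elim x x') (in1 f) = MvPolynomial.eval₂ φ x f := by
  unfold in1
  rw [ev_sub]
  simp

theorem ev_in2 (f : MvPolynomial (Fin m) R) :
    MvPolynomial.eval₂ φ (Sum.elim x x') (in2 f) = MvPolynomial.eval₂ φ x' f := by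
  unfold in2
  rw [ev_sub]
  simp

theorem ev_sm (f : MvPolynomial (Fin m) R) :
    MvPolynomial.eval₂ φ (Sum.elim x x') (sm f) = MvPolynomial.eval₂ φ (x + x') f := by
  unfold sm
  rw [ev_sub]
  congr 1
  funext i
  simp

theorem ev_par (T : Fin r → MvPolynomial (Fin m) R) (ρ : MvPolynomial (Fin r ⊕ Fin r) R) :
    MvPolynomial.eval₂ φ (Sum.elim x x') (par T ρ) = MvPolynomial.eval₂ φ
      (Sum.elim (fun j => MvPolynomial.eval₂ φ x (T j)) fun j => MvPolynomial.eval₂ φ x' (T j)) ρ := by
  unfold par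
  rw [ev_sub]
  congr 1
  funext j
  rcases j with j | j
  · exact ev_in1 φ x x' _
  · exact ev_in2 φ x x' _

theorem map_sub' {σ τ : Type} (φ : R →+* S) (g : σ → MvPolynomial τ R) (f : MvPolynomial σ R) :
    MvPolynomial.map φ (MvPolynomial.aeval g f) =
      MvPolynomial.aeval (fun i => MvPolynomial.map φ (g i)) (MvPolynomial.map φ f) := by
  have h : (MvPolynomial.map φ).comp (MvPolynomial.aeval g : MvPolynomial σ R →ₐ[R] MvPolynomial τ R).toRingHom =
      (MvPolynomial.aeval fun i => MvPolynomial.map φ (g i) :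
        MvPolynomial σ S →ₐ[S] MvPolynomial τ S).toRingHom.comp (MvPolynomial.map φ) := by
    apply MvPolynomial.ringHom_ext
    · intro a
      simp [MvPolynomial.algebraMap_eq]
    · intro i
      simp
  exact congrArg (fun F : MvPolynomial σ R →+* MvPolynomial τ S => F f) h

theorem map_in1 (f : MvPolynomial (Fin m) R) : MvPolynomial.map φ (in1 f) = in1 (MvPolynomial.map φ f) := by
  unfold in1
  rw [map_sub']
  simp

theorem map_in2 (f : MvPolynomial (Fin m) R) : MvPolynomial.map φ (in2 f) = in2 (MvPolynomial.map φ f) := by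
  unfold in2
  rw [map_sub']
  simp

theorem map_sm (f : MvPolynomial (Fin m) R) : MvPolynomial.map φ (sm f) = sm (MvPolynomial.map φ f) := by
  unfold sm
  rw [map_sub']
  simp

theorem map_par (T : Fin r → MvPolynomial (Fin m) R) (ρ : MvPolynomial (Fin r ⊕ Fin r) R) :
    MvPolynomial.map φ (par T ρ) = par (fun j => MvPolynomial.map φ (T j)) (MvPolynomial.map φ ρ) := by
  unfold par
  rw [map_sub']
  congr 2
  funext j
  rcases j with j | j
  · exact map_in1 φ _
  · exact map_in2 φ _

end Ev

open TensorProduct in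
/-- the ring of functions on pairs of points of the variety of `P` -/
noncomputable def Phi {K : Type} [Field K] {m : ℕ} (P : Ideal (MvPolynomial (Fin m) K)) :
    MvPolynomial (Fin m ⊕ Fin m) K →ₐ[K] ((MvPolynomial (Fin m) K ⧸ P) ⊗[K] (MvPolynomial (Fin m) K ⧸ P)) :=
  MvPolynomial.aeval (Sum.elim (fun i => Ideal.Quotient.mk P (MvPolynomial.X i) ⊗ₜ[K] 1)
    fun i => 1 ⊗ₜ[K] Ideal.Quotient.mk P (MvPolynomial.X i))

open TensorProduct in
/-- the functions on pairs of points which are polynomials in the values of `T` at the two points -/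
noncomputable def Psi {K : Type} [Field K] {m r : ℕ} (P : Ideal (MvPolynomial (Fin m) K))
    (T : Fin r → MvPolynomial (Fin m) K) :
    MvPolynomial (Fin r ⊕ Fin r) K →+* ((MvPolynomial (Fin m) K ⧸ P) ⊗[K] (MvPolynomial (Fin m) K ⧸ P)) :=
  (Phi P).toRingHom.comp (par T).toRingHom

theorem Psi_apply {K : Type} [Field K] {m r : ℕ} (P : Ideal (MvPolynomial (Fin m) K))
    (T : Fin r → MvPolynomial (Fin m) K) (ρ : MvPolynomial (Fin r ⊕ Fin r) K) : Psi P T ρ = Phi P (par T ρ) := rfl

end LW
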