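import Pool.Agent.Lib.LW.P1A

/-!
# LEAF P1 (block NLP): the tensor product of a geometrically integral domain with itself is a domain (MATHLIB ONLY besides P1A)

PROOF.  Nontrivial: `A` is free and nontrivial over `K` (or `a ↦ a ⊗ 1` injective).  Let `b` be a basis of `A` over the field `K` (index type `ι`; `Module.Free.chooseBasis` or `Module.Basis.ofVectorSpace`), `Algebra.TensorProduct.basis A b` the corresponding basis of `A ⊗[K] A` over `A` (the left factor).  Let `s t = 0`, with coordinates `a_i` of `s` and `c_j` of `t` (elements of `A`).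
For every `χ : A →ₐ[K] L` the homomorphism `Algebra.TensorProduct.map χ (AlgHom.id K A) : A ⊗[K] A →ₐ[K] L ⊗[K] A` maps `s = ∑ a_i • (1 ⊗ b_i)` to `∑ χ(a_i) ⊗ b_i`, whose coordinates in the basis `Algebra.TensorProduct.basis L b` of `L ⊗[K] A` over `L` are the `χ(a_i)`; so (`L ⊗[K] A` is a domain) for each `χ` all `χ(a_i)` are `0` or all `χ(c_j)` are `0`, and `χ(a_i c_j) = 0` for all `i, j, χ`; by `exists_point` (leaf P1A) `a_i c_j = 0` for all `i, j`.  If `s ≠ 0` some `a_i ≠ 0`, so all `c_j = 0` and `t = 0`.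
-/

namespace LW

open TensorProduct

private theorem P1_repr {K A L : Type} [Field K] [CommRing A] [Algebra K A] [Field L] [Algebra K L]
    {ι : Type} (b : Module.Basis ι K A) (χ : A →ₐ[K] L) (s : A ⊗[K] A) (i : ι) :
    (Algebra.TensorProduct.basis L b).repr
      ((Algebra.TensorProduct.map χ (AlgHom.id K A) : A ⊗[K] A →ₐ[K] L ⊗[K] A) s) i =
      χ ((Algebra.TensorProduct.basis A b).repr s i) := by
  induction s using TensorProduct.induction_on with
  | zero => rw [map_zero, map_zero, map_zero, Finsupp.zero_apply, Finsupp.zero_apply, map_zero]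
  | tmul x y =>
    rw [Algebra.TensorProduct.map_tmul, AlgHom.coe_id, id_eq,
      Algebra.TensorProduct.basis_repr_tmul, Algebra.TensorProduct.basis_repr_tmul,
      Finsupp.smul_apply, Finsupp.smul_apply, Finsupp.mapRange_apply, Finsupp.mapRange_apply,
      smul_eq_mul, smul_eq_mul, map_mul, AlgHom.commutes]
  | add x y hx hy =>
    rw [map_add, map_add, map_add, Finsupp.add_apply, Finsupp.add_apply, map_add, hx, hy]

theorem tensor_domain {K A L : Type} [Field K] [CommRing A] [IsDomain A] [Algebra K A] [Algebra.FiniteType K A]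
    [Field L] [Algebra K L] [IsAlgClosed L] (h : IsDomain (L ⊗[K] A)) : IsDomain (A ⊗[K] A) := by
  let b := Module.Basis.ofVectorSpace K A
  let B := Algebra.TensorProduct.basis A b
  have hne : Nonempty (Module.Basis.ofVectorSpaceIndex K A) := b.index_nonempty
  have hnt : Nontrivial (A ⊗[K] A) := by
    obtain ⟨i⟩ := hne
    exact nontrivial_of_ne (B i) 0 (B.ne_zero i)
  have key : ∀ s t : A ⊗[K] A, s * t = 0 → ∀ i j, B.repr s i * B.repr t j = 0 := by
    intro s t hst i j
    by_contra hu
    obtain ⟨χ, hχ⟩ := exists_point (K := K) (L := L) hu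
    let f : A ⊗[K] A →ₐ[K] L ⊗[K] A := Algebra.TensorProduct.map χ (AlgHom.id K A)
    have h1 : f s * f t = 0 := by rw [← map_mul, hst, map_zero]
    apply hχ
    rw [map_mul]
    rcases mul_eq_zero.1 h1 with h2 | h2
    · have h3 := P1_repr b χ s i
      have h4 : (Algebra.TensorProduct.map χ (AlgHom.id K A) : A ⊗[K] A →ₐ[K] L ⊗[K] A) s = 0 := h2
      rw [h4, map_zero, Finsupp.zero_apply] at h3
      have h5 : χ (B.repr s i) = 0 := h3.symm
      rw [h5, zero_mul]
    · have h3 := P1_repr b χ t j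
      have h4 : (Algebra.TensorProduct.map χ (AlgHom.id K A) : A ⊗[K] A →ₐ[K] L ⊗[K] A) t = 0 := h2
      rw [h4, map_zero, Finsupp.zero_apply] at h3
      have h5 : χ (B.repr t j) = 0 := h3.symm
      rw [h5, mul_zero]
  have hnzd : NoZeroDivisors (A ⊗[K] A) := by
    refine ⟨fun {s t} hst => ?_⟩
    by_contra hc
    push Not at hc
    obtain ⟨hs, ht⟩ := hc
    have hs' : B.repr s ≠ 0 := fun h0 => hs ((LinearEquiv.map_eq_zero_iff _).1 h0)
    have ht' : B.repr t ≠ 0 := fun h0 => ht ((LinearEquiv.map_eq_zero_iff _).1 h0)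
    obtain ⟨i, hi⟩ := Finsupp.ne_iff.1 hs'
    obtain ⟨j, hj⟩ := Finsupp.ne_iff.1 ht'
    rcases mul_eq_zero.1 (key s t hst i j) with h1 | h1
    · exact hi h1
    · exact hj h1
  exact NoZeroDivisors.to_isDomain _

end LW
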