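import Pool.Agent.Lib.LW.M7A
import Pool.Agent.Lib.LW.Ev

/-!
# LEAF P10 (block NLP): integral equations with integral coefficients

PROOF.  `q i` from `hT (X i)`; `clr2` (M7A) for the family `q` with `M = N`: `N ≠ 0` and `Q i` with `(Q i).map (map (algebraMap (𝓞 K) K)) = N * q i`.  The coefficient map is injective (`MvPolynomial.map_injective`, `RingOfIntegers.coe_injective`), so `natDegree (Q i) = natDegree (N * q i) = natDegree (q i)` and `map (leadingCoeff (Q i)) = N` (`Polynomial.leadingCoeff_map_of_injective`), so `leadingCoeff (Q i) = N`.  `map (ev C T (X i) (Q i)) = ev C (map ∘ T) (X i) ((Q i).map map) = ev C (map ∘ T) (X i) (N * q i) = N * ev C (map ∘ T) (X i) (q i) ∈ P` (compare `M4C`, `M7`: `Polynomial.hom_eval₂`, `Polynomial.eval₂_map`).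
-/

namespace LW

open Polynomial NumberField

theorem int_eqs {K : Type} [Field K] [NumberField K] {m r : ℕ} (P : Ideal (MvPolynomial (Fin m) K))
    (T : Fin r → MvPolynomial (Fin m) (𝓞 K))
    (hT : ∀ b : MvPolynomial (Fin m) K, ∃ q : (MvPolynomial (Fin r) K)[X], q.Monic ∧
      ev MvPolynomial.C (fun j => MvPolynomial.map (algebraMap (𝓞 K) K) (T j)) b q ∈ P) :
    ∃ (Q : Fin m → (MvPolynomial (Fin r) (𝓞 K))[X]) (N : ℕ), N ≠ 0 ∧
      (∀ i, (Q i).leadingCoeff = (N : MvPolynomial (Fin r) (𝓞 K))) ∧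
      ∀ i, MvPolynomial.map (algebraMap (𝓞 K) K) (ev MvPolynomial.C T (MvPolynomial.X i) (Q i)) ∈ P := by
  choose q hq hq' using fun i : Fin m => hT (MvPolynomial.X i)
  obtain ⟨N, hN, h⟩ := clr2 q
  choose Q hQ using h N dvd_rfl
  have hinj : Function.Injective
      (MvPolynomial.map (algebraMap (𝓞 K) K) : MvPolynomial (Fin r) (𝓞 K) → MvPolynomial (Fin r) K) :=
    MvPolynomial.map_injective _ (FaithfulSMul.algebraMap_injective (𝓞 K) K)
  refine ⟨Q, N, hN, fun i => ?_, fun i => ?_⟩
  · apply hinj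
    have h1 : (N : (MvPolynomial (Fin r) K)[X]) = Polynomial.C (N : MvPolynomial (Fin r) K) :=
      (map_natCast _ N).symm
    rw [← Polynomial.leadingCoeff_map_of_injective hinj, hQ, Polynomial.leadingCoeff_mul,
      (hq i).leadingCoeff, mul_one, h1, Polynomial.leadingCoeff_C, map_natCast]
  · have h2 : MvPolynomial.map (algebraMap (𝓞 K) K) (ev MvPolynomial.C T (MvPolynomial.X i) (Q i)) =
        ev MvPolynomial.C (fun j => MvPolynomial.map (algebraMap (𝓞 K) K) (T j)) (MvPolynomial.X i)
          ((Q i).map (MvPolynomial.map (algebraMap (𝓞 K) K))) := by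
      unfold ev
      rw [Polynomial.coe_eval₂RingHom, Polynomial.coe_eval₂RingHom, Polynomial.hom_eval₂,
        Polynomial.eval₂_map, MvPolynomial.map_X]
      congr 1
      apply MvPolynomial.ringHom_ext
      · intro a
        simp
      · intro j
        simp
    rw [h2, hQ, map_mul]
    exact P.mul_mem_left _ (hq' i)

end LW
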