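import Mathlib

/-!
# LEAF P11A (block NLP): counting pairs by their parameters (MATHLIB ONLY)

PROOF.  The map `S → W`, `x ↦ Sum.elim (t x.1) (t x.2)`, has fibres of at most `D ^ (2 m)` elements: on the fibre of `w`, for all `i`, `x.1 i` is a root of `q i (w ∘ inl)` and `x.2 i` a root of `q i (w ∘ inr)`, polynomials `≠ 0` of degree at most `D`, so the fibre is contained in the product of the root sets (`Fintype.piFinset`, `Fintype.card_piFinset`, `Polynomial.card_roots'`, `Multiset.toFinset_card_le`), of cardinality at most `D ^ m * D ^ m`.  Sum over `W` (`Finset.card_le_mul_card_image`; all sets are finite, `Nat.card_eq_card_toFinset`, classical).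
-/

namespace LW

theorem cnt2 {F : Type} [Field F] [Fintype F] {m r D : ℕ} (S : Set ((Fin m → F) × (Fin m → F)))
    (t : (Fin m → F) → (Fin r → F)) (q : Fin m → (Fin r → F) → Polynomial F)
    (hq : ∀ i y, q i y ≠ 0 ∧ (q i y).natDegree ≤ D)
    (hS : ∀ x ∈ S, ∀ i, (q i (t x.1)).eval (x.1 i) = 0 ∧ (q i (t x.2)).eval (x.2 i) = 0)
    (W : Set (Fin r ⊕ Fin r → F)) (hW : ∀ x ∈ S, Sum.elim (t x.1) (t x.2) ∈ W) :
    Nat.card S ≤ D ^ (2 * m) * Nat.card W := by
  classical
  let f : (Fin m → F) × (Fin m → F) → (Fin r ⊕ Fin r → F) := fun x => Sum.elim (t x.1) (t x.2)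
  rw [Nat.card_eq_card_toFinset, Nat.card_eq_card_toFinset]
  refine Finset.card_le_mul_card_image_of_maps_to (f := f) (fun x hx => ?_) (D ^ (2 * m)) (fun w hw => ?_)
  · rw [Set.mem_toFinset] at hx ⊢
    exact hW x hx
  · let R1 : Finset (Fin m → F) := Fintype.piFinset fun i => (q i (fun j => w (Sum.inl j))).roots.toFinset
    let R2 : Finset (Fin m → F) := Fintype.piFinset fun i => (q i (fun j => w (Sum.inr j))).roots.toFinset
    have hc : ∀ y : Fin r → F, (Fintype.piFinset fun i => (q i y).roots.toFinset).card ≤ D ^ m := by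
      intro y
      rw [Fintype.card_piFinset]
      have h1 : ∏ i : Fin m, (q i y).roots.toFinset.card ≤ ∏ _i : Fin m, D := by
        refine Finset.prod_le_prod' fun i _ => ?_
        exact (Multiset.toFinset_card_le _).trans ((Polynomial.card_roots' _).trans (hq i y).2)
      rw [Finset.prod_const, Finset.card_univ, Fintype.card_fin] at h1
      exact h1
    have hsub : (S.toFinset.filter fun x => f x = w) ⊆ R1 ×ˢ R2 := by
      intro x hx
      rw [Finset.mem_filter, Set.mem_toFinset] at hx
      obtain ⟨hxS, hxw⟩ := hx
      have h1 : (fun j => w (Sum.inl j)) = t x.1 := by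
        funext j
        rw [← hxw]
        rfl
      have h2 : (fun j => w (Sum.inr j)) = t x.2 := by
        funext j
        rw [← hxw]
        rfl
      rw [Finset.mem_product]
      constructor
      · show x.1 ∈ Fintype.piFinset fun i => (q i (fun j => w (Sum.inl j))).roots.toFinset
        rw [Fintype.mem_piFinset]
        intro i
        rw [Multiset.mem_toFinset, Polynomial.mem_roots (hq i _).1, h1]
        exact (hS x hxS i).1
      · show x.2 ∈ Fintype.piFinset fun i => (q i (fun j => w (Sum.inr j))).roots.toFinset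
        rw [Fintype.mem_piFinset]
        intro i
        rw [Multiset.mem_toFinset, Polynomial.mem_roots (hq i _).1, h2]
        exact (hS x hxS i).2
    refine (Finset.card_le_card hsub).trans ?_
    rw [Finset.card_product, two_mul, pow_add]
    exact Nat.mul_le_mul (hc _) (hc _)

end LW
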