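import Pool.Agent.Lib.LW.M9

/-!
# LEAF P11B (block NLP): Schwartz-Zippel for pairs

PROOF.  `U' = MvPolynomial.rename finSumFinEquiv U : MvPolynomial (Fin (r + r)) F` is not zero (`rename_injective`), its total degree is at most that of `U` (`MvPolynomial.totalDegree_rename_le`), and `eval c U = eval (c ∘ finSumFinEquiv.symm) U'` (`MvPolynomial.eval_rename`), so `c ↦ c ∘ finSumFinEquiv.symm` is a bijection of the zero sets (`Nat.card_congr`).  Apply `sz (RingHom.id F) U'` (LW/M9); `r + r = 2 * r`.
-/

namespace LW

theorem sz2 {F : Type} [Field F] [Fintype F] {r : ℕ} (U : MvPolynomial (Fin r ⊕ Fin r) F) (hU : U ≠ 0) :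
    Nat.card {c : Fin r ⊕ Fin r → F // MvPolynomial.eval c U = 0} * Fintype.card F ≤
      U.totalDegree * Fintype.card F ^ (2 * r) := by
  classical
  set U' : MvPolynomial (Fin (r + r)) F := MvPolynomial.rename finSumFinEquiv U with hU'
  have h0 : U' ≠ 0 := by
    intro h
    apply hU
    apply MvPolynomial.rename_injective _ (finSumFinEquiv (m := r) (n := r)).injective
    rw [← hU', h, map_zero]
  have hdeg : U'.totalDegree ≤ U.totalDegree := MvPolynomial.totalDegree_rename_le _ _
  have hcard : Nat.card {c : Fin r ⊕ Fin r → F // MvPolynomial.eval c U = 0} =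
      Nat.card {c : Fin (r + r) → F // MvPolynomial.eval c U' = 0} := by
    refine Nat.card_congr (Equiv.subtypeEquiv
      (Equiv.arrowCongr (finSumFinEquiv (m := r) (n := r)) (Equiv.refl F)) ?_)
    intro c
    have h1 : MvPolynomial.eval (Equiv.arrowCongr (finSumFinEquiv (m := r) (n := r))
        (Equiv.refl F) c) U' = MvPolynomial.eval c U := by
      rw [hU', MvPolynomial.eval_rename]
      congr 2
      funext x
      simp [Equiv.arrowCongr]
    rw [h1]
  rw [hcard, two_mul]
  have hsz := sz (RingHom.id F) U' h0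
  exact hsz.trans (Nat.mul_le_mul_right _ hdeg)

end LW
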