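import Mathlib

/-!
# LEAF P1A (block NLP): Nullstellensatz for a domain of finite type (MATHLIB ONLY)

PROOF.  The localisation `Localization.Away u` is a nontrivial (`u ≠ 0`, domain) `K`-algebra of finite type; take a maximal ideal `M`.  Its residue field is a field of finite type over `K`, so finite over `K` by Zariski's lemma (`finite_of_finite_type_of_isJacobsonRing`, or `Algebra.FiniteType.isIntegral..`), and embeds in `L` over `K` (`IsAlgClosed.lift`).  The composite `A → Localization.Away u → residue field → L` does not vanish at `u`, which is a unit of the localisation.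
-/

namespace LW

theorem exists_point {K A L : Type} [Field K] [CommRing A] [IsDomain A] [Algebra K A] [Algebra.FiniteType K A]
    [Field L] [Algebra K L] [IsAlgClosed L] {u : A} (hu : u ≠ 0) : ∃ χ : A →ₐ[K] L, χ u ≠ 0 := by
  have hnt : Nontrivial (Localization.Away u) :=
    (IsLocalization.injective (Localization.Away u)
      (powers_le_nonZeroDivisors_of_noZeroDivisors hu)).nontrivial
  have hft1 : Algebra.FiniteType A (Localization.Away u) :=
    IsLocalization.finiteType_of_monoid_fg (Submonoid.powers u) (Localization.Away u)
  have hft2 : Algebra.FiniteType K (Localization.Away u) :=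
    Algebra.FiniteType.trans (S := A) inferInstance hft1
  obtain ⟨M, hM⟩ := Ideal.exists_maximal (Localization.Away u)
  let : Field (Localization.Away u ⧸ M) := Ideal.Quotient.field M
  have hft3 : Algebra.FiniteType K (Localization.Away u ⧸ M) :=
    Algebra.FiniteType.of_surjective (Ideal.Quotient.mkₐ K M) (Ideal.Quotient.mkₐ_surjective K M)
  have hfin : Module.Finite K (Localization.Away u ⧸ M) :=
    finite_of_finite_type_of_isJacobsonRing K (Localization.Away u ⧸ M)
  have halg : Algebra.IsAlgebraic K (Localization.Away u ⧸ M) := Algebra.IsAlgebraic.of_finite K _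
  let ψ : (Localization.Away u ⧸ M) →ₐ[K] L := IsAlgClosed.lift
  let ι : A →ₐ[K] Localization.Away u := IsScalarTower.toAlgHom K A (Localization.Away u)
  refine ⟨(ψ.comp (Ideal.Quotient.mkₐ K M)).comp ι, ?_⟩
  have h1 : IsUnit (ι u) := IsLocalization.Away.algebraMap_isUnit u
  have h2 : IsUnit (((ψ.comp (Ideal.Quotient.mkₐ K M))) (ι u)) := h1.map _
  exact h2.ne_zero

end LW
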