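import Mathlib

/-!
# LEAF P2 (block NLP): a prime ideal over the algebraic closure and the tensor product (MATHLIB ONLY)

PROOF.  Write `L = AlgebraicClosure K`, `A = MvPolynomial (Fin m) K ⧸ P`, `PL = P.map (map (algebraMap K L))`.  A ring isomorphism `L ⊗[K] A ≃ MvPolynomial (Fin m) L ⧸ PL` (or only an INJECTIVE ring homomorphism from `L ⊗[K] A` to this domain, `Function.Injective.isDomain`): `F = Algebra.TensorProduct.lift (Algebra.ofId L _) (liftₐ P of mk ∘ map (algebraMap K L))`.  Inverse `G`: `Ideal.Quotient.liftₐ PL (aeval (fun i => 1 ⊗ₜ mk (X i)))`: it kills `map p`, `p ∈ P`, as `aeval (fun i => 1 ⊗ₜ mk (X i)) (map p) = 1 ⊗ₜ mk p` (`MvPolynomial.induction_on`, or equality of two ring homomorphisms by `MvPolynomial.ringHom_ext`).  `G ∘ F = id` on `l ⊗ₜ mk p`: (`Algebra.TensorProduct.ext`, `Ideal.Quotient.algHom_ext`, `MvPolynomial.algHom_ext`).  The quotient by the prime ideal `PL` is a domain.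
-/

namespace LW

open TensorProduct

theorem geom_domain {K : Type} [Field K] {m : ℕ} (P : Ideal (MvPolynomial (Fin m) K))
    (hP : (P.map (MvPolynomial.map (σ := Fin m) (algebraMap K (AlgebraicClosure K)))).IsPrime) :
    IsDomain (AlgebraicClosure K ⊗[K] (MvPolynomial (Fin m) K ⧸ P)) := by
  have hdom : IsDomain (MvPolynomial (Fin m) (AlgebraicClosure K) ⧸
      P.map (MvPolynomial.map (σ := Fin m) (algebraMap K (AlgebraicClosure K)))) :=
    Ideal.Quotient.isDomain _
  -- the map from the polynomials over the closure to the tensor product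
  let A : MvPolynomial (Fin m) (AlgebraicClosure K) →ₐ[AlgebraicClosure K]
      AlgebraicClosure K ⊗[K] (MvPolynomial (Fin m) K ⧸ P) :=
    MvPolynomial.aeval fun i => (1 : AlgebraicClosure K) ⊗ₜ[K] Ideal.Quotient.mk P (MvPolynomial.X i)
  have hA : ∀ p : MvPolynomial (Fin m) K, A (MvPolynomial.map (algebraMap K (AlgebraicClosure K)) p) =
      (1 : AlgebraicClosure K) ⊗ₜ[K] Ideal.Quotient.mk P p := by
    intro p
    have h : (A.toRingHom.comp (MvPolynomial.map (algebraMap K (AlgebraicClosure K)))) =
        ((Algebra.TensorProduct.includeRight : (MvPolynomial (Fin m) K ⧸ P) →ₐ[K]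
          AlgebraicClosure K ⊗[K] (MvPolynomial (Fin m) K ⧸ P)).toRingHom.comp (Ideal.Quotient.mk P)) := by
      apply MvPolynomial.ringHom_ext
      · intro c
        change A (MvPolynomial.map (algebraMap K (AlgebraicClosure K)) (MvPolynomial.C c)) =
          (1 : AlgebraicClosure K) ⊗ₜ[K] Ideal.Quotient.mk P (MvPolynomial.C c)
        rw [MvPolynomial.map_C, MvPolynomial.aeval_C]
        change algebraMap K (AlgebraicClosure K) c ⊗ₜ[K] (1 : MvPolynomial (Fin m) K ⧸ P) =
          (1 : AlgebraicClosure K) ⊗ₜ[K] algebraMap K (MvPolynomial (Fin m) K ⧸ P) c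
        rw [Algebra.algebraMap_eq_smul_one, Algebra.algebraMap_eq_smul_one, TensorProduct.smul_tmul]
      · intro i
        change A (MvPolynomial.map (algebraMap K (AlgebraicClosure K)) (MvPolynomial.X i)) =
          (1 : AlgebraicClosure K) ⊗ₜ[K] Ideal.Quotient.mk P (MvPolynomial.X i)
        rw [MvPolynomial.map_X, MvPolynomial.aeval_X]
    exact congrArg (fun φ : MvPolynomial (Fin m) K →+*
      AlgebraicClosure K ⊗[K] (MvPolynomial (Fin m) K ⧸ P) => φ p) h
  have hker : ∀ q ∈ P.map (MvPolynomial.map (σ := Fin m) (algebraMap K (AlgebraicClosure K))), A q = 0 := by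
    have hle : P.map (MvPolynomial.map (σ := Fin m) (algebraMap K (AlgebraicClosure K))) ≤
        RingHom.ker A.toRingHom := by
      rw [Ideal.map_le_iff_le_comap]
      intro p hp
      rw [Ideal.mem_comap, RingHom.mem_ker]
      change A (MvPolynomial.map (algebraMap K (AlgebraicClosure K)) p) = 0
      rw [hA, Ideal.Quotient.eq_zero_iff_mem.2 hp, TensorProduct.tmul_zero]
    intro q hq
    exact (RingHom.mem_ker).1 (hle hq)
  let G := Ideal.Quotient.liftₐ (P.map (MvPolynomial.map (σ := Fin m)
    (algebraMap K (AlgebraicClosure K)))) A hker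
  -- the map in the other direction
  let B : MvPolynomial (Fin m) K →ₐ[K] (MvPolynomial (Fin m) (AlgebraicClosure K) ⧸
      P.map (MvPolynomial.map (σ := Fin m) (algebraMap K (AlgebraicClosure K)))) :=
    MvPolynomial.aeval fun i => Ideal.Quotient.mk _ (MvPolynomial.X i)
  have hB : ∀ p : MvPolynomial (Fin m) K, B p = Ideal.Quotient.mk (P.map (MvPolynomial.map (σ := Fin m)
      (algebraMap K (AlgebraicClosure K)))) (MvPolynomial.map (algebraMap K (AlgebraicClosure K)) p) := by
    intro p
    have h : B.toRingHom = (Ideal.Quotient.mk (P.map (MvPolynomial.map (σ := Fin m)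
        (algebraMap K (AlgebraicClosure K))))).comp (MvPolynomial.map (algebraMap K (AlgebraicClosure K))) := by
      apply MvPolynomial.ringHom_ext
      · intro c
        change B (MvPolynomial.C c) = Ideal.Quotient.mk _ (MvPolynomial.map _ (MvPolynomial.C c))
        rw [MvPolynomial.map_C, MvPolynomial.aeval_C]
        rfl
      · intro i
        change B (MvPolynomial.X i) = Ideal.Quotient.mk _ (MvPolynomial.map _ (MvPolynomial.X i))
        rw [MvPolynomial.map_X, MvPolynomial.aeval_X]
    exact congrArg (fun φ : MvPolynomial (Fin m) K →+* (MvPolynomial (Fin m) (AlgebraicClosure K) ⧸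
      P.map (MvPolynomial.map (σ := Fin m) (algebraMap K (AlgebraicClosure K)))) => φ p) h
  have hBker : ∀ p ∈ P, B p = 0 := by
    intro p hp
    rw [hB, Ideal.Quotient.eq_zero_iff_mem]
    exact Ideal.mem_map_of_mem _ hp
  let F : AlgebraicClosure K ⊗[K] (MvPolynomial (Fin m) K ⧸ P) →ₐ[AlgebraicClosure K]
      (MvPolynomial (Fin m) (AlgebraicClosure K) ⧸
        P.map (MvPolynomial.map (σ := Fin m) (algebraMap K (AlgebraicClosure K)))) :=
    Algebra.TensorProduct.lift (Algebra.ofId _ _) (Ideal.Quotient.liftₐ P B hBker)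
      (fun _ _ => Commute.all _ _)
  have hGF : ∀ x, G (F x) = x := by
    intro x
    induction x using TensorProduct.induction_on with
    | zero => rw [map_zero, map_zero]
    | add x y hx hy => rw [map_add, map_add, hx, hy]
    | tmul l a =>
      obtain ⟨p, rfl⟩ := Ideal.Quotient.mk_surjective a
      have h1 : F (l ⊗ₜ[K] Ideal.Quotient.mk P p) = algebraMap (AlgebraicClosure K)
          (MvPolynomial (Fin m) (AlgebraicClosure K) ⧸ P.map (MvPolynomial.map
            (σ := Fin m) (algebraMap K (AlgebraicClosure K)))) l *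
          Ideal.Quotient.mk (P.map (MvPolynomial.map (σ := Fin m) (algebraMap K (AlgebraicClosure K))))
            (MvPolynomial.map (algebraMap K (AlgebraicClosure K)) p) := by
        rw [← hB]
        exact Algebra.TensorProduct.lift_tmul _ _ _ _ _
      have h2 : G (Ideal.Quotient.mk (P.map (MvPolynomial.map
          (σ := Fin m) (algebraMap K (AlgebraicClosure K))))
            (MvPolynomial.map (algebraMap K (AlgebraicClosure K)) p)) =
          (1 : AlgebraicClosure K) ⊗ₜ[K] Ideal.Quotient.mk P p := hA p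
      rw [h1, map_mul, h2, AlgHom.commutes]
      change (l ⊗ₜ[K] (1 : MvPolynomial (Fin m) K ⧸ P)) *
        ((1 : AlgebraicClosure K) ⊗ₜ[K] Ideal.Quotient.mk P p) = _
      rw [Algebra.TensorProduct.tmul_mul_tmul, mul_one, one_mul]
  exact Function.Injective.isDomain F.toRingHom (Function.LeftInverse.injective hGF)

end LW
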