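import Pool.Agent.Lib.LW.P0

/-!
# LEAF P3 (block NLP): the kernel of `Phi`

PROOF.  `Phi_in1`, `Phi_in2`: two algebra homomorphisms which agree on the variables (`MvPolynomial.algHom_ext`; definitions `in1`, `in2`, `Phi` in P0).
`Phi_surj`: the range of `Phi P` is a subalgebra which contains `a ⊗ₜ 1` and `1 ⊗ₜ a` (`Phi_in1`, `Phi_in2`, `Ideal.Quotient.mk_surjective`), so all `a ⊗ₜ b = (a ⊗ₜ 1) * (1 ⊗ₜ b)` and all sums (`TensorProduct.induction_on`).
`ker_Phi`: put `I = P.map in1 ⊔ P.map in2`, `Q = MvPolynomial (Fin m ⊕ Fin m) K ⧸ I`.  The homomorphisms `mk I ∘ in1` and `mk I ∘ in2` kill `P`, so they factor through `A = MvPolynomial (Fin m) K ⧸ P` (`Ideal.Quotient.liftₐ`), and `G = Algebra.TensorProduct.lift .. .. (fun _ _ => Commute.all _ _) : A ⊗[K] A →ₐ[K] Q` satisfies `G (Phi P f) = mk I f` for all `f` (`MvPolynomial.algHom_ext`, variables `inl i`, `inr i`).  If `Phi P f = 0` then `mk I f = 0`, `f ∈ I`.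
-/

namespace LW

open TensorProduct

variable {K : Type} [Field K] {m : ℕ} (P : Ideal (MvPolynomial (Fin m) K))

private abbrev P3_A (P : Ideal (MvPolynomial (Fin m) K)) : Type := MvPolynomial (Fin m) K ⧸ P

theorem Phi_in1 (f : MvPolynomial (Fin m) K) : Phi P (in1 f) = Ideal.Quotient.mk P f ⊗ₜ[K] 1 := by
  have h : (Phi P).comp (in1 : MvPolynomial (Fin m) K →ₐ[K] MvPolynomial (Fin m ⊕ Fin m) K) =
      (Algebra.TensorProduct.includeLeft : P3_A P →ₐ[K] P3_A P ⊗[K] P3_A P).comp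
        (Ideal.Quotient.mkₐ K P) := by
    apply MvPolynomial.algHom_ext
    intro i
    simp [Phi, in1]
  have h2 := DFunLike.congr_fun h f
  simpa using h2

theorem Phi_in2 (f : MvPolynomial (Fin m) K) : Phi P (in2 f) = 1 ⊗ₜ[K] Ideal.Quotient.mk P f := by
  have h : (Phi P).comp (in2 : MvPolynomial (Fin m) K →ₐ[K] MvPolynomial (Fin m ⊕ Fin m) K) =
      (Algebra.TensorProduct.includeRight : P3_A P →ₐ[K] P3_A P ⊗[K] P3_A P).comp
        (Ideal.Quotient.mkₐ K P) := by
    apply MvPolynomial.algHom_ext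
    intro i
    simp [Phi, in2]
  have h2 := DFunLike.congr_fun h f
  simpa using h2

theorem Phi_surj : Function.Surjective (Phi P) := by
  intro z
  induction z using TensorProduct.induction_on with
  | zero => exact ⟨0, map_zero _⟩
  | tmul a b =>
    obtain ⟨f, rfl⟩ := Ideal.Quotient.mk_surjective a
    obtain ⟨g, rfl⟩ := Ideal.Quotient.mk_surjective b
    refine ⟨in1 f * in2 g, ?_⟩
    rw [map_mul, Phi_in1, Phi_in2, Algebra.TensorProduct.tmul_mul_tmul, mul_one, one_mul]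
  | add x y hx hy =>
    obtain ⟨f, hf⟩ := hx
    obtain ⟨g, hg⟩ := hy
    exact ⟨f + g, by rw [map_add, hf, hg]⟩

theorem ker_Phi (f : MvPolynomial (Fin m ⊕ Fin m) K) (h : Phi P f = 0) : f ∈ P.map in1 ⊔ P.map in2 := by
  let J : Ideal (MvPolynomial (Fin m ⊕ Fin m) K) := P.map in1 ⊔ P.map in2
  let g1 : P3_A P →ₐ[K] (MvPolynomial (Fin m ⊕ Fin m) K ⧸ J) :=
    Ideal.Quotient.liftₐ P ((Ideal.Quotient.mkₐ K J).comp in1) (by
      intro a ha
      rw [AlgHom.comp_apply, Ideal.Quotient.mkₐ_eq_mk, Ideal.Quotient.eq_zero_iff_mem]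
      exact Ideal.mem_sup_left (Ideal.mem_map_of_mem _ ha))
  let g2 : P3_A P →ₐ[K] (MvPolynomial (Fin m ⊕ Fin m) K ⧸ J) :=
    Ideal.Quotient.liftₐ P ((Ideal.Quotient.mkₐ K J).comp in2) (by
      intro a ha
      rw [AlgHom.comp_apply, Ideal.Quotient.mkₐ_eq_mk, Ideal.Quotient.eq_zero_iff_mem]
      exact Ideal.mem_sup_right (Ideal.mem_map_of_mem _ ha))
  let G : P3_A P ⊗[K] P3_A P →ₐ[K] (MvPolynomial (Fin m ⊕ Fin m) K ⧸ J) :=
    Algebra.TensorProduct.lift g1 g2 (fun _ _ => Commute.all _ _)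
  have hG : G.comp (Phi P) = Ideal.Quotient.mkₐ K J := by
    apply MvPolynomial.algHom_ext
    intro i
    rcases i with i | i
    · have e1 : Phi P (MvPolynomial.X (Sum.inl i)) =
          Ideal.Quotient.mk P (MvPolynomial.X i) ⊗ₜ[K] 1 := by
        simp [Phi]
      rw [AlgHom.comp_apply, e1]
      show Algebra.TensorProduct.lift g1 g2 (fun _ _ => Commute.all _ _)
        (Ideal.Quotient.mk P (MvPolynomial.X i) ⊗ₜ[K] 1) = _
      rw [Algebra.TensorProduct.lift_tmul, map_one, mul_one]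
      show (Ideal.Quotient.mkₐ K J) (in1 (MvPolynomial.X i)) = _
      congr 1
      simp [in1]
    · have e1 : Phi P (MvPolynomial.X (Sum.inr i)) =
          1 ⊗ₜ[K] Ideal.Quotient.mk P (MvPolynomial.X i) := by
        simp [Phi]
      rw [AlgHom.comp_apply, e1]
      show Algebra.TensorProduct.lift g1 g2 (fun _ _ => Commute.all _ _)
        (1 ⊗ₜ[K] Ideal.Quotient.mk P (MvPolynomial.X i)) = _
      rw [Algebra.TensorProduct.lift_tmul, map_one, one_mul]
      show (Ideal.Quotient.mkₐ K J) (in2 (MvPolynomial.X i)) = _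
      congr 1
      simp [in2]
  have h2 := DFunLike.congr_fun hG f
  rw [AlgHom.comp_apply, h, map_zero] at h2
  exact Ideal.Quotient.eq_zero_iff_mem.mp h2.symm

end LW
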