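import Pool.Agent.Lib.LW.P3

/-!
# LEAF P4 (block NLP): the functions on pairs are integral over the values of `T`

PROOF.  Put `ψ = Psi P T`.  The elements of `A ⊗[K] A` integral over `ψ` form a subring (`RingHom.IsIntegralElem.add`, `.mul`, or `integralClosure` for the algebra structure `ψ.toAlgebra`).  Enough (`TensorProduct.induction_on`, `a ⊗ₜ b = (a ⊗ₜ 1) * (1 ⊗ₜ b)`): `mk b ⊗ₜ 1` and `1 ⊗ₜ mk b` are integral.  For `mk b ⊗ₜ 1 = Phi P (in1 b)` (`Phi_in1`): take the monic `q` of `hT b` and `q.map (aeval fun j => X (Sum.inl j) : MvPolynomial (Fin r) K →ₐ[K] MvPolynomial (Fin r ⊕ Fin r) K)`, monic; its value at `Phi P (in1 b)` through `ψ` is `Phi P (in1 (ev C T b q))` (compose the ring homomorphisms: `ev`, `Polynomial.eval₂_map`, `Polynomial.hom_eval₂`; `ψ (aeval (X ∘ inl) c) = Phi P (in1 (aeval T c))`) `= mk (ev C T b q) ⊗ₜ 1 = 0`.  The same with `inr`, `in2`, `Phi_in2`.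
-/

namespace LW

open TensorProduct Polynomial

private theorem P4_key {K B : Type} [Field K] [CommRing B] {m r : ℕ}
    (F : MvPolynomial (Fin m ⊕ Fin m) K →+* B)
    (T : Fin r → MvPolynomial (Fin m) K)
    (χ : MvPolynomial (Fin m) K →ₐ[K] MvPolynomial (Fin m ⊕ Fin m) K) (e : Fin r → Fin r ⊕ Fin r)
    (he : ∀ j, par T (MvPolynomial.X (e j)) = χ (T j)) (b : MvPolynomial (Fin m) K)
    (q : (MvPolynomial (Fin r) K)[X]) (hq : q.Monic)
    (h0 : F (χ (ev MvPolynomial.C T b q)) = 0) :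
    (F.comp (par T).toRingHom).IsIntegralElem (F (χ b)) := by
  let ι : MvPolynomial (Fin r) K →+* MvPolynomial (Fin r ⊕ Fin r) K :=
    (MvPolynomial.aeval (fun j => MvPolynomial.X (e j)) :
      MvPolynomial (Fin r) K →ₐ[K] MvPolynomial (Fin r ⊕ Fin r) K).toRingHom
  let Θ : MvPolynomial (Fin m) K →+* B := F.comp χ.toRingHom
  refine ⟨q.map ι, hq.map ι, ?_⟩
  have hc : (F.comp (par T).toRingHom).comp ι = Θ.comp (MvPolynomial.eval₂Hom MvPolynomial.C T) := by
    apply MvPolynomial.ringHom_ext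
    · intro a
      have h1 : ι (MvPolynomial.C a) = MvPolynomial.C a := by
        change (MvPolynomial.aeval (fun j => MvPolynomial.X (e j)) :
          MvPolynomial (Fin r) K →ₐ[K] MvPolynomial (Fin r ⊕ Fin r) K) (MvPolynomial.C a) = _
        rw [MvPolynomial.aeval_C, MvPolynomial.algebraMap_eq]
      have h2 : (par T (MvPolynomial.C a)) = MvPolynomial.C a := by
        unfold par
        rw [MvPolynomial.aeval_C, MvPolynomial.algebraMap_eq]
      have h3 : χ (MvPolynomial.C a) = MvPolynomial.C a := by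
        rw [← MvPolynomial.algebraMap_eq, AlgHom.commutes, MvPolynomial.algebraMap_eq]
      change F (par T (ι (MvPolynomial.C a))) =
        F (χ (MvPolynomial.eval₂Hom MvPolynomial.C T (MvPolynomial.C a)))
      rw [h1, MvPolynomial.coe_eval₂Hom, MvPolynomial.eval₂_C, h2, h3]
    · intro j
      have h1 : ι (MvPolynomial.X j) = MvPolynomial.X (e j) := by
        change (MvPolynomial.aeval (fun j => MvPolynomial.X (e j)) :
          MvPolynomial (Fin r) K →ₐ[K] MvPolynomial (Fin r ⊕ Fin r) K) (MvPolynomial.X j) = _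
        rw [MvPolynomial.aeval_X]
      change F (par T (ι (MvPolynomial.X j))) =
        F (χ (MvPolynomial.eval₂Hom MvPolynomial.C T (MvPolynomial.X j)))
      rw [h1, MvPolynomial.coe_eval₂Hom, MvPolynomial.eval₂_X, he]
  have h1 : Θ (ev MvPolynomial.C T b q) =
      Polynomial.eval₂ (Θ.comp (MvPolynomial.eval₂Hom MvPolynomial.C T)) (Θ b) q := by
    unfold ev
    rw [Polynomial.coe_eval₂RingHom, Polynomial.hom_eval₂]
  rw [Polynomial.eval₂_map, hc]
  change Polynomial.eval₂ (Θ.comp (MvPolynomial.eval₂Hom MvPolynomial.C T)) (Θ b) q = 0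
  rw [← h1]
  exact h0

private theorem P4_add {R B : Type} [CommRing R] [CommRing B] (f : R →+* B) (x y : B)
    (hx : f.IsIntegralElem x) (hy : f.IsIntegralElem y) : f.IsIntegralElem (x + y) :=
  RingHom.IsIntegralElem.add f hx hy

private theorem P4_mul {R B : Type} [CommRing R] [CommRing B] (f : R →+* B) (x y : B)
    (hx : f.IsIntegralElem x) (hy : f.IsIntegralElem y) : f.IsIntegralElem (x * y) :=
  RingHom.IsIntegralElem.mul f hx hy

private theorem P4_all {K B : Type} [Field K] [CommRing B] [Algebra K B] {m r : ℕ}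
    (P : Ideal (MvPolynomial (Fin m) K))
    (T : Fin r → MvPolynomial (Fin m) K)
    (hT : ∀ b : MvPolynomial (Fin m) K, ∃ q : (MvPolynomial (Fin r) K)[X], q.Monic ∧ ev MvPolynomial.C T b q ∈ P)
    (F : MvPolynomial (Fin m ⊕ Fin m) K →+* B)
    (h1 : ∀ g ∈ P, F (in1 g) = 0) (h2 : ∀ g ∈ P, F (in2 g) = 0) :
    ∀ b, (F.comp (par T).toRingHom).IsIntegralElem (F (in1 b)) ∧
      (F.comp (par T).toRingHom).IsIntegralElem (F (in2 b)) := by
  intro b
  obtain ⟨q, hq, hb⟩ := hT b
  constructor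
  · refine P4_key F T in1 Sum.inl (fun j => ?_) b q hq (h1 _ hb)
    unfold par
    rw [MvPolynomial.aeval_X]
    rfl
  · refine P4_key F T in2 Sum.inr (fun j => ?_) b q hq (h2 _ hb)
    unfold par
    rw [MvPolynomial.aeval_X]
    rfl

theorem Psi_int {K : Type} [Field K] {m r : ℕ} (P : Ideal (MvPolynomial (Fin m) K))
    (T : Fin r → MvPolynomial (Fin m) K)
    (hT : ∀ b : MvPolynomial (Fin m) K, ∃ q : (MvPolynomial (Fin r) K)[X], q.Monic ∧ ev MvPolynomial.C T b q ∈ P) :
    RingHom.IsIntegral (R := MvPolynomial (Fin r ⊕ Fin r) K)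
      (A := (MvPolynomial (Fin m) K ⧸ P) ⊗[K] (MvPolynomial (Fin m) K ⧸ P)) (Psi P T) := by
  have h1 : ∀ g ∈ P, Phi P (in1 g) = 0 := by
    intro g hg
    rw [Phi_in1, Ideal.Quotient.eq_zero_iff_mem.mpr hg, TensorProduct.zero_tmul]
  have h2 : ∀ g ∈ P, Phi P (in2 g) = 0 := by
    intro g hg
    rw [Phi_in2, Ideal.Quotient.eq_zero_iff_mem.mpr hg, TensorProduct.tmul_zero]
  have hall := P4_all (B := (MvPolynomial (Fin m) K ⧸ P) ⊗[K] (MvPolynomial (Fin m) K ⧸ P)) P T hT
    (Phi P).toRingHom h1 h2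
  intro z
  induction z using TensorProduct.induction_on with
  | zero => exact RingHom.isIntegralElem_zero _
  | tmul a b =>
    obtain ⟨a, rfl⟩ := Ideal.Quotient.mk_surjective a
    obtain ⟨b, rfl⟩ := Ideal.Quotient.mk_surjective b
    have h : (Ideal.Quotient.mk P a) ⊗ₜ[K] (Ideal.Quotient.mk P b) = Phi P (in1 a) * Phi P (in2 b) := by
      rw [Phi_in1, Phi_in2, Algebra.TensorProduct.tmul_mul_tmul, mul_one, one_mul]
    rw [h]
    exact P4_mul (B := (MvPolynomial (Fin m) K ⧸ P) ⊗[K] (MvPolynomial (Fin m) K ⧸ P)) _ _ _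
      (hall a).1 (hall b).2
  | add x y hx hy =>
    exact P4_add (B := (MvPolynomial (Fin m) K ⧸ P) ⊗[K] (MvPolynomial (Fin m) K ⧸ P)) _ _ _ hx hy

end LW
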