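import Pool.Agent.Lib.LW.P3

/-!
# LEAF P5 (block NLP): the sum is not on the variety for all pairs

PROOF.  `NL P`: `x, x' : Fin m → L`, `L = AlgebraicClosure K`, zeros of `P`, and `g ∈ P` with `aeval (x + x') g ≠ 0`.  `aeval x` and `aeval x'` kill `P`, so they factor through `A = MvPolynomial (Fin m) K ⧸ P` (`Ideal.Quotient.liftₐ`) and `G = Algebra.TensorProduct.lift .. .. (fun _ _ => Commute.all _ _) : A ⊗[K] A →ₐ[K] L` satisfies `G (Phi P f) = aeval (Sum.elim x x') f` (`MvPolynomial.algHom_ext`).  `G (Phi P (sm g)) = aeval (Sum.elim x x') (sm g) = aeval (x + x') g ≠ 0` (`ev_sm` with `φ = algebraMap K L`, `MvPolynomial.aeval_def`).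
-/

namespace LW

theorem Phi_sm_ne {K : Type} [Field K] {m : ℕ} (P : Ideal (MvPolynomial (Fin m) K)) (hNL : NL P) :
    ∃ g ∈ P, Phi P (sm g) ≠ 0 := by
  obtain ⟨x, x', hx, hx', g, hg, hne⟩ := hNL
  refine ⟨g, hg, fun h0 => hne ?_⟩
  have h1 : ∃ G : TensorProduct K (MvPolynomial (Fin m) K ⧸ P) (MvPolynomial (Fin m) K ⧸ P) →ₐ[K]
      AlgebraicClosure K, ∀ f : MvPolynomial (Fin m ⊕ Fin m) K,
        G (Phi P f) = MvPolynomial.aeval (Sum.elim x x') f := by
    refine ⟨Algebra.TensorProduct.lift (Ideal.Quotient.liftₐ P (MvPolynomial.aeval x) hx)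
      (Ideal.Quotient.liftₐ P (MvPolynomial.aeval x') hx') (fun _ _ => Commute.all _ _), fun f => ?_⟩
    have h2 : (Algebra.TensorProduct.lift (Ideal.Quotient.liftₐ P (MvPolynomial.aeval x) hx)
        (Ideal.Quotient.liftₐ P (MvPolynomial.aeval x') hx') (fun _ _ => Commute.all _ _)).comp (Phi P) =
        MvPolynomial.aeval (Sum.elim x x') := by
      apply MvPolynomial.algHom_ext
      intro i
      rw [AlgHom.comp_apply]
      unfold Phi
      rw [MvPolynomial.aeval_X, MvPolynomial.aeval_X]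
      rcases i with i | i
      · rw [Sum.elim_inl, Sum.elim_inl, Algebra.TensorProduct.lift_tmul, map_one, mul_one]
        exact (Ideal.Quotient.liftₐ_apply P _ _ _).trans ((Ideal.Quotient.lift_mk P _ _).trans
          (MvPolynomial.aeval_X x i))
      · rw [Sum.elim_inr, Sum.elim_inr, Algebra.TensorProduct.lift_tmul, map_one, one_mul]
        exact (Ideal.Quotient.liftₐ_apply P _ _ _).trans ((Ideal.Quotient.lift_mk P _ _).trans
          (MvPolynomial.aeval_X x' i))
    exact congrArg (fun F : MvPolynomial (Fin m ⊕ Fin m) K →ₐ[K] AlgebraicClosure K => F f) h2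
  obtain ⟨G, hG⟩ := h1
  have h3 := hG (sm g)
  rw [h0, map_zero] at h3
  have h4 := ev_sm (algebraMap K (AlgebraicClosure K)) x x' g
  rw [← MvPolynomial.aeval_def, ← MvPolynomial.aeval_def, ← h3] at h4
  exact h4.symm

end LW
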