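import Mathlib

/-!
# LEAF P6 (block NLP): the constant term of an integral equation (MATHLIB ONLY)

PROOF.  `hψ h`: a monic `p : R[X]` with `p.eval₂ ψ h = 0`.  Among the polynomials `p : R[X]` with `p.map ψ ≠ 0` and `p.eval₂ ψ h = 0` choose one of minimal degree (`natDegree`; `Nat.find` / strong induction; a monic one has `p.map ψ ≠ 0` as `B` is nontrivial).  If `ψ (p.coeff 0) = 0` then `eval₂ ψ h p = h * eval₂ ψ h p.divX + ψ (p.coeff 0)` (`Polynomial.divX_mul_X_add`), so `h * eval₂ ψ h p.divX = 0`, `eval₂ ψ h p.divX = 0` (`h ≠ 0`, domain), `p.divX.map ψ ≠ 0` (else `p.map ψ = 0`), `natDegree p.divX < natDegree p` unless `natDegree p = 0`; if `natDegree p = 0`, `p = C c` and `0 = ψ c`, `p.map ψ = 0`, contradiction.  So `ρ = p.coeff 0` has `ψ ρ ≠ 0` and `ψ ρ = - h * eval₂ ψ h p.divX`.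
-/

namespace LW

open Polynomial

private theorem P6_aux {R B : Type} [CommRing R] [CommRing B] [IsDomain B] (ψ : R →+* B) (h : B)
    (hh : h ≠ 0) : ∀ (n : ℕ) (p : R[X]), p.natDegree ≤ n → p.map ψ ≠ 0 → p.eval₂ ψ h = 0 →
      ∃ ρ : R, ψ ρ ≠ 0 ∧ ∃ b : B, ψ ρ = b * h := by
  intro n
  induction n with
  | zero =>
    intro p hn hp he
    exfalso
    have h1 := Polynomial.eq_C_of_natDegree_le_zero hn
    rw [h1, Polynomial.eval₂_C] at he
    rw [h1, Polynomial.map_C, he, Polynomial.C_0] at hp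
    exact hp rfl
  | succ n ih =>
    intro p hn hp he
    by_cases h0 : ψ (p.coeff 0) = 0
    · have h1 : p.divX * Polynomial.X + Polynomial.C (p.coeff 0) = p := Polynomial.divX_mul_X_add p
      refine ih p.divX ?_ ?_ ?_
      · rw [Polynomial.natDegree_divX_eq_natDegree_tsub_one]
        omega
      · intro h2
        apply hp
        rw [← h1, Polynomial.map_add, Polynomial.map_mul, h2, zero_mul, Polynomial.map_C, h0,
          Polynomial.C_0, add_zero]
      · rw [← h1, Polynomial.eval₂_add, Polynomial.eval₂_mul, Polynomial.eval₂_X,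
          Polynomial.eval₂_C, h0, add_zero] at he
        exact (mul_eq_zero.1 he).resolve_right hh
    · refine ⟨p.coeff 0, h0, -(p.divX.eval₂ ψ h), ?_⟩
      have h1 : p.divX * Polynomial.X + Polynomial.C (p.coeff 0) = p := Polynomial.divX_mul_X_add p
      rw [← h1, Polynomial.eval₂_add, Polynomial.eval₂_mul, Polynomial.eval₂_X,
        Polynomial.eval₂_C] at he
      have h2 : ψ (p.coeff 0) = -(p.divX.eval₂ ψ h * h) := by
        rw [eq_neg_iff_add_eq_zero, add_comm]
        exact he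
      rw [h2, neg_mul]

theorem const_term {R B : Type} [CommRing R] [CommRing B] [IsDomain B] (ψ : R →+* B) (hψ : ψ.IsIntegral) (h : B)
    (hh : h ≠ 0) : ∃ ρ : R, ψ ρ ≠ 0 ∧ ∃ b : B, ψ ρ = b * h := by
  obtain ⟨p, hp, he⟩ := hψ h
  exact P6_aux ψ h hh p.natDegree p le_rfl (hp.map ψ).ne_zero he

end LW
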