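import Pool.Agent.Lib.LW.M2
import Pool.Agent.Lib.LW.P1
import Pool.Agent.Lib.LW.P2
import Pool.Agent.Lib.LW.P4
import Pool.Agent.Lib.LW.P5
import Pool.Agent.Lib.LW.P6

/-! # P7 (block NLP): a polynomial in the values of `T` which vanishes if both points and their sum are on the variety (assembly) -/

namespace LW

open TensorProduct Polynomial

theorem rho {K : Type} [Field K] {m r : ℕ} (P : Ideal (MvPolynomial (Fin m) K))
    (hP : (P.map (MvPolynomial.map (σ := Fin m) (algebraMap K (AlgebraicClosure K)))).IsPrime)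
    (T : Fin r → MvPolynomial (Fin m) K)
    (hT : ∀ b : MvPolynomial (Fin m) K, ∃ q : (MvPolynomial (Fin r) K)[X], q.Monic ∧ ev MvPolynomial.C T b q ∈ P)
    (hNL : NL P) :
    ∃ ρ : MvPolynomial (Fin r ⊕ Fin r) K, ρ ≠ 0 ∧ par T ρ ∈ P.map in1 ⊔ P.map in2 ⊔ P.map sm := by
  have hPp : P.IsPrime := prime_of P hP
  have : IsDomain (MvPolynomial (Fin m) K ⧸ P) := Ideal.Quotient.isDomain P
  have : Algebra.FiniteType K (MvPolynomial (Fin m) K ⧸ P) := inferInstance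
  have hB : IsDomain ((MvPolynomial (Fin m) K ⧸ P) ⊗[K] (MvPolynomial (Fin m) K ⧸ P)) :=
    tensor_domain (geom_domain P hP)
  obtain ⟨g, hg, hg0⟩ := Phi_sm_ne P hNL
  obtain ⟨ρ, hρ0, b, hb⟩ := const_term (R := MvPolynomial (Fin r ⊕ Fin r) K)
    (B := (MvPolynomial (Fin m) K ⧸ P) ⊗[K] (MvPolynomial (Fin m) K ⧸ P)) (Psi P T) (Psi_int P T hT)
    (Phi P (sm g)) hg0
  obtain ⟨c, rfl⟩ := Phi_surj P b
  refine ⟨ρ, fun h => hρ0 (by rw [h, map_zero]), ?_⟩
  have h1 : Phi P (par T ρ - c * sm g) = 0 := by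
    rw [map_sub, map_mul, sub_eq_zero, ← hb, Psi_apply]
  have h2 := ker_Phi P _ h1
  have h3 : c * sm g ∈ P.map (sm (R := K) (m := m)) := Ideal.mul_mem_left _ _ (Ideal.mem_map_of_mem _ hg)
  have h4 := Submodule.add_mem_sup h2 h3
  rwa [sub_add_cancel] at h4

end LW
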