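import Pool.Agent.Lib.LW.P9A

/-!
# LEAF P9B (block NLP): integral generators

PROOF.  `P` is finitely generated (`IsNoetherianRing`), `P = span (p '' univ)` for a finite family `p`; `clrS` (P9A) gives `N ≠ 0` and integral `q_i` with `map q_i = N p_i`, and `N = C N` is a unit of `MvPolynomial (Fin m) K`: take `G` = the set of the `q_i` (`Ideal.span` is antisymmetric: `N p_i ∈ P`, and `p_i = C N⁻¹ * map q_i`).
-/

namespace LW

open NumberField

theorem gens {K : Type} [Field K] [NumberField K] {m : ℕ} (P : Ideal (MvPolynomial (Fin m) K)) :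
    ∃ G : Finset (MvPolynomial (Fin m) (𝓞 K)),
      Ideal.span ((MvPolynomial.map (algebraMap (𝓞 K) K)) '' (G : Set (MvPolynomial (Fin m) (𝓞 K)))) = P := by
  classical
  obtain ⟨S, hS⟩ := (IsNoetherian.noetherian P : P.FG)
  obtain ⟨N, hN, H⟩ := clrS (K := K) (σ := Fin m) (fun i : S => (i : MvPolynomial (Fin m) K))
  choose q hq using H
  refine ⟨Finset.univ.image q, le_antisymm ?_ ?_⟩
  · rw [Ideal.span_le]
    rintro _ ⟨g, hg, rfl⟩
    rw [Finset.mem_coe, Finset.mem_image] at hg
    obtain ⟨i, -, rfl⟩ := hg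
    rw [SetLike.mem_coe, hq i]
    refine P.mul_mem_left _ ?_
    rw [← hS]
    exact Ideal.subset_span i.2
  · rw [← hS]
    refine Ideal.span_le.2 ?_
    intro p hp
    have hu : p = MvPolynomial.C ((N : K)⁻¹) * MvPolynomial.map (algebraMap (𝓞 K) K) (q ⟨p, hp⟩) := by
      rw [hq ⟨p, hp⟩, ← mul_assoc, ← map_natCast (MvPolynomial.C : K →+* MvPolynomial (Fin m) K) N, ← map_mul,
        inv_mul_cancel₀ (Nat.cast_ne_zero.2 hN), map_one, one_mul]
    rw [SetLike.mem_coe, hu]
    refine Ideal.mul_mem_left _ _ (Ideal.subset_span ⟨_, ?_, rfl⟩)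
    rw [Finset.mem_coe]
    exact Finset.mem_image_of_mem _ (Finset.mem_univ _)

end LW
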