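import Pool.Agent.Lib.LW.P9A

/-!
# LEAF P9C (block NLP): spreading out

PROOF.  `spread`: `map f = ∑ c_g * map g` over a finite subset of `G` (`Submodule.mem_span_image_iff_exists_fun`, `Finsupp.mem_span_image_iff_linearCombination`, or induction `Submodule.span_induction` on: `∃ N ≠ 0, ∃ q ∈ Ideal.span G, map q = N * x`: generators `N = 1`; sums: `N N'`; products with a polynomial `c`: `clrS` for `c`); then `map (N f) = map q` and `map` is injective (`MvPolynomial.map_injective`, `algebraMap (𝓞 K) K` is injective).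
`spread_ev`: `Ideal.span G ≤ ker (eval₂Hom φ z)` (`Ideal.span_le`), so `(N : F) * eval₂ φ z f = 0`.
-/

namespace LW

open NumberField

variable {K : Type} [Field K] [NumberField K]

theorem spread {σ : Type} (G : Set (MvPolynomial σ (𝓞 K))) (f : MvPolynomial σ (𝓞 K))
    (h : MvPolynomial.map (algebraMap (𝓞 K) K) f ∈ Ideal.span ((MvPolynomial.map (algebraMap (𝓞 K) K)) '' G)) :
    ∃ N : ℕ, N ≠ 0 ∧ (N : MvPolynomial σ (𝓞 K)) * f ∈ Ideal.span G := by
  have key : ∃ N : ℕ, N ≠ 0 ∧ ∃ q ∈ Ideal.span G, MvPolynomial.map (algebraMap (𝓞 K) K) q =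
      (N : MvPolynomial σ K) * MvPolynomial.map (algebraMap (𝓞 K) K) f := by
    refine Submodule.span_induction
      (p := fun x _ => ∃ N : ℕ, N ≠ 0 ∧ ∃ q ∈ Ideal.span G, MvPolynomial.map (algebraMap (𝓞 K) K) q =
        (N : MvPolynomial σ K) * x) ?_ ?_ ?_ ?_ h
    · rintro _ ⟨g, hg, rfl⟩
      exact ⟨1, one_ne_zero, g, Ideal.subset_span hg, by rw [Nat.cast_one, one_mul]⟩
    · exact ⟨1, one_ne_zero, 0, Ideal.zero_mem _, by rw [map_zero, mul_zero]⟩
    · rintro x y _ _ ⟨N, hN, q, hq, e⟩ ⟨N', hN', q', hq', e'⟩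
      refine ⟨N * N', mul_ne_zero hN hN', (N' : MvPolynomial σ (𝓞 K)) * q + (N : MvPolynomial σ (𝓞 K)) * q',
        Ideal.add_mem _ (Ideal.mul_mem_left _ _ hq) (Ideal.mul_mem_left _ _ hq'), ?_⟩
      rw [map_add, map_mul, map_mul, map_natCast, map_natCast, e, e', Nat.cast_mul]
      ring
    · rintro c x _ ⟨N, hN, q, hq, e⟩
      obtain ⟨N', hN', hc⟩ := clrS (K := K) (fun _ : Unit => c)
      obtain ⟨c', hc'⟩ := hc ()
      refine ⟨N' * N, mul_ne_zero hN' hN, c' * q, Ideal.mul_mem_left _ _ hq, ?_⟩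
      rw [map_mul, hc', e, smul_eq_mul, Nat.cast_mul]
      ring
  obtain ⟨N, hN, q, hq, e⟩ := key
  refine ⟨N, hN, ?_⟩
  have hinj : Function.Injective (MvPolynomial.map (σ := σ) (algebraMap (𝓞 K) K)) :=
    MvPolynomial.map_injective _ (FaithfulSMul.algebraMap_injective (𝓞 K) K)
  have h2 : q = (N : MvPolynomial σ (𝓞 K)) * f := by
    apply hinj
    rw [e, map_mul, map_natCast]
  rw [← h2]
  exact hq

theorem spread_ev {σ : Type} (G : Set (MvPolynomial σ (𝓞 K))) (f : MvPolynomial σ (𝓞 K)) (N : ℕ)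
    (h : (N : MvPolynomial σ (𝓞 K)) * f ∈ Ideal.span G) {F : Type} [Field F] (hN : (N : F) ≠ 0) (φ : 𝓞 K →+* F)
    (z : σ → F) (hz : ∀ g ∈ G, MvPolynomial.eval₂ φ z g = 0) : MvPolynomial.eval₂ φ z f = 0 := by
  have h1 : Ideal.span G ≤ RingHom.ker (MvPolynomial.eval₂Hom φ z) := by
    rw [Ideal.span_le]
    intro g hg
    exact hz g hg
  have h2 : MvPolynomial.eval₂Hom φ z ((N : MvPolynomial σ (𝓞 K)) * f) = 0 := h1 h
  rw [map_mul, map_natCast] at h2
  exact (mul_eq_zero.1 h2).resolve_left hN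

end LW
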