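import Pool.Agent.Lib.LW.M10

/-!
# LEAF P9D (block NLP): nonzero modulo large primes

PROOF.  Literally the proof of `nz_poly` in LW/M10 (a nonzero coefficient and theorem `nz`).
-/

namespace LW

open NumberField

theorem nzS {K : Type} [Field K] [NumberField K] {σ : Type} {D : MvPolynomial σ (𝓞 K)} (hD : D ≠ 0) :
    ∃ M : ℕ, ∀ p : ℕ, p.Prime → M < p → ∀ φ : 𝓞 K →+* ZMod p, MvPolynomial.map φ D ≠ 0 := by
  obtain ⟨m, hm⟩ := MvPolynomial.ne_zero_iff.1 hD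
  obtain ⟨M, hM⟩ := nz hm
  refine ⟨M, fun p hp hMp φ h0 => hM p hp hMp φ ?_⟩
  rw [← MvPolynomial.coeff_map, h0, MvPolynomial.coeff_zero]

end LW
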