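import Pool.Agent.Lib.LW.M4C
import Pool.Agent.Lib.LW.M8
import Pool.Agent.Lib.LW.P7
import Pool.Agent.Lib.LW.P9B
import Pool.Agent.Lib.LW.P9C
import Pool.Agent.Lib.LW.P9D
import Pool.Agent.Lib.LW.P10
import Pool.Agent.Lib.LW.P11A
import Pool.Agent.Lib.LW.P11B

/-!
# BLOCK NLP.  Pairs of points of a nonlinear variety whose sum is on the variety

PROOF.  Let `A = K[x]/P` and `L = AlgebraicClosure K`.
1. `J = P(x) + P(x')`, an ideal of `K[x, x']`, is prime: `A ⊗_K A` embeds in `A_L ⊗_L A_L`, which is a domain (product of two irreducible varieties over an algebraically closed field: if `(∑ a_i ⊗ b_i) (∑ c_j ⊗ d_j) = 0`, the `b_i` and the `d_j` linearly independent, then at each maximal ideal of `A_L` (residue field `L`) all `a_i` or all `c_j` vanish, so one `a_i c_j` product is in all maximal ideals, hence `0`).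
2. Noether normalisation (`exists_finite_inj_algHom_of_fg`): `y_1, ..., y_r` in `K[x]` with all `x_i` integral over `K[y_1, ..., y_r]` modulo `P` (the number of the `y` is `r` by `hdim`).
3. Let `g ∈ P` be as in `NL P`, `h(x, x') = g(x + x')`; its image in `B = K[x, x']/J` is not `0` (value at the pair of points).  `B` is integral over the image of `K[y, y']` (`2 r` variables); an integral equation of `h` of minimal degree has constant term `≠ 0` (`B` is a domain), so there is `ρ ≠ 0` in `K[y, y']` with `ρ(y(x), y(x')) ∈ J + (h)`.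
4. `G`: integral multiples of a finite set of generators of `P`, and of `g`.  All coefficients have bounded denominators; outside finitely many `p`, for every `φ`, a pair of zeros `x, x'` of `G` modulo `p` with `x + x'` a zero satisfies `ρ^φ(y(x), y(x')) = 0` with `ρ^φ ≠ 0`, and `x_i`, `x_i'` are roots of the monic (leading coefficient a nonzero integer) equations over `y(x)`, `y(x')`.  So `(x, x') ↦ (y(x), y(x'))` has fibres of bounded size, and its values are zeros of `ρ^φ`: at most `deg ρ * p ^ (2 r - 1)` (Schwartz-Zippel).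
-/

namespace LW

open NumberField

private theorem Pairs_nat {w p d d' r : ℕ} (hr : 1 ≤ r) (hp : 0 < p) (h : w * p ≤ d' * p ^ (2 * r)) (hd : d' ≤ d) :
    w ≤ d * p ^ (2 * r - 1) := by
  obtain ⟨k, rfl⟩ : ∃ k, r = k + 1 := ⟨r - 1, by omega⟩
  have h1 : 2 * (k + 1) - 1 = 2 * k + 1 := by omega
  rw [h1]
  have h2 : w * p ≤ (d * p ^ (2 * k + 1)) * p := by
    calc w * p ≤ d' * p ^ (2 * (k + 1)) := h
      _ ≤ d * p ^ (2 * (k + 1)) := Nat.mul_le_mul_right _ hd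
      _ = (d * p ^ (2 * k + 1)) * p := by ring
  exact Nat.le_of_mul_le_mul_right h2 hp

private theorem Pairs_deg {R S σ : Type} [CommRing R] [CommRing S] (φ : R →+* S) (ρ : MvPolynomial σ R) :
    (MvPolynomial.map φ ρ).totalDegree ≤ ρ.totalDegree :=
  Finset.sup_mono (MvPolynomial.support_map_subset φ ρ)

/-- the counting part: one prime `p` -/
private theorem Pairs_cnt {K : Type} [Field K] [NumberField K] {m r : ℕ} (hr : 1 ≤ r)
    (T : Fin r → MvPolynomial (Fin m) (𝓞 K)) (ρ : MvPolynomial (Fin r ⊕ Fin r) (𝓞 K))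
    (G : Finset (MvPolynomial (Fin m) (𝓞 K))) (Q : Fin m → (Polynomial (MvPolynomial (Fin r) (𝓞 K)))) (N : ℕ)
    (hlead : ∀ i, (Q i).leadingCoeff = (N : MvPolynomial (Fin r) (𝓞 K))) (N1 : Fin m → ℕ)
    (hN1' : ∀ i, (N1 i : MvPolynomial (Fin m) (𝓞 K)) *
      ev MvPolynomial.C T (MvPolynomial.X i) (Q i) ∈ Ideal.span (G : Set (MvPolynomial (Fin m) (𝓞 K))))
    (N2 : ℕ) (hN2' : (N2 : MvPolynomial (Fin m ⊕ Fin m) (𝓞 K)) * par T ρ ∈
      Ideal.span ((in1 '' (G : Set (MvPolynomial (Fin m) (𝓞 K)))) ∪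
        (in2 '' (G : Set (MvPolynomial (Fin m) (𝓞 K)))) ∪ (sm '' (G : Set (MvPolynomial (Fin m) (𝓞 K))))))
    (D : ℕ) (hD : ∀ i, (Q i).natDegree ≤ D)
    (p : ℕ) [hp : Fact p.Prime] (φ : 𝓞 K →+* ZMod p) (hN' : (N : ZMod p) ≠ 0)
    (hN1p : ∀ i, (N1 i : ZMod p) ≠ 0) (hN2p : (N2 : ZMod p) ≠ 0) (hMp : MvPolynomial.map φ ρ ≠ 0) :
    Nat.card {x : (Fin m → ZMod p) × (Fin m → ZMod p) // (∀ g ∈ G, MvPolynomial.eval₂ φ x.1 g = 0) ∧
      (∀ g ∈ G, MvPolynomial.eval₂ φ x.2 g = 0) ∧ ∀ g ∈ G, MvPolynomial.eval₂ φ (x.1 + x.2) g = 0} ≤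
        D ^ (2 * m) * ρ.totalDegree * p ^ (2 * r - 1) := by
  classical
  set t : (Fin m → ZMod p) → (Fin r → ZMod p) := fun x j => MvPolynomial.eval₂ φ x (T j) with ht
  set q : Fin m → (Fin r → ZMod p) → Polynomial (ZMod p) :=
    fun i y => (Q i).map (MvPolynomial.eval₂Hom φ y) with hqdef
  set S : Set ((Fin m → ZMod p) × (Fin m → ZMod p)) :=
    {x | (∀ g ∈ G, MvPolynomial.eval₂ φ x.1 g = 0) ∧ (∀ g ∈ G, MvPolynomial.eval₂ φ x.2 g = 0) ∧
      ∀ g ∈ G, MvPolynomial.eval₂ φ (x.1 + x.2) g = 0} with hS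
  set W : Set (Fin r ⊕ Fin r → ZMod p) := {c | MvPolynomial.eval c (MvPolynomial.map φ ρ) = 0} with hW
  have hq' : ∀ i y, q i y ≠ 0 ∧ (q i y).natDegree ≤ D := by
    intro i y
    have e1 : (q i y).coeff (Q i).natDegree = (N : ZMod p) := by
      rw [hqdef]
      simp only [Polynomial.coeff_map]
      rw [Polynomial.coeff_natDegree, hlead i, map_natCast]
    refine ⟨fun h => hN' ?_, ?_⟩
    · rw [← e1, h, Polynomial.coeff_zero]
    · exact (Polynomial.natDegree_map_le).trans (hD i)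
  have hpt : ∀ x : Fin m → ZMod p, (∀ g ∈ G, MvPolynomial.eval₂ φ x g = 0) → ∀ i, (q i (t x)).eval (x i) = 0 := by
    intro x hx i
    have e1 := spread_ev (G : Set (MvPolynomial (Fin m) (𝓞 K))) _ (N1 i) (hN1' i) (hN1p i) φ x hx
    rw [ev_val, MvPolynomial.eval₂_X] at e1
    exact e1
  have hcount := cnt2 (D := D) S t q hq' (fun x hx i => ⟨hpt x.1 hx.1 i, hpt x.2 hx.2.1 i⟩) W (fun x hx => by
    have e1 := spread_ev _ _ N2 hN2' hN2p φ (Sum.elim x.1 x.2) (by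
      rintro _ ((⟨g, hg, rfl⟩ | ⟨g, hg, rfl⟩) | ⟨g, hg, rfl⟩)
      · rw [ev_in1]
        exact hx.1 g hg
      · rw [ev_in2]
        exact hx.2.1 g hg
      · rw [ev_sm]
        exact hx.2.2 g hg)
    rw [ev_par] at e1
    change MvPolynomial.eval _ (MvPolynomial.map φ ρ) = 0
    rw [MvPolynomial.eval_map]
    exact e1)
  have hsz := sz2 (MvPolynomial.map φ ρ) hMp
  rw [ZMod.card] at hsz
  have hdeg : (MvPolynomial.map φ ρ).totalDegree ≤ ρ.totalDegree := Pairs_deg φ ρ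
  have hWc : Nat.card W ≤ ρ.totalDegree * p ^ (2 * r - 1) := Pairs_nat hr hp.out.pos hsz hdeg
  calc Nat.card {x : (Fin m → ZMod p) × (Fin m → ZMod p) // (∀ g ∈ G, MvPolynomial.eval₂ φ x.1 g = 0) ∧
          (∀ g ∈ G, MvPolynomial.eval₂ φ x.2 g = 0) ∧ ∀ g ∈ G, MvPolynomial.eval₂ φ (x.1 + x.2) g = 0}
      = Nat.card S := rfl
    _ ≤ D ^ (2 * m) * Nat.card W := hcount
    _ ≤ D ^ (2 * m) * (ρ.totalDegree * p ^ (2 * r - 1)) := Nat.mul_le_mul_left _ hWc
    _ = _ := by ring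


theorem pairs (K : Type) [Field K] [NumberField K] {m : ℕ} (P : Ideal (MvPolynomial (Fin m) K))
    (hP : (P.map (MvPolynomial.map (σ := Fin m) (algebraMap K (AlgebraicClosure K)))).IsPrime) {r : ℕ} (hr : 1 ≤ r)
    (hdim : ringKrullDim (MvPolynomial (Fin m) K ⧸ P) = r) (hNL : NL P) :
    ∃ G : Finset (MvPolynomial (Fin m) (𝓞 K)), (∀ g ∈ G, MvPolynomial.map (algebraMap (𝓞 K) K) g ∈ P) ∧
      ∃ C p0 : ℕ, ∀ (p : ℕ) [Fact p.Prime], p0 ≤ p → ∀ φ : 𝓞 K →+* ZMod p,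
        Nat.card {x : (Fin m → ZMod p) × (Fin m → ZMod p) // (∀ g ∈ G, MvPolynomial.eval₂ φ x.1 g = 0) ∧
          (∀ g ∈ G, MvPolynomial.eval₂ φ x.2 g = 0) ∧ ∀ g ∈ G, MvPolynomial.eval₂ φ (x.1 + x.2) g = 0} ≤
            C * p ^ (2 * r - 1) := by
  classical
  have hPp : P.IsPrime := prime_of P hP
  obtain ⟨T, -, hT⟩ := noeth_int P hPp hdim
  obtain ⟨ρ0, hρ0, hρP⟩ := rho P hP (fun j => MvPolynomial.map (algebraMap (𝓞 K) K) (T j)) hT hNL
  obtain ⟨Nρ, hNρ, hq⟩ := clrS (fun _ : Unit => ρ0)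
  obtain ⟨ρ, hρ⟩ := hq ()
  have hNK : (Nρ : MvPolynomial (Fin r ⊕ Fin r) K) ≠ 0 := Nat.cast_ne_zero.2 hNρ
  have hρne : ρ ≠ 0 := by
    intro h
    rw [h, map_zero] at hρ
    exact mul_ne_zero hNK hρ0 hρ.symm
  obtain ⟨G, hG⟩ := gens P
  obtain ⟨Q, N, hN, hlead, hQ⟩ := int_eqs P T hT
  have h1 : ∀ i, ∃ N' : ℕ, N' ≠ 0 ∧ (N' : MvPolynomial (Fin m) (𝓞 K)) *
      ev MvPolynomial.C T (MvPolynomial.X i) (Q i) ∈ Ideal.span (G : Set (MvPolynomial (Fin m) (𝓞 K))) :=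
    fun i => spread _ _ (by rw [hG]; exact hQ i)
  choose N1 hN1 hN1' using h1
  set G2 : Set (MvPolynomial (Fin m ⊕ Fin m) (𝓞 K)) := (in1 '' (G : Set (MvPolynomial (Fin m) (𝓞 K)))) ∪
    (in2 '' (G : Set (MvPolynomial (Fin m) (𝓞 K)))) ∪ (sm '' (G : Set (MvPolynomial (Fin m) (𝓞 K)))) with hG2
  have h2 : MvPolynomial.map (algebraMap (𝓞 K) K) (par T ρ) ∈
      Ideal.span ((MvPolynomial.map (algebraMap (𝓞 K) K)) '' G2) := by
    have e1 : P.map (in1 (R := K) (m := m)) ⊔ P.map in2 ⊔ P.map sm ≤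
        Ideal.span ((MvPolynomial.map (algebraMap (𝓞 K) K)) '' G2) := by
      have key : ∀ (A : MvPolynomial (Fin m) K →ₐ[K] MvPolynomial (Fin m ⊕ Fin m) K)
          (B : MvPolynomial (Fin m) (𝓞 K) →ₐ[𝓞 K] MvPolynomial (Fin m ⊕ Fin m) (𝓞 K)),
          (∀ f, MvPolynomial.map (algebraMap (𝓞 K) K) (B f) = A (MvPolynomial.map (algebraMap (𝓞 K) K) f)) →
          (B '' (G : Set (MvPolynomial (Fin m) (𝓞 K)))) ⊆ G2 →
          P.map A ≤ Ideal.span ((MvPolynomial.map (algebraMap (𝓞 K) K)) '' G2) := by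
        intro A B hAB hB
        rw [← hG, Ideal.map_span, Ideal.span_le]
        rintro _ ⟨_, ⟨g, hg, rfl⟩, rfl⟩
        exact Ideal.subset_span ⟨B g, hB ⟨g, hg, rfl⟩, hAB g⟩
      refine sup_le (sup_le ?_ ?_) ?_
      · exact key in1 in1 (map_in1 _) fun x hx => Or.inl (Or.inl hx)
      · exact key in2 in2 (map_in2 _) fun x hx => Or.inl (Or.inr hx)
      · exact key sm sm (map_sm _) fun x hx => Or.inr hx
    rw [map_par, hρ, map_mul]
    exact Ideal.mul_mem_left _ _ (e1 hρP)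
  obtain ⟨N2, hN2, hN2'⟩ := spread G2 _ h2
  obtain ⟨M, hM⟩ := nzS hρne
  refine ⟨G, fun g hg => ?_, (∑ i, (Q i).natDegree) ^ (2 * m) * ρ.totalDegree, N + (∑ i, N1 i) + N2 + M + 1, ?_⟩
  · rw [← hG]
    exact Ideal.subset_span ⟨g, hg, rfl⟩
  intro p hp hp0 φ
  have hcast : ∀ n : ℕ, n ≠ 0 → n < p → (n : ZMod p) ≠ 0 := by
    intro n hn hnp h
    rw [ZMod.natCast_eq_zero_iff] at h
    exact absurd (Nat.le_of_dvd (Nat.pos_of_ne_zero hn) h) (by omega)
  have hN' : (N : ZMod p) ≠ 0 := hcast N hN (by omega)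
  have hN1p : ∀ i, (N1 i : ZMod p) ≠ 0 := fun i => hcast _ (hN1 i) (by
    have := Finset.single_le_sum (f := N1) (fun j _ => Nat.zero_le _) (Finset.mem_univ i)
    omega)
  have hN2p : (N2 : ZMod p) ≠ 0 := hcast N2 hN2 (by omega)
  exact Pairs_cnt hr T ρ G Q N hlead N1 hN1' N2 hN2' _
    (fun i => Finset.single_le_sum (f := fun j => (Q j).natDegree) (fun j _ => Nat.zero_le _) (Finset.mem_univ i))
    p φ hN' hN1p hN2p (hM p hp.out (by omega) φ)

end LW
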